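import Pool.Agent.R105.TP.ExF

/-! Stability and exact numbers for `K_4^3`-free 3-graphs without a further 3-graph. -/

set_option autoImplicit false
set_option linter.unusedVariables false
set_option linter.unusedSectionVars false
set_option maxRecDepth 100000

open Finset
open scoped Classical

namespace Pool.Agent.R105.TP
open Pool.Agent.Y903.TX
open Pool.Agent.TH773 Pool.Agent.TH773.ST
open Pool.Agent.Y439
open Pool.Agent.Y47.BU
open Pool.Agent.Y439.Loc (tnum)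
open Pool.Agent.H122R2.N6 (tri)

/-- the number of injective maps which send the edges of `F` to edges of `H` -/
noncomputable def emb {k n : ℕ} (F : Finset (Finset (Fin k))) (H : Finset (Finset (Fin n))) : ℕ :=
  ((univ : Finset (Fin k → Fin n)).filter fun f =>
    Function.Injective f ∧ ∀ e ∈ F, e.image f ∈ H).card

theorem img3 {k n : ℕ} (w : Fin k → Fin n) (a b d : Fin k) :
    (({a, b, d} : Finset (Fin k)).image w) = {w a, w b, w d} := by
  ext x
  simp only [mem_image, mem_insert, mem_singleton]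
  constructor
  · rintro ⟨z, rfl | rfl | rfl, rfl⟩ <;> simp
  · rintro (rfl | rfl | rfl)
    exacts [⟨a, by simp, rfl⟩, ⟨b, by simp, rfl⟩, ⟨d, by simp, rfl⟩]

theorem emb_sS {k n : ℕ} {F : Finset (Finset (Fin k))} (hF3 : ∀ e ∈ F, e.card = 3)
    (H : Finset (Finset (Fin n))) :
    (sS (SF F (Fin n) (tri H))).card = emb F H := by
  unfold emb sS
  congr 1
  ext w
  simp only [mem_filter, mem_univ, true_and]
  refine and_congr_right fun hw => ⟨fun h e he => ?_, fun h a b d hab had hbd he => ?_⟩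
  · obtain ⟨a, b, d, n1, n2, n3, rfl⟩ := card_eq_three.1 (hF3 e he)
    rw [img3]
    exact tri_iff.1 (h a b d n1 n2 n3 he)
  · rw [tri_iff, ← img3]
    exact h _ he

/-- Stability: few copies of `F`. -/
theorem stab_emb (i : Fin 5) {k : ℕ} {F : Finset (Finset (Fin k))} (hF3 : ∀ e ∈ F, e.card = 3)
    (hF : ∀ X ∈ Turan34.fam i, HomTo F X) {ε : ℝ} (hε : 0 < ε) :
    ∃ K n0 : ℕ, ∀ n, n0 ≤ n → ∀ H : Finset (Finset (Fin n)), (∀ e ∈ H, e.card = 3) →
      Turan34.K43Free H → K * emb F H ≤ n ^ k →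
      (H.card : ℝ) ≤ (5 / 9 + ε) * (n.choose 3 : ℝ) ∧ ∃ g : Fin n → Fin 3,
        ((symmDiff H (Turan34.turan g)).card : ℝ) ≤
          1161216000 * (5 / 54 * (n : ℝ) ^ 3 - H.card) + ε * (n : ℝ) ^ 3 := by
  obtain ⟨K, n0, h⟩ := mainG (A := Fin k) (S := SF F) i (fun m hm => by
    obtain ⟨X, hX, hM⟩ := famM_mask i m hm
    exact ramG_hom hM (fam_card i X hX) (hF X hX)) hε
  refine ⟨K, n0, fun n hn H h3 hK hc => h n hn H h3 hK ?_⟩
  rw [emb_sS hF3, Fintype.card_fin]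
  exact hc

theorem emb_zero {k n : ℕ} {F : Finset (Finset (Fin k))} {H : Finset (Finset (Fin n))}
    (h : ¬ Contains F H) : emb F H = 0 := by
  unfold emb
  rw [card_eq_zero, filter_eq_empty_iff]
  intro f _ hf
  exact h ⟨f, hf.1, hf.2⟩

theorem stab_free (i : Fin 5) {k : ℕ} {F : Finset (Finset (Fin k))} (hF3 : ∀ e ∈ F, e.card = 3)
    (hF : ∀ X ∈ Turan34.fam i, HomTo F X) {ε : ℝ} (hε : 0 < ε) :
    ∃ n0 : ℕ, ∀ n, n0 ≤ n → ∀ H : Finset (Finset (Fin n)), (∀ e ∈ H, e.card = 3) →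
      Turan34.K43Free H → ¬ Contains F H →
      (H.card : ℝ) ≤ (5 / 9 + ε) * (n.choose 3 : ℝ) ∧ ∃ g : Fin n → Fin 3,
        ((symmDiff H (Turan34.turan g)).card : ℝ) ≤
          1161216000 * (5 / 54 * (n : ℝ) ^ 3 - H.card) + ε * (n : ℝ) ^ 3 := by
  obtain ⟨K, n0, h⟩ := stab_emb i hF3 hF hε
  refine ⟨n0, fun n hn H h3 hK hc => h n hn H h3 hK ?_⟩
  rw [emb_zero hc]
  simp

/-- the 3-graph with a list of edges -/
def gr (Es : List Ed) : Finset (Finset (Fin 6)) :=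
  (Es.map fun e => ({e.1, e.2.1, e.2.2} : Finset (Fin 6))).toFinset

theorem mem_gr {Es : List Ed} {s : Finset (Fin 6)} :
    s ∈ gr Es ↔ ∃ e ∈ Es, ({e.1, e.2.1, e.2.2} : Finset (Fin 6)) = s := by
  unfold gr
  rw [List.mem_toFinset, List.mem_map]

/-- the entries of the edges are different -/
def Prp (Es : List Ed) : Prop := ∀ e ∈ Es, e.1 ≠ e.2.1 ∧ e.1 ≠ e.2.2 ∧ e.2.1 ≠ e.2.2

theorem free_iff {Es : List Ed} (hE : Prp Es) {n : ℕ} (H : Finset (Finset (Fin n))) :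
    FreeR Es (Loc.Rel H) ↔ ¬ Contains (gr Es) H := by
  constructor
  · rintro h ⟨f, hf, hi⟩
    refine h f hf fun e he => ?_
    obtain ⟨n1, n2, n3⟩ := hE e he
    refine ⟨fun h => n1 (hf h), fun h => n3 (hf h), fun h => n2 (hf h), ?_⟩
    rw [← img3]
    exact hi _ (mem_gr.2 ⟨e, he, rfl⟩)
  · intro h f hf hi
    refine h ⟨f, hf, fun s hs => ?_⟩
    obtain ⟨e, he, rfl⟩ := mem_gr.1 hs
    rw [img3]
    exact (hi e he).2.2.2

theorem gr_card {Es : List Ed} (hE : Prp Es) : ∀ s ∈ gr Es, s.card = 3 := by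
  intro s hs
  obtain ⟨e, he, rfl⟩ := mem_gr.1 hs
  obtain ⟨n1, n2, n3⟩ := hE e he
  exact card_eq_three.2 ⟨_, _, _, n1, n2, n3, rfl⟩

theorem cls_F {Es : List Ed} (hE : Prp Es) (D : Data Es) (i : Fin 5)
    (hF : ∀ X ∈ Turan34.fam i, HomTo (gr Es) X) :
    ClsP (fun _ H => FreeR Es (Loc.Rel H)) KK TurG where
  K0 := by unfold KK; norm_num
  her := her_F
  stab ε hε := by
    obtain ⟨n0, h⟩ := stab_free i (gr_card hE) hF hε
    refine ⟨n0, fun n hn H h3 hK hP => ?_⟩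
    obtain ⟨h1, g, h2⟩ := h n hn H h3 hK ((free_iff hE H).1 hP)
    exact ⟨stab_up hε h1, g, h2⟩
  core n H g hH hK hP hn h1 h2 hdeg := mid_F D hH hK hP g hn
    (by have := eps0_pos; positivity) le_rfl h1 h2 hdeg

/-- Exact numbers. -/
theorem exact_F {Es : List Ed} (hE : Prp Es) (D : Data Es) (i : Fin 5)
    (hF : ∀ X ∈ Turan34.fam i, HomTo (gr Es) X) : ∃ n0 : ℕ, ∀ n, n0 ≤ n →
    ∀ H : Finset (Finset (Fin n)), (∀ e ∈ H, e.card = 3) → Turan34.K43Free H →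
      ¬ Contains (gr Es) H → H.card ≤ tnum n ∧ (H.card = tnum n → TurG n H) := by
  obtain ⟨n0, h⟩ := exact_of_clsP (cls_F hE D i hF)
  refine ⟨n0, fun n hn H h3 hK hC => ?_⟩
  have hP := (free_iff hE H).2 hC
  by_cases hc : tnum n ≤ H.card
  · have h1 := h n hn H h3 hK hP hc
    exact ⟨h1.1.le, fun _ => h1.2⟩
  · have h1 := not_le.1 hc
    exact ⟨h1.le, fun h => absurd h h1.ne⟩

end Pool.Agent.R105.TP
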