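import Pool.Agent.R105.TP.Cls

/-! Three 3-graphs on six vertices with nine edges. -/

set_option autoImplicit false
set_option maxRecDepth 100000

open Finset

namespace Pool.Agent.R105.TP
open Pool.Agent.TH773
open Pool.Agent.Y903.TX

instance (g : Fin 6 → Fin 3) (L : List Ed) : Decidable (Typ g L) := by
  unfold Typ; infer_instance
instance (Es : List Ed) : Decidable (Prp Es) := by unfold Prp; infer_instance

/-- The 3-graph with edges 012 015 023 024 025 034 123 124 134. -/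
def N0 : List Ed :=
  [(0, 1, 2), (0, 1, 5), (0, 2, 3), (0, 2, 4), (0, 2, 5), (0, 3, 4), (1, 2, 3), (1, 2, 4), (1, 3, 4)]

/-- The 3-graph with edges 013 014 023 024 025 035 123 124 134. -/
def N1 : List Ed :=
  [(0, 1, 3), (0, 1, 4), (0, 2, 3), (0, 2, 4), (0, 2, 5), (0, 3, 5), (1, 2, 3), (1, 2, 4), (1, 3, 4)]

/-- The 3-graph with edges 012 014 024 034 035 123 125 134 234. -/
def N2 : List Ed :=
  [(0, 1, 2), (0, 1, 4), (0, 2, 4), (0, 3, 4), (0, 3, 5), (1, 2, 3), (1, 2, 5), (1, 3, 4), (2, 3, 4)]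

theorem dataN0 : Data N0 where
  inner := ⟨1, 5, 0, ![0, 0, 1, 2, 2, 0],
    [(1, 0, 2), (0, 2, 3), (0, 2, 4), (5, 0, 2), (0, 3, 4), (1, 2, 3), (1, 2, 4), (1, 3, 4)],
    by decide, by decide, by decide, by decide, by decide, by decide, by decide⟩
  cross := ⟨5, 1, 0, ![1, 1, 2, 0, 0, 0],
    [(1, 0, 2), (0, 2, 3), (0, 2, 4), (5, 0, 2), (0, 3, 4), (1, 2, 3), (1, 2, 4), (1, 3, 4)],
    by decide, by decide, by decide, by decide, by decide, by decide, by decide⟩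
  link := Or.inl ⟨5, 0, 1, 2, ![0, 0, 1, 2, 2, 0],
    [(0, 1, 2), (0, 2, 3), (0, 2, 4), (0, 3, 4), (1, 2, 3), (1, 2, 4), (1, 3, 4)],
    by decide, by decide, by decide, by decide, by decide, by decide, by decide⟩

theorem dataN1 : Data N1 where
  inner := ⟨2, 5, 0, ![0, 2, 0, 1, 1, 0],
    [(0, 1, 3), (0, 1, 4), (2, 0, 3), (2, 0, 4), (5, 0, 3), (2, 1, 3), (2, 1, 4), (1, 3, 4)],
    by decide, by decide, by decide, by decide, by decide, by decide, by decide⟩
  cross := ⟨5, 2, 0, ![1, 0, 1, 2, 2, 0],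
    [(0, 1, 3), (0, 1, 4), (2, 0, 3), (2, 0, 4), (5, 0, 3), (2, 1, 3), (2, 1, 4), (1, 3, 4)],
    by decide, by decide, by decide, by decide, by decide, by decide, by decide⟩
  link := Or.inl ⟨5, 0, 2, 3, ![0, 2, 0, 1, 1, 0],
    [(0, 1, 3), (0, 1, 4), (0, 2, 3), (0, 2, 4), (1, 2, 3), (1, 2, 4), (1, 3, 4)],
    by decide, by decide, by decide, by decide, by decide, by decide, by decide⟩

theorem dataN2 : Data N2 where
  inner := ⟨0, 5, 3, ![0, 2, 2, 0, 1, 0],
    [(0, 1, 2), (0, 1, 4), (0, 2, 4), (0, 3, 4), (1, 2, 3), (5, 1, 2), (1, 3, 4), (2, 3, 4)],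
    by decide, by decide, by decide, by decide, by decide, by decide, by decide⟩
  cross := ⟨5, 1, 2, ![2, 1, 1, 2, 0, 0],
    [(1, 0, 2), (1, 0, 4), (0, 2, 4), (0, 3, 4), (5, 0, 3), (1, 2, 3), (1, 3, 4), (2, 3, 4)],
    by decide, by decide, by decide, by decide, by decide, by decide, by decide⟩
  link := Or.inr ⟨5, 1, 2, 0, 3, ![1, 0, 0, 1, 2, 0],
    [(0, 1, 2), (0, 1, 4), (0, 2, 4), (0, 3, 4), (1, 2, 3), (1, 3, 4), (2, 3, 4)],
    by decide, by decide, by decide, by decide, by decide, by decide, by decide, by decide⟩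

theorem prpN0 : Prp N0 := by decide
theorem prpN1 : Prp N1 := by decide
theorem prpN2 : Prp N2 := by decide

theorem HomTo.trans {k : ℕ} {F : Finset (Finset (Fin k))} {X Y : Finset (Finset (Fin 6))}
    (h : HomTo F X) (h' : HomTo X Y) : HomTo F Y := by
  obtain ⟨f, hf⟩ := h
  obtain ⟨g, hg⟩ := h'
  refine ⟨g ∘ f, fun e he => ?_⟩
  rw [← image_image]
  exact hg _ (hf e he)

theorem AC : HomTo Turan34.XA Turan34.XC := ⟨![1, 0, 4, 5, 2, 3], by decide⟩

theorem DB : HomTo Turan34.XD Turan34.XB := ⟨![4, 0, 1, 5, 2, 3], by decide⟩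

theorem homN0 : HomTo (gr N0) Turan34.XD := ⟨![0, 4, 1, 2, 3, 5], by decide⟩

theorem homN1 : HomTo (gr N1) Turan34.XA := ⟨![0, 1, 4, 2, 3, 5], by decide⟩

theorem homN2 : HomTo (gr N2) Turan34.XD := ⟨![0, 2, 3, 4, 1, 5], by decide⟩

end Pool.Agent.R105.TP
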