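import Pool.Agent.Y903.TX.Siz
import Pool.Agent.TH773.ST.Defs

/-! From families of sets to relations; deletion of vertices of small degree in hereditary classes.
(The lemmas on sets, deletion and numbers are those of `Pool.Agent.Y903.TX.Brg`, `Del`, `Mid` and
`Ind`, repeated here without the parts on order-size pairs.) -/

set_option autoImplicit false
set_option linter.unusedVariables false
set_option linter.unusedSectionVars false
set_option maxRecDepth 100000

open Finset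
open scoped Classical

namespace Pool.Agent.R105.TP
open Pool.Agent.Y439.Loc hiding sum_nonneg'
open Pool.Agent.TH773
open Pool.Agent.Y439
open Pool.Agent.Y903.TX

section
variable {n : ℕ} {H : Finset (Finset (Fin n))}

theorem turan_tgraph (g : Fin n → Fin 3) : Turan34.turan g = tgraph g := by
  ext e
  unfold Turan34.turan tgraph
  simp only [mem_filter, mem_powersetCard, subset_univ, true_and, mem_univ]

/-- the assumptions on the links from the distance -/
theorem near_of {δ : ℝ} (hH : ∀ e ∈ H, e.card = 3) (hK : Turan34.K43Free H)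
    (g : Fin n → Fin 3) (hn : 0 < n) (hδ0 : 0 < δ) (hδ : δ ≤ eps0 / 6)
    (h1 : ((symmDiff H (Turan34.turan g)).card : ℝ) ≤ δ ^ 2 * (n : ℝ) ^ 3)
    (h2 : (5 / 54 - δ ^ 2) * (n : ℝ) ^ 3 ≤ (H.card : ℝ)) : Near g (Loc.Rel H) (n : ℝ) eps0 := by
  have hn0 : (0 : ℝ) < n := by exact_mod_cast hn
  have hsum : ∑ _x : Fin n, (1 : ℝ) = (n : ℝ) := by simp
  rw [turan_tgraph] at h1
  have hD3 : ∀ e ∈ symmDiff H (tgraph g), e.card = 3 := by
    intro e he
    rw [mem_symmDiff] at he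
    rcases he with he | he
    · exact hH e he.1
    · have := he.1
      unfold tgraph at this
      exact (mem_filter.mp this).2.1
  have hWD : WD g (Loc.Rel H) = 6 * ((symmDiff H (tgraph g)).card : ℝ) := by
    rw [WD_wr]
    have e1 : ∀ v, wr g (Loc.Rel H) v = ∑ y, ∑ z, ind (Loc.Rel (symmDiff H (tgraph g)) v y z) := by
      intro v
      rw [wr_count g H hH v, vertex_count _ hD3 v]
    rw [sum_congr rfl fun v _ => e1 v]
    exact total_count _ hD3
  have he0 := eps0_pos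
  have hδ2 : 6 * δ ^ 2 ≤ eps0 := by
    have : δ ^ 2 ≤ δ := by
      have : δ ≤ 1 := by
        have := eps_small
        have : eps0 ≤ 1 := this.trans (by norm_num)
        linarith
      nlinarith
    linarith
  refine ⟨rel_sys g H hK, hsum, hn0, he0, ?_, fun k => ?_⟩
  · rw [hWD]
    have : 6 * (δ ^ 2 * (n : ℝ) ^ 3) ≤ eps0 * (n : ℝ) ^ 3 := by
      rw [← mul_assoc]
      exact mul_le_mul_of_nonneg_right hδ2 (by positivity)
    linarith
  · have ht : tot (Tu g) = 6 * ((tgraph g).card : ℝ) := by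
      rw [← total_count (tgraph g) (fun e he => by
        unfold tgraph at he; exact (mem_filter.mp he).2.1)]
      unfold tot
      exact sum_congr rfl fun x _ => sum_congr rfl fun y _ => sum_congr rfl fun z _ =>
        ind_congr (rel_tgraph g x y z).symm
    have h3 : (H.card : ℝ) ≤ ((tgraph g).card : ℝ) + ((symmDiff H (tgraph g)).card : ℝ) := by
      have : H.card ≤ (tgraph g).card + (symmDiff H (tgraph g)).card := by
        have hsub : H ⊆ tgraph g ∪ symmDiff H (tgraph g) := by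
          intro e he
          rw [mem_union, mem_symmDiff]
          by_cases h : e ∈ tgraph g
          · exact Or.inl h
          · exact Or.inr (Or.inl ⟨he, h⟩)
        exact (card_le_card hsub).trans (card_union_le _ _)
      exact_mod_cast this
    have h4 := sizes (c := g) hsum hn0 hδ0.le (by
      rw [ht]
      nlinarith) k
    have h5 : 6 * δ ≤ eps0 := by linarith
    have h6 : 6 * δ * n ≤ eps0 * n := mul_le_mul_of_nonneg_right h5 hn0.le
    nlinarith

/-- Turán's constructions -/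
def TurG (n : ℕ) (H : Finset (Finset (Fin n))) : Prop := ∃ c : Fin n → Fin 3, H = tgraph c

theorem deg_card (hH : ∀ e ∈ H, e.card = 3) (v : Fin n) :
    deg (Loc.Rel H) v = 2 * ((H.filter fun e => v ∈ e).card : ℝ) :=
  vertex_count H hH v

theorem n_div (n : ℕ) : (n : ℝ) = 3 * ((n / 3 : ℕ) : ℝ) + ((n % 3 : ℕ) : ℝ) := by
  exact_mod_cast (Nat.div_add_mod n 3).symm

end

section
open Pool.Agent.TH773.Turan34 (K43Free)
variable {m : ℕ}

/-- the sets without `v`, as sets of vertices of `Fin m` -/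
noncomputable def del (v : Fin (m + 1)) (H : Finset (Finset (Fin (m + 1)))) :
    Finset (Finset (Fin m)) :=
  univ.filter fun e => e.map v.succAboveEmb ∈ H

theorem mem_del {v : Fin (m + 1)} {H : Finset (Finset (Fin (m + 1)))} {e : Finset (Fin m)} :
    e ∈ del v H ↔ e.map v.succAboveEmb ∈ H := by
  unfold del
  simp

/-- the preimage -/
noncomputable def prei (v : Fin (m + 1)) (T : Finset (Fin (m + 1))) : Finset (Fin m) :=
  univ.filter fun x => v.succAbove x ∈ T

theorem map_prei {v : Fin (m + 1)} {T : Finset (Fin (m + 1))} (h : v ∉ T) :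
    (prei v T).map v.succAboveEmb = T := by
  ext x
  simp only [mem_map, prei, mem_filter, mem_univ, true_and, Fin.coe_succAboveEmb]
  constructor
  · rintro ⟨a, ha, rfl⟩
    exact ha
  · intro hx
    have hxv : x ≠ v := fun e => h (e ▸ hx)
    obtain ⟨a, ha⟩ := Fin.exists_succAbove_eq hxv
    exact ⟨a, by rw [ha]; exact hx, ha⟩

theorem v_notin_map {v : Fin (m + 1)} (e : Finset (Fin m)) : v ∉ e.map v.succAboveEmb := by
  intro h
  rw [mem_map] at h
  obtain ⟨a, -, ha⟩ := h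
  exact Fin.succAbove_ne v a ha

theorem del_card (v : Fin (m + 1)) (H : Finset (Finset (Fin (m + 1)))) :
    (del v H).card + (H.filter fun e => v ∈ e).card = H.card := by
  have h1 : (del v H).card = (H.filter fun e => v ∉ e).card := by
    refine card_bij (fun e _ => e.map v.succAboveEmb) ?_ ?_ ?_
    · intro e he
      exact mem_filter.mpr ⟨mem_del.mp he, v_notin_map e⟩
    · intro e _ e' _ h
      exact Finset.map_injective _ h
    · intro T hT
      obtain ⟨h1, h2⟩ := mem_filter.mp hT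
      exact ⟨prei v T, mem_del.mpr (by rw [map_prei h2]; exact h1), map_prei h2⟩
  rw [h1, add_comm]
  exact card_filter_add_card_filter_not (fun e => v ∈ e)

theorem del_unif {v : Fin (m + 1)} {H : Finset (Finset (Fin (m + 1)))}
    (hH : ∀ e ∈ H, e.card = 3) : ∀ e ∈ del v H, e.card = 3 := by
  intro e he
  have := hH _ (mem_del.mp he)
  rwa [card_map] at this

theorem del_free {v : Fin (m + 1)} {H : Finset (Finset (Fin (m + 1)))} (hK : K43Free H) :
    K43Free (del v H) := by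
  intro S hS
  obtain ⟨s, h1, h2, h3⟩ := hK (S.map v.succAboveEmb) (by rw [card_map]; exact hS)
  have hv : v ∉ s := fun h => v_notin_map S (h1 h)
  have h4 := map_prei hv
  refine ⟨prei v s, ?_, ?_, ?_⟩
  · rw [← map_subset_map (f := v.succAboveEmb), h4]
    exact h1
  · rw [← card_map v.succAboveEmb, h4]
    exact h2
  · rw [mem_del, h4]
    exact h3

theorem del_inside {v : Fin (m + 1)} {H : Finset (Finset (Fin (m + 1)))} (S : Finset (Fin m)) :
    ((del v H).filter fun e => e ⊆ S).card = (H.filter fun e => e ⊆ S.map v.succAboveEmb).card := by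
  refine card_bij (fun e _ => e.map v.succAboveEmb) ?_ ?_ ?_
  · intro e he
    obtain ⟨h1, h2⟩ := mem_filter.mp he
    exact mem_filter.mpr ⟨mem_del.mp h1, map_subset_map.mpr h2⟩
  · intro e _ e' _ h
    exact Finset.map_injective _ h
  · intro T hT
    obtain ⟨h1, h2⟩ := mem_filter.mp hT
    have hv : v ∉ T := fun h => v_notin_map S (h2 h)
    refine ⟨prei v T, mem_filter.mpr ⟨mem_del.mpr (by rw [map_prei hv]; exact h1), ?_⟩,
      map_prei hv⟩
    rw [← map_subset_map (f := v.succAboveEmb), map_prei hv]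
    exact h2

end

section
open Pool.Agent.TH773.Turan34 (K43Free turan)

theorem tn0 (q : ℕ) : (tnum (3 * q) : ℝ) = 5 / 2 * (q : ℝ) ^ 3 - 3 / 2 * (q : ℝ) ^ 2 := by
  have e0 : 3 * q / 3 = q := by omega
  have e1 : (3 * q + 1) / 3 = q := by omega
  have e2 : (3 * q + 2) / 3 = q := by omega
  unfold tnum
  rw [e0, e1, e2]
  push_cast [Nat.cast_choose_two]
  ring

theorem tn1 (q : ℕ) : (tnum (3 * q + 1) : ℝ) =
    5 / 2 * (q : ℝ) ^ 3 + (q : ℝ) ^ 2 - (q : ℝ) / 2 := by
  have e0 : (3 * q + 1) / 3 = q := by omega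
  have e1 : (3 * q + 1 + 1) / 3 = q := by omega
  have e2 : (3 * q + 1 + 2) / 3 = q + 1 := by omega
  unfold tnum
  rw [e0, e1, e2]
  push_cast [Nat.cast_choose_two]
  ring

theorem tn2 (q : ℕ) : (tnum (3 * q + 2) : ℝ) =
    5 / 2 * (q : ℝ) ^ 3 + 7 / 2 * (q : ℝ) ^ 2 + q := by
  have e0 : (3 * q + 2) / 3 = q := by omega
  have e1 : (3 * q + 2 + 1) / 3 = q + 1 := by omega
  have e2 : (3 * q + 2 + 2) / 3 = q + 1 := by omega
  unfold tnum
  rw [e0, e1, e2]
  push_cast [Nat.cast_choose_two]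
  ring

theorem three_cases (n : ℕ) : ∃ q, n = 3 * q ∨ n = 3 * q + 1 ∨ n = 3 * q + 2 :=
  ⟨n / 3, by omega⟩

theorem tnum_low (n : ℕ) : 5 / 54 * (n : ℝ) ^ 3 - (n : ℝ) ^ 2 ≤ tnum n := by
  obtain ⟨q, rfl | rfl | rfl⟩ := three_cases n
  · rw [tn0]
    push_cast
    nlinarith [sq_nonneg (q : ℝ)]
  · rw [tn1]
    push_cast
    have : (0 : ℝ) ≤ q := Nat.cast_nonneg q
    nlinarith [sq_nonneg (q : ℝ)]
  · rw [tn2]
    push_cast
    have : (0 : ℝ) ≤ q := Nat.cast_nonneg q
    nlinarith [sq_nonneg (q : ℝ)]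

theorem tnum_step (n : ℕ) :
    5 / 18 * (n : ℝ) ^ 2 - n - 1 ≤ (tnum (n + 1) : ℝ) - tnum n := by
  obtain ⟨q, rfl | rfl | rfl⟩ := three_cases n
  · rw [tn0, tn1]
    push_cast
    have : (0 : ℝ) ≤ q := Nat.cast_nonneg q
    nlinarith
  · rw [tn1, show 3 * q + 1 + 1 = 3 * q + 2 from rfl, tn2]
    push_cast
    have : (0 : ℝ) ≤ q := Nat.cast_nonneg q
    nlinarith
  · rw [tn2, show 3 * q + 2 + 1 = 3 * (q + 1) from by ring, tn0]
    push_cast
    have : (0 : ℝ) ≤ q := Nat.cast_nonneg q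
    nlinarith

/-- a hereditary class of 3-graphs for which stability and the bound for large minimum degree hold -/
structure ClsP (P : ∀ n, Finset (Finset (Fin n)) → Prop) (K : ℝ)
    (Q : ∀ n, Finset (Finset (Fin n)) → Prop) : Prop where
  K0 : 0 ≤ K
  her : ∀ (m : ℕ) (v : Fin (m + 1)) (H : Finset (Finset (Fin (m + 1)))), P (m + 1) H →
    P m (del v H)
  stab : ∀ ε : ℝ, 0 < ε → ∃ N : ℕ, ∀ n, N ≤ n →
    ∀ H : Finset (Finset (Fin n)), (∀ e ∈ H, e.card = 3) → K43Free H → P n H →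
      (H.card : ℝ) ≤ (5 / 54 + ε) * (n : ℝ) ^ 3 ∧
      ∃ g : Fin n → Fin 3, ((symmDiff H (turan g)).card : ℝ) ≤
        K * (5 / 54 * (n : ℝ) ^ 3 - H.card) + ε * (n : ℝ) ^ 3
  core : ∀ (n : ℕ) (H : Finset (Finset (Fin n))) (g : Fin n → Fin 3),
    (∀ e ∈ H, e.card = 3) → K43Free H → P n H → 1 ≤ eps0 * n →
    ((symmDiff H (turan g)).card : ℝ) ≤ (eps0 / 6) ^ 2 * (n : ℝ) ^ 3 →
    (5 / 54 - (eps0 / 6) ^ 2) * (n : ℝ) ^ 3 ≤ (H.card : ℝ) →
    (∀ v, (5 / 18 - eps0 / 2) * (n : ℝ) ^ 2 ≤ ((H.filter fun e => v ∈ e).card : ℝ)) →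
    H.card ≤ tnum n ∧ (H.card = tnum n → Q n H)

theorem exact_of_clsP {P : ∀ n, Finset (Finset (Fin n)) → Prop} {K : ℝ}
    {Q : ∀ n, Finset (Finset (Fin n)) → Prop} (C : ClsP P K Q) : ∃ n0 : ℕ, ∀ n, n0 ≤ n →
      ∀ H : Finset (Finset (Fin n)), (∀ e ∈ H, e.card = 3) → K43Free H → P n H →
        tnum n ≤ H.card → H.card = tnum n ∧ Q n H := by
  have he0 := eps0_pos
  have he1 : eps0 ≤ 1 := eps_small.trans (by norm_num)
  have hK0 := C.K0
  obtain ⟨γ, hγ⟩ : ∃ γ : ℝ, γ = eps0 / 16 := ⟨_, rfl⟩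
  obtain ⟨δ, hδ⟩ : ∃ δ : ℝ, δ = eps0 / 6 := ⟨_, rfl⟩
  have hγ0 : 0 < γ := by rw [hγ]; positivity
  have hδ0 : 0 < δ := by rw [hδ]; positivity
  obtain ⟨ε, hε⟩ : ∃ ε : ℝ, ε = min (δ ^ 2 / 2) (γ / 8) := ⟨_, rfl⟩
  have hε0 : 0 < ε := by rw [hε]; positivity
  have hε1 : ε ≤ δ ^ 2 / 2 := by rw [hε]; exact min_le_left _ _
  have hε2 : ε ≤ γ / 8 := by rw [hε]; exact min_le_right _ _
  obtain ⟨N1, hst⟩ := C.stab ε hε0
  have hco := C.core
  obtain ⟨n1, hn1⟩ := exists_nat_ge (16 / eps0 + 4 / δ ^ 2 * (K + 1) + 16 / γ + 16)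
  refine ⟨max n1 (2 * N1 + 2), fun n hn H hH hK hP hcard => ?_⟩
  have hnN : 2 * N1 + 2 ≤ n := (le_max_right _ _).trans hn
  have hn1' : 16 / eps0 + 4 / δ ^ 2 * (K + 1) + 16 / γ + 16 ≤ (n : ℝ) :=
    hn1.trans (by exact_mod_cast (le_max_left _ _).trans hn)
  have hb1 : 16 ≤ eps0 * n := by
    have h1 : 16 / eps0 ≤ (n : ℝ) := by
      have : 0 ≤ 4 / δ ^ 2 * (K + 1) + 16 / γ + 16 := by positivity
      linarith
    rw [div_le_iff₀ he0] at h1
    linarith
  have hb2 : 4 * (K + 1) ≤ δ ^ 2 * n := by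
    have h1 : 4 / δ ^ 2 * (K + 1) ≤ (n : ℝ) := by
      have : 0 ≤ 16 / eps0 + 16 / γ + 16 := by positivity
      linarith
    have h2 := mul_le_mul_of_nonneg_left h1 (show (0 : ℝ) ≤ δ ^ 2 by positivity)
    have h3 : δ ^ 2 * (4 / δ ^ 2 * (K + 1)) = 4 * (K + 1) := by field_simp
    linarith
  have hb3 : 16 ≤ γ * n := by
    have h1 : 16 / γ ≤ (n : ℝ) := by
      have : 0 ≤ 16 / eps0 + 4 / δ ^ 2 * (K + 1) + 16 := by positivity
      linarith
    rw [div_le_iff₀ hγ0] at h1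
    linarith
  have hn16 : (16 : ℝ) ≤ n := by
    have : 0 ≤ 16 / eps0 + 4 / δ ^ 2 * (K + 1) + 16 / γ := by positivity
    linarith
  have hn0 : (0 : ℝ) < n := by linarith
  -- either all is well or there is a vertex of small degree
  have step : ∀ m : ℕ, n ≤ 2 * m → m ≤ n → ∀ H' : Finset (Finset (Fin m)),
      (∀ e ∈ H', e.card = 3) → K43Free H' → P m H' →
      tnum m ≤ H'.card → (H'.card = tnum m ∧ Q m H') ∨
        ∃ v, ((H'.filter fun e => v ∈ e).card : ℝ) < (5 / 18 - eps0 / 2) * (m : ℝ) ^ 2 := by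
    intro m hm hmn H' hH' hK' hP' hc'
    by_cases hlow : ∃ v, ((H'.filter fun e => v ∈ e).card : ℝ) < (5 / 18 - eps0 / 2) * (m : ℝ) ^ 2
    · exact Or.inr hlow
    left
    push Not at hlow
    have hm' : (n : ℝ) ≤ 2 * m := by exact_mod_cast hm
    obtain ⟨-, g, hg⟩ := hst m (by omega) H' hH' hK' hP'
    have hc2 : (tnum m : ℝ) ≤ (H'.card : ℝ) := by exact_mod_cast hc'
    have hl := tnum_low m
    have hm0 : (0 : ℝ) ≤ m := Nat.cast_nonneg m
    have hd1 : 2 * (K + 1) ≤ δ ^ 2 * m := by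
      have := mul_le_mul_of_nonneg_left hm' (show (0 : ℝ) ≤ δ ^ 2 by positivity)
      linarith
    have hd2 : 2 * (K + 1) * (m : ℝ) ^ 2 ≤ δ ^ 2 * (m : ℝ) ^ 3 := by
      have := mul_le_mul_of_nonneg_right hd1 (show (0 : ℝ) ≤ (m : ℝ) ^ 2 by positivity)
      calc 2 * (K + 1) * (m : ℝ) ^ 2 ≤ δ ^ 2 * m * (m : ℝ) ^ 2 := this
        _ = δ ^ 2 * (m : ℝ) ^ 3 := by ring
    have hgap : 5 / 54 * (m : ℝ) ^ 3 - H'.card ≤ (m : ℝ) ^ 2 := by linarith
    have k1 : K * (5 / 54 * (m : ℝ) ^ 3 - H'.card) ≤ K * (m : ℝ) ^ 2 :=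
      mul_le_mul_of_nonneg_left hgap hK0
    have k2 : ε * (m : ℝ) ^ 3 ≤ δ ^ 2 / 2 * (m : ℝ) ^ 3 :=
      mul_le_mul_of_nonneg_right hε1 (by positivity)
    have k3 : 0 ≤ (m : ℝ) ^ 2 := by positivity
    have k4 : 0 ≤ K * (m : ℝ) ^ 2 := by positivity
    have he' : 1 ≤ eps0 * m := by
      have := mul_le_mul_of_nonneg_left hm' he0.le
      linarith
    have h := hco m H' g hH' hK' hP' he' (by rw [← hδ]; linarith) (by rw [← hδ]; linarith)
      hlow
    have heq : H'.card = tnum m := le_antisymm h.1 hc'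
    exact ⟨heq, h.2 heq⟩
  -- deletion
  have next : ∀ m : ℕ, n ≤ 2 * (m + 1) → ∀ (H' : Finset (Finset (Fin (m + 1)))) (v : Fin (m + 1))
      (a : ℝ), ((H'.filter fun e => v ∈ e).card : ℝ) <
        (5 / 18 - eps0 / 2) * ((m + 1 : ℕ) : ℝ) ^ 2 →
      (tnum (m + 1) : ℝ) + a ≤ (H'.card : ℝ) →
      (tnum m : ℝ) + (a + γ * (n : ℝ) ^ 2) ≤ ((del v H').card : ℝ) := by
    intro m hm H' v a hv ha
    have hm' : (n : ℝ) ≤ 2 * ((m : ℝ) + 1) := by exact_mod_cast hm
    have h1 : ((del v H').card : ℝ) + ((H'.filter fun e => v ∈ e).card : ℝ) = (H'.card : ℝ) := by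
      exact_mod_cast del_card v H'
    have h2 := tnum_step m
    push_cast at hv
    have h3 : eps0 / 8 * n ≤ eps0 / 2 * ((m : ℝ) + 1) - 2 := by
      have := mul_le_mul_of_nonneg_left hm' he0.le
      linarith
    have h4 : eps0 / 16 * (n : ℝ) ^ 2 ≤ ((m : ℝ) + 1) * (eps0 / 2 * ((m : ℝ) + 1) - 2) := by
      have e1 : (n : ℝ) / 2 ≤ (m : ℝ) + 1 := by linarith
      have e2 := mul_le_mul e1 h3 (by positivity) (by linarith)
      calc eps0 / 16 * (n : ℝ) ^ 2 = (n : ℝ) / 2 * (eps0 / 8 * n) := by ring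
        _ ≤ _ := e2
    rw [hγ]
    have hm0 : (0 : ℝ) ≤ m := Nat.cast_nonneg m
    linarith
  -- no 3-graph with too many edges
  have no : ∀ m : ℕ, n ≤ 2 * m → m < n → ∀ H' : Finset (Finset (Fin m)),
      (∀ e ∈ H', e.card = 3) → K43Free H' → P m H' →
      ¬ ((tnum m : ℝ) + γ * ((n : ℝ) - m) * (n : ℝ) ^ 2 ≤ (H'.card : ℝ)) := by
    intro m
    induction m with
    | zero =>
      intro h1 h2
      omega
    | succ m ih =>
      intro h1 h2 H' hH' hK' hP' hcon
      have hmn : ((m + 1 : ℕ) : ℝ) + 1 ≤ n := by exact_mod_cast h2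
      have hpos : 0 < γ * ((n : ℝ) - ((m + 1 : ℕ) : ℝ)) * (n : ℝ) ^ 2 := by
        have : 0 < (n : ℝ) - ((m + 1 : ℕ) : ℝ) := by linarith
        positivity
      by_cases hm : n ≤ 2 * m
      · have hle : tnum (m + 1) ≤ H'.card := by
          have : (tnum (m + 1) : ℝ) ≤ (H'.card : ℝ) := by linarith
          exact_mod_cast this
        rcases step (m + 1) h1 h2.le H' hH' hK' hP' hle with h | ⟨v, hv⟩
        · have : (H'.card : ℝ) = (tnum (m + 1) : ℝ) := by exact_mod_cast h.1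
          linarith
        · have h3 := next m h1 H' v _ hv hcon
          refine ih hm (by omega) (del v H') (del_unif hH') (del_free hK')
            (C.her m v H' hP') (le_trans (le_of_eq ?_) h3)
          push_cast
          ring
      · obtain ⟨h3, -⟩ := hst (m + 1) (by omega) H' hH' hK' hP'
        have h4 := tnum_low (m + 1)
        have h5 : 2 * m + 1 ≤ n := by omega
        have h6 : 2 * (m : ℝ) + 1 ≤ n := by exact_mod_cast h5
        have hM : ((m + 1 : ℕ) : ℝ) ≤ n := by linarith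
        have hM0 : (0 : ℝ) ≤ ((m + 1 : ℕ) : ℝ) := Nat.cast_nonneg _
        have h7 : (n : ℝ) / 4 ≤ (n : ℝ) - ((m + 1 : ℕ) : ℝ) := by push_cast; linarith
        have h8 : γ * ((n : ℝ) / 4) * (n : ℝ) ^ 2 ≤
            γ * ((n : ℝ) - ((m + 1 : ℕ) : ℝ)) * (n : ℝ) ^ 2 :=
          mul_le_mul_of_nonneg_right (mul_le_mul_of_nonneg_left h7 hγ0.le) (by positivity)
        have h9 : ε * ((m + 1 : ℕ) : ℝ) ^ 3 ≤ γ / 8 * (n : ℝ) ^ 3 :=
          mul_le_mul hε2 (pow_le_pow_left₀ hM0 hM 3) (by positivity) (by positivity)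
        have h10 : ((m + 1 : ℕ) : ℝ) ^ 2 ≤ (n : ℝ) ^ 2 := pow_le_pow_left₀ hM0 hM 2
        have h12 : 16 * (n : ℝ) ^ 2 ≤ γ * n * (n : ℝ) ^ 2 :=
          mul_le_mul_of_nonneg_right hb3 (by positivity)
        have h13 : 0 < (n : ℝ) ^ 2 := by positivity
        linarith
  -- the conclusion
  rcases step n (by omega) le_rfl H hH hK hP hcard with h | ⟨v, hv⟩
  · exact h
  · exfalso
    obtain ⟨m, rfl⟩ : ∃ m, n = m + 1 := ⟨n - 1, by omega⟩
    have hcard' : ((tnum (m + 1) : ℕ) : ℝ) + 0 ≤ (H.card : ℝ) := by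
      rw [add_zero]; exact_mod_cast hcard
    have h3 := next m (by omega) H v 0 hv hcard'
    refine no m (by omega) (by omega) (del v H) (del_unif hH) (del_free hK)
      (C.her m v H hP) (le_trans (le_of_eq ?_) h3)
    push_cast
    ring

/-- The constant in the distance. -/
noncomputable def KK : ℝ := 1161216000

theorem choose3_le (n : ℕ) : (n.choose 3 : ℝ) ≤ (n : ℝ) ^ 3 / 6 := by
  have h := Nat.choose_le_pow_div (α := ℝ) 3 n
  norm_num at h
  exact h

theorem stab_up {ε : ℝ} (hε : 0 < ε) {n a : ℕ} (h : (a : ℝ) ≤ (5 / 9 + ε) * (n.choose 3 : ℝ)) :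
    (a : ℝ) ≤ (5 / 54 + ε) * (n : ℝ) ^ 3 := by
  have h1 := choose3_le n
  have h2 : (5 / 9 + ε) * (n.choose 3 : ℝ) ≤ (5 / 9 + ε) * ((n : ℝ) ^ 3 / 6) :=
    mul_le_mul_of_nonneg_left h1 (by positivity)
  have h3 : 0 ≤ ε * (n : ℝ) ^ 3 := by positivity
  linarith

end

end Pool.Agent.R105.TP
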