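import Pool.Agent.Y903.TX.Core

/-!
# Embedding a six-vertex 3-graph near Turán's construction: counting

`Emb` lemmas: a set of placements of the six vertices in which the special edges are present and the
classes are prescribed is small if there is no copy of the 3-graph, since all the other edges of the
3-graph are of the types of Turán's construction.
-/

set_option autoImplicit false
set_option linter.unusedVariables false
set_option linter.unusedSectionVars false

open Finset
open scoped Classical

namespace Pool.Agent.R105.TP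
open Pool.Agent.Y439.Loc hiding sum_nonneg'
open Pool.Agent.Y903.TX

/-- counting functions by a map and the values at some places -/
theorem cnt {V α β : Type} [Fintype V] [Fintype α] (A : Finset (α → V)) (B : Finset β)
    (π : (α → V) → β) (R : Finset α) (h1 : ∀ f ∈ A, π f ∈ B)
    (h2 : ∀ f ∈ A, ∀ f' ∈ A, π f = π f' → (∀ i ∈ R, f i = f' i) → f = f') :
    A.card ≤ B.card * Fintype.card V ^ R.card := by
  have h : A.card ≤ (B ×ˢ (univ : Finset (↥R → V))).card := by
    refine card_le_card_of_injOn (fun f => (π f, fun i : R => f i)) ?_ ?_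
    · intro f hf
      simp only [coe_product, coe_univ, Set.mem_prod, mem_coe, Set.mem_univ, and_true]
      exact h1 f (mem_coe.1 hf)
    · intro f hf f' hf' h
      have e1 := (Prod.mk.inj h).1
      have e2 := (Prod.mk.inj h).2
      exact h2 f (mem_coe.1 hf) f' (mem_coe.1 hf') e1 fun i hi => congrFun e2 ⟨i, hi⟩
  rwa [card_product, card_univ, Fintype.card_fun, Fintype.card_coe] at h

section
variable {V : Type} [Fintype V] {c : V → Fin 3} {H : V → V → V → Prop} {n : ℝ}

theorem card_n (hn : ∑ _x : V, (1 : ℝ) = n) : (Fintype.card V : ℝ) = n := card_sq hn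

/-- the type of a triple in Turán's construction -/
def tb (a b d : Fin 3) : Bool := fdB a b d false false false false false false

/-- **Union bound.** -/
theorem gl (L : List (Fin 6 × Fin 6 × Fin 6)) (A : Finset (Fin 6 → V))
    (hno : ∀ f ∈ A, Function.Injective f → (∀ e ∈ L, H (f e.1) (f e.2.1) (f e.2.2)) → False)
    (hL : ∀ e ∈ L, e.1 ≠ e.2.1 ∧ e.1 ≠ e.2.2 ∧ e.2.1 ≠ e.2.2)
    (hT : ∀ f ∈ A, ∀ e ∈ L, tb (c (f e.1)) (c (f e.2.1)) (c (f e.2.2)) = true) {B : ℝ}
    (hD : ∀ e ∈ L, ((A.filter fun f => Df c H (f e.1) (f e.2.1) (f e.2.2)).card : ℝ) ≤ B)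
    (hE : ∀ i j : Fin 6, i < j → ((A.filter fun f => f i = f j).card : ℝ) ≤ B) :
    (A.card : ℝ) ≤ (L.length + 15) * B := by
  have hB : 0 ≤ B := le_trans (Nat.cast_nonneg _) (hE 0 1 (by decide))
  have hsub : A ⊆ (L.toFinset.biUnion fun e => A.filter fun f => Df c H (f e.1) (f e.2.1) (f e.2.2)) ∪
      ((univ : Finset (Fin 6 × Fin 6)).filter fun p => p.1 < p.2).biUnion fun p =>
        A.filter fun f => f p.1 = f p.2 := by
    intro f hf
    rw [mem_union, mem_biUnion, mem_biUnion]
    by_contra hcon
    push Not at hcon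
    obtain ⟨h1, h2⟩ := hcon
    have hinj : Function.Injective f := by
      intro i j hij
      by_contra hne
      rcases lt_or_gt_of_ne hne with h | h
      · exact h2 (i, j) (mem_filter.2 ⟨mem_univ _, h⟩) (mem_filter.2 ⟨hf, hij⟩)
      · exact h2 (j, i) (mem_filter.2 ⟨mem_univ _, h⟩) (mem_filter.2 ⟨hf, hij.symm⟩)
    refine hno f hf hinj fun e he => ?_
    have h3 : ¬ Df c H (f e.1) (f e.2.1) (f e.2.2) := fun h =>
      h1 e (List.mem_toFinset.2 he) (mem_filter.2 ⟨hf, h⟩)
    obtain ⟨a, b, d⟩ := hL e he
    refine not_df_pos h3 ⟨fun h => a (hinj h), fun h => d (hinj h), fun h => b (hinj h), ?_⟩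
    exact hT f hf e he
  have h1 := card_le_card hsub
  have h2 : (A.card : ℝ) ≤ ((L.toFinset.biUnion fun e =>
      A.filter fun f => Df c H (f e.1) (f e.2.1) (f e.2.2)).card : ℝ) +
      ((((univ : Finset (Fin 6 × Fin 6)).filter fun p => p.1 < p.2).biUnion fun p =>
        A.filter fun f => f p.1 = f p.2).card : ℝ) := by
    exact_mod_cast h1.trans (card_union_le _ _)
  have h3 : ((L.toFinset.biUnion fun e =>
      A.filter fun f => Df c H (f e.1) (f e.2.1) (f e.2.2)).card : ℝ) ≤ L.length * B := by
    have e1 : ((L.toFinset.biUnion fun e =>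
        A.filter fun f => Df c H (f e.1) (f e.2.1) (f e.2.2)).card : ℝ) ≤
        ∑ e ∈ L.toFinset, ((A.filter fun f => Df c H (f e.1) (f e.2.1) (f e.2.2)).card : ℝ) := by
      exact_mod_cast card_biUnion_le
    refine e1.trans ((sum_le_sum fun e he => hD e (List.mem_toFinset.1 he)).trans ?_)
    rw [sum_const, nsmul_eq_mul]
    exact mul_le_mul_of_nonneg_right (by exact_mod_cast List.toFinset_card_le L) hB
  have h4 : ((((univ : Finset (Fin 6 × Fin 6)).filter fun p => p.1 < p.2).biUnion fun p =>
        A.filter fun f => f p.1 = f p.2).card : ℝ) ≤ 15 * B := by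
    have e1 : ((((univ : Finset (Fin 6 × Fin 6)).filter fun p => p.1 < p.2).biUnion fun p =>
        A.filter fun f => f p.1 = f p.2).card : ℝ) ≤
        ∑ p ∈ (univ : Finset (Fin 6 × Fin 6)).filter (fun p => p.1 < p.2),
          ((A.filter fun f => f p.1 = f p.2).card : ℝ) := by
      exact_mod_cast card_biUnion_le
    refine e1.trans ((sum_le_sum fun p hp => hE p.1 p.2 (mem_filter.1 hp).2).trans ?_)
    have e2 : ((univ : Finset (Fin 6 × Fin 6)).filter (fun p => p.1 < p.2)).card = 15 := by
      decide
    rw [sum_const, nsmul_eq_mul, e2]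
    norm_num
  calc (A.card : ℝ) ≤ L.length * B + 15 * B := by linarith
    _ = _ := by ring

/-- the number of differences, as a cardinality -/
theorem WD_card : WD c H =
    ((univ.filter fun p : V × V × V => Df c H p.1 p.2.1 p.2.2).card : ℝ) := by
  rw [← ind_sum_card]
  unfold WD
  simp only [Fintype.sum_prod_type]

theorem wr_card (v : V) : wr c H v =
    ((univ.filter fun p : V × V => Df c H v p.1 p.2).card : ℝ) := by
  rw [← ind_sum_card]
  unfold wr
  simp only [Fintype.sum_prod_type]
  rfl

/-- differences on a triple of free places -/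
theorem bad0 (hn : ∑ _x : V, (1 : ℝ) = n) (A : Finset (Fin 6 → V)) (T : Finset (Fin 6))
    (ρ : Fin 6 → V) (hA : ∀ f ∈ A, ∀ i ∈ T, f i = ρ i) {a b d : Fin 6}
    (ha : a ∉ T) (hb : b ∉ T) (hd : d ∉ T) (hab : a ≠ b) (had : a ≠ d) (hbd : b ≠ d) {m : ℕ}
    (hm : T.card + 3 + m = 6) :
    ((A.filter fun f => Df c H (f a) (f b) (f d)).card : ℝ) ≤ WD c H * n ^ m := by
  have h := cnt (A.filter fun f => Df c H (f a) (f b) (f d))
    (univ.filter fun p : V × V × V => Df c H p.1 p.2.1 p.2.2) (fun f => (f a, f b, f d))
    (univ \ (T ∪ {a, b, d})) (fun f hf => mem_filter.2 ⟨mem_univ _, (mem_filter.1 hf).2⟩)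
    (by
      intro f hf f' hf' h1 h2
      obtain ⟨e1, e2⟩ := Prod.mk.inj h1
      obtain ⟨e2, e3⟩ := Prod.mk.inj e2
      funext i
      by_cases hi : i ∈ T
      · rw [hA f (mem_filter.1 hf).1 i hi, hA f' (mem_filter.1 hf').1 i hi]
      by_cases hia : i = a
      · rw [hia, e1]
      by_cases hib : i = b
      · rw [hib, e2]
      by_cases hid : i = d
      · rw [hid, e3]
      exact h2 i (by simp [hi, hia, hib, hid]))
  have hc : (univ \ (T ∪ {a, b, d}) : Finset (Fin 6)).card = m := by
    have e1 : (T ∪ {a, b, d} : Finset (Fin 6)).card = T.card + 3 := by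
      rw [card_union_of_disjoint]
      · congr 1
        exact card_eq_three.2 ⟨a, b, d, hab, had, hbd, rfl⟩
      · rw [disjoint_left]
        intro x hx hx'
        simp only [mem_insert, mem_singleton] at hx'
        rcases hx' with rfl | rfl | rfl
        exacts [ha hx, hb hx, hd hx]
    have e2 := card_sdiff_add_card_eq_card (subset_univ (T ∪ {a, b, d} : Finset (Fin 6)))
    rw [card_univ, Fintype.card_fin] at e2
    omega
  rw [hc] at h
  rw [WD_card]
  calc ((A.filter fun f => Df c H (f a) (f b) (f d)).card : ℝ) ≤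
      (((univ.filter fun p : V × V × V => Df c H p.1 p.2.1 p.2.2).card *
        Fintype.card V ^ m : ℕ) : ℝ) := by exact_mod_cast h
    _ = _ := by push_cast; rw [card_n hn]

/-- differences on a triple with one root -/
theorem bad1 (hn : ∑ _x : V, (1 : ℝ) = n) (A : Finset (Fin 6 → V)) (T : Finset (Fin 6))
    (ρ : Fin 6 → V) (hA : ∀ f ∈ A, ∀ i ∈ T, f i = ρ i) {a b d : Fin 6}
    (ha : a ∈ T) (hb : b ∉ T) (hd : d ∉ T) (hbd : b ≠ d) {m : ℕ}
    (hm : T.card + 2 + m = 6) :
    ((A.filter fun f => Df c H (f a) (f b) (f d)).card : ℝ) ≤ wr c H (ρ a) * n ^ m := by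
  have h := cnt (A.filter fun f => Df c H (f a) (f b) (f d))
    (univ.filter fun p : V × V => Df c H (ρ a) p.1 p.2) (fun f => (f b, f d))
    (univ \ (T ∪ {b, d})) (fun f hf => by
      have h1 := (mem_filter.1 hf).2
      rw [hA f (mem_filter.1 hf).1 a ha] at h1
      exact mem_filter.2 ⟨mem_univ _, h1⟩)
    (by
      intro f hf f' hf' h1 h2
      obtain ⟨e2, e3⟩ := Prod.mk.inj h1
      funext i
      by_cases hi : i ∈ T
      · rw [hA f (mem_filter.1 hf).1 i hi, hA f' (mem_filter.1 hf').1 i hi]
      by_cases hib : i = b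
      · rw [hib, e2]
      by_cases hid : i = d
      · rw [hid, e3]
      exact h2 i (by simp [hi, hib, hid]))
  have hc : (univ \ (T ∪ {b, d}) : Finset (Fin 6)).card = m := by
    have e1 : (T ∪ {b, d} : Finset (Fin 6)).card = T.card + 2 := by
      rw [card_union_of_disjoint]
      · congr 1
        exact card_pair hbd
      · rw [disjoint_left]
        intro x hx hx'
        simp only [mem_insert, mem_singleton] at hx'
        rcases hx' with rfl | rfl
        exacts [hb hx, hd hx]
    have e2 := card_sdiff_add_card_eq_card (subset_univ (T ∪ {b, d} : Finset (Fin 6)))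
    rw [card_univ, Fintype.card_fin] at e2
    omega
  rw [hc] at h
  rw [wr_card]
  calc ((A.filter fun f => Df c H (f a) (f b) (f d)).card : ℝ) ≤
      (((univ.filter fun p : V × V => Df c H (ρ a) p.1 p.2).card *
        Fintype.card V ^ m : ℕ) : ℝ) := by exact_mod_cast h
    _ = _ := by push_cast; rw [card_n hn]

/-- coincidences -/
theorem badE (hn : ∑ _x : V, (1 : ℝ) = n) (A : Finset (Fin 6 → V)) (T : Finset (Fin 6))
    (ρ : Fin 6 → V) (hA : ∀ f ∈ A, ∀ i ∈ T, f i = ρ i)
    (hρ : ∀ i ∈ T, ∀ j ∈ T, i ≠ j → ρ i ≠ ρ j) {i j : Fin 6} (hij : i ≠ j) {m : ℕ}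
    (hm : T.card + 1 + m = 6) : ((A.filter fun f => f i = f j).card : ℝ) ≤ n ^ m := by
  have hn0 := n_nonneg hn
  by_cases hi : i ∈ T
  · by_cases hj : j ∈ T
    · have : A.filter (fun f => f i = f j) = ∅ := by
        rw [filter_eq_empty_iff]
        intro f hf h
        rw [hA f hf i hi, hA f hf j hj] at h
        exact hρ i hi j hj hij h
      rw [this, card_empty]
      push_cast
      positivity
    · -- `j` is determined
      have h := cnt (A.filter fun f => f i = f j) {()} (fun f => ()) (univ \ (T ∪ {j}))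
        (fun f hf => by simp) (by
          intro f hf f' hf' _ h2
          funext l
          by_cases hl : l ∈ T
          · rw [hA f (mem_filter.1 hf).1 l hl, hA f' (mem_filter.1 hf').1 l hl]
          by_cases hlj : l = j
          · rw [hlj, ← (mem_filter.1 hf).2, ← (mem_filter.1 hf').2,
              hA f (mem_filter.1 hf).1 i hi, hA f' (mem_filter.1 hf').1 i hi]
          exact h2 l (by simp [hl, hlj]))
      have hc : (univ \ (T ∪ {j}) : Finset (Fin 6)).card = m := by
        have e1 : (T ∪ {j} : Finset (Fin 6)).card = T.card + 1 := by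
          rw [card_union_of_disjoint (by simpa using hj), card_singleton]
        have e2 := card_sdiff_add_card_eq_card (subset_univ (T ∪ {j} : Finset (Fin 6)))
        rw [card_univ, Fintype.card_fin] at e2
        omega
      rw [hc, card_singleton, one_mul] at h
      calc ((A.filter fun f => f i = f j).card : ℝ) ≤ ((Fintype.card V ^ m : ℕ) : ℝ) := by
            exact_mod_cast h
        _ = _ := by push_cast; rw [card_n hn]
  · have h := cnt (A.filter fun f => f i = f j) {()} (fun f => ()) (univ \ (T ∪ {i}))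
      (fun f hf => by simp) (by
        intro f hf f' hf' _ h2
        have key : f j = f' j := by
          by_cases hj : j ∈ T
          · rw [hA f (mem_filter.1 hf).1 j hj, hA f' (mem_filter.1 hf').1 j hj]
          · exact h2 j (by simp [hj, hij.symm])
        funext l
        by_cases hl : l ∈ T
        · rw [hA f (mem_filter.1 hf).1 l hl, hA f' (mem_filter.1 hf').1 l hl]
        by_cases hli : l = i
        · rw [hli, (mem_filter.1 hf).2, (mem_filter.1 hf').2, key]
        exact h2 l (by simp [hl, hli]))
    have hc : (univ \ (T ∪ {i}) : Finset (Fin 6)).card = m := by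
      have e1 : (T ∪ {i} : Finset (Fin 6)).card = T.card + 1 := by
        rw [card_union_of_disjoint (by simpa using hi), card_singleton]
      have e2 := card_sdiff_add_card_eq_card (subset_univ (T ∪ {i} : Finset (Fin 6)))
      rw [card_univ, Fintype.card_fin] at e2
      omega
    rw [hc, card_singleton, one_mul] at h
    calc ((A.filter fun f => f i = f j).card : ℝ) ≤ ((Fintype.card V ^ m : ℕ) : ℝ) := by
          exact_mod_cast h
      _ = _ := by push_cast; rw [card_n hn]

end

end Pool.Agent.R105.TP
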