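import Pool.Agent.Y47.BU.GCnt

/-!
# Stability for `K_4^3`-free 3-graphs without a 3-graph that maps to the members of a list

If a 3-graph `F` has homomorphisms into all the members of one of the lists `fam i` of six-vertex
3-graphs, then `K_4^3`-free and `F`-free 3-graphs satisfy Turán's bound and stability: a member of
the list which has positive density has large blow-ups, which contain `F`.
-/

set_option autoImplicit false
set_option maxRecDepth 100000
set_option maxHeartbeats 4000000
open Finset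
open scoped Classical

namespace Pool.Agent.R105.TP
open Pool.Agent.H122R2.N6 Pool.Agent.H37R3.Pen Pool.Agent.H37R3.Cop Pool.Agent.H37R3.CopL
open Pool.Agent.TH773 Pool.Agent.TH773.ST
open Pool.Agent.TH773.CL (tx)
open Pool.Agent.TH773.CM (CpK u3 s3)
open Pool.Agent.Y47.BU

/-- `H` contains the 3-graph `F` (as a not necessarily induced subgraph). -/
def Contains {k n : ℕ} (F : Finset (Finset (Fin k))) (H : Finset (Finset (Fin n))) : Prop :=
  ∃ f : Fin k → Fin n, Function.Injective f ∧ ∀ e ∈ F, e.image f ∈ H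

/-- there is a homomorphism from `F` to `X` -/
def HomTo {k : ℕ} (F : Finset (Finset (Fin k))) (X : Finset (Finset (Fin 6))) : Prop :=
  ∃ φ : Fin k → Fin 6, ∀ e ∈ F, e.image φ ∈ X

/-- three different indices in order -/
theorem sort3 {P : Fin 6 → Fin 6 → Fin 6 → Prop} (h1 : ∀ i j l, P i j l → P j i l)
    (h2 : ∀ i j l, P i j l → P i l j) (h : ∀ i j l, i < j → j < l → P i j l)
    {i j l : Fin 6} (hij : i ≠ j) (hil : i ≠ l) (hjl : j ≠ l) : P i j l := by
  rcases lt_or_gt_of_ne hij with a | a <;> rcases lt_or_gt_of_ne hil with b | b <;>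
    rcases lt_or_gt_of_ne hjl with c | c
  · exact h i j l a c
  · exact h2 _ _ _ (h i l j b c)
  · exact absurd (a.trans c) (not_lt.mpr b.le)
  · exact h2 _ _ _ (h1 _ _ _ (h l i j b a))
  · exact h1 _ _ _ (h j i l a b)
  · exact absurd (a.trans b) (not_lt.mpr c.le)
  · exact h1 _ _ _ (h2 _ _ _ (h j l i c b))
  · exact h1 _ _ _ (h2 _ _ _ (h1 _ _ _ (h l j i c a)))

theorem mask_full {m : ℕ} {X : Finset (Finset (Fin 6))} (hM : Mask m X) {i j l : Fin 6}
    (hij : i ≠ j) (hil : i ≠ l) (hjl : j ≠ l) :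
    u3 m (s3 i j l) = 1 ↔ ({i, j, l} : Finset (Fin 6)) ∈ X := by
  refine sort3 (P := fun i j l => u3 m (s3 i j l) = 1 ↔ ({i, j, l} : Finset (Fin 6)) ∈ X)
    ?_ ?_ ?_ hij hil hjl
  · intro i j l h
    rw [Pool.Agent.TH773.CM.s3_213, h, Finset.insert_comm]
  · intro i j l h
    rw [Pool.Agent.TH773.CM.s3_132, h, Finset.pair_comm]
  · intro i j l h1 h2
    rw [Pool.Agent.TH773.CM.s3_sorted h1 h2, ← hM.1 i j l h1 h2]
    unfold u3
    rw [Pool.Agent.TH773.CL.ti_tx i j l h1 h2]

/-- the labelled copies of `F` -/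
def SF {k : ℕ} (F : Finset (Finset (Fin k))) (V : Type) (E : V → V → V → ℕ) (w : Fin k → V) :
    Prop :=
  ∀ a b d : Fin k, a ≠ b → a ≠ d → b ≠ d → ({a, b, d} : Finset (Fin k)) ∈ F →
    E (w a) (w b) (w d) = 1

theorem ramG_hom {k m : ℕ} {F : Finset (Finset (Fin k))} {X : Finset (Finset (Fin 6))}
    (hM : Mask m X) (hX : ∀ e ∈ X, e.card = 3) (hF : HomTo F X) :
    RamG (A := Fin k) (SF F) m := by
  obtain ⟨φ, hφ⟩ := hF
  refine ⟨k + 1, Nat.succ_pos k, ?_, ?_⟩
  · rw [Fintype.card_fin]; omega
  intro V E hE _ y _ hm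
  refine ⟨fun a => (φ a, a.castSucc), ?_, ?_⟩
  · intro a b h
    exact Fin.castSucc_injective _ (Prod.mk.inj h).2
  · intro a b d hab had hbd he
    have h1 := hφ _ he
    have h2 := hX _ h1
    have himg : (({a, b, d} : Finset (Fin k)).image φ) = {φ a, φ b, φ d} := by
      ext x
      simp only [mem_image, mem_insert, mem_singleton]
      constructor
      · rintro ⟨z, rfl | rfl | rfl, rfl⟩ <;> simp
      · rintro (rfl | rfl | rfl)
        exacts [⟨a, by simp, rfl⟩, ⟨b, by simp, rfl⟩, ⟨d, by simp, rfl⟩]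
    rw [himg] at h1 h2
    have n1 : φ a ≠ φ b := by
      intro h
      rw [h] at h2
      have : ({φ b, φ b, φ d} : Finset (Fin 6)).card ≤ 2 := by
        rw [insert_eq_of_mem (mem_insert_self _ _)]
        exact card_le_two
      omega
    have n2 : φ a ≠ φ d := by
      intro h
      rw [h] at h2
      have : ({φ d, φ b, φ d} : Finset (Fin 6)).card ≤ 2 := by
        rw [insert_eq_of_mem (by simp)]
        exact card_le_two
      omega
    have n3 : φ b ≠ φ d := by
      intro h
      rw [h] at h2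
      have : ({φ a, φ d, φ d} : Finset (Fin 6)).card ≤ 2 := by
        rw [pair_eq_singleton]
        exact card_le_two
      omega
    have h3 := (hm fun i => if i = φ a then a.castSucc else if i = φ b then b.castSucc
      else d.castSucc).full hE (φ a) (φ b) (φ d) n1 n2 n3
    simp only [if_true, if_neg n1.symm, if_neg n2.symm, if_neg n3.symm] at h3
    rw [h3, mask_full hM n1 n2 n3]
    exact h1

theorem fam_card (i : Fin 5) : ∀ X ∈ Turan34.fam i, ∀ e ∈ X, e.card = 3 := by
  fin_cases i <;>
    (intro X hX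
     simp only [Turan34.fam, List.mem_cons, List.not_mem_nil, or_false] at hX
     rcases hX with rfl | rfl | rfl | rfl | rfl) <;> decide

end Pool.Agent.R105.TP
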