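import Pool.Agent.R105.TP.LinkN
import Pool.Agent.R105.TP.Del2
import Pool.Agent.R105.TP.Hom


/-! The exact Turán numbers. -/

set_option autoImplicit false
set_option linter.unusedVariables false
set_option linter.unusedSectionVars false
set_option maxRecDepth 100000

open Finset
open scoped Classical

namespace Pool.Agent.R105.TP
open Pool.Agent.Y439.Loc hiding sum_nonneg'
open Pool.Agent.Y903.TX
open Pool.Agent.TH773
open Pool.Agent.Y439

/-- triples of vertices -/
abbrev Ed : Type := Fin 6 × Fin 6 × Fin 6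

/-- the same set in another order -/
def Pm (e t : Ed) : Prop :=
  t = e ∨ t = (e.1, e.2.2, e.2.1) ∨ t = (e.2.1, e.1, e.2.2) ∨ t = (e.2.1, e.2.2, e.1) ∨
    t = (e.2.2, e.1, e.2.1) ∨ t = (e.2.2, e.2.1, e.1)

instance (e t : Ed) : Decidable (Pm e t) := by unfold Pm; infer_instance

section
variable {V : Type} [Fintype V] {c : V → Fin 3} {H : V → V → V → Prop} {n ε : ℝ} {Es : List Ed}

/-- the relation contains no copy of the 3-graph with the edges `Es` -/
def FreeR (Es : List Ed) (H : V → V → V → Prop) : Prop :=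
  ∀ f : Fin 6 → V, Function.Injective f → (∀ e ∈ Es, H (f e.1) (f e.2.1) (f e.2.2)) → False

theorem perm_H (S : Sys c H) {f : Fin 6 → V} {e t : Ed} (h : Pm e t)
    (ht : H (f t.1) (f t.2.1) (f t.2.2)) : H (f e.1) (f e.2.1) (f e.2.2) := by
  rcases h with rfl | rfl | rfl | rfl | rfl | rfl
  · exact ht
  · exact S.s2 _ _ _ ht
  · exact S.s1 _ _ _ ht
  · exact S.s1 _ _ _ (S.s2 _ _ _ ht)
  · exact S.s2 _ _ _ (S.s1 _ _ _ ht)
  · exact S.s1 _ _ _ (S.s2 _ _ _ (S.s1 _ _ _ ht))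

/-- typical edges: of the type of Turán's construction -/
def Typ (g : Fin 6 → Fin 3) (L : List Ed) : Prop :=
  ∀ e ∈ L, (e.1 ≠ e.2.1 ∧ e.1 ≠ e.2.2 ∧ e.2.1 ≠ e.2.2) ∧ tb (g e.1) (g e.2.1) (g e.2.2) = true

/-- the data of the star lemma -/
def StarOK (Es : List Ed) (δ : Fin 3) (p q s : Fin 6) (g : Fin 6 → Fin 3) (L : List Ed) : Prop :=
  (p ≠ q ∧ p ≠ s ∧ q ≠ s) ∧ g q = g p + δ ∧ g s = g q ∧ L.length ≤ 10 ∧ Typ g L ∧
    (∀ e ∈ L, e.2.1 ≠ p ∧ e.2.1 ≠ q ∧ e.2.2 ≠ p ∧ e.2.2 ≠ q) ∧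
    ∀ e ∈ Es, ∃ t ∈ (p, q, s) :: L, Pm e t

/-- the data of the first condition on links -/
def LinkOK1 (Es : List Ed) (u a b d : Fin 6) (g : Fin 6 → Fin 3) (L : List Ed) : Prop :=
  (u ≠ a ∧ u ≠ b ∧ u ≠ d ∧ a ≠ b ∧ a ≠ d ∧ b ≠ d) ∧ g b = g a ∧ g d = g a + 1 ∧ L.length ≤ 10 ∧
    Typ g L ∧ (∀ e ∈ L, e.1 ≠ u ∧ e.2.1 ≠ u ∧ e.2.2 ≠ u) ∧
    ∀ e ∈ Es, ∃ t ∈ (u, b, a) :: (u, d, a) :: L, Pm e t

/-- the data of the second condition on links -/
def LinkOK2 (Es : List Ed) (u a b d e : Fin 6) (g : Fin 6 → Fin 3) (L : List Ed) : Prop :=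
  [u, a, b, d, e].Nodup ∧ g b = g a ∧ g d = g a + 1 ∧ g e = g d ∧ L.length ≤ 10 ∧
    Typ g L ∧ (∀ e ∈ L, e.1 ≠ u ∧ e.2.1 ≠ u ∧ e.2.2 ≠ u) ∧
    ∀ t' ∈ Es, ∃ t ∈ (u, b, a) :: (u, e, d) :: L, Pm t' t

theorem tb_rot : ∀ a b d k : Fin 3, tb (a + k) (b + k) (d + k) = tb a b d := by decide

theorem rot3 : ∀ a b δ : Fin 3, b + δ + (a - b) = a + δ ∧ b + (a - b) = a := by decide

theorem Typ.rot {g : Fin 6 → Fin 3} {L : List Ed} (h : Typ g L) (k : Fin 3) :
    Typ (fun i => g i + k) L := fun e he => ⟨(h e he).1, by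
  rw [tb_rot]
  exact (h e he).2⟩

theorem cover {S : Sys c H} (hF : FreeR Es H) {L : List Ed}
    (h : ∀ e ∈ Es, ∃ t ∈ L, Pm e t) (f : Fin 6 → V) (hf : Function.Injective f)
    (hL : ∀ t ∈ L, H (f t.1) (f t.2.1) (f t.2.2)) : False :=
  hF f hf fun e he => by
    obtain ⟨t, ht, hp⟩ := h e he
    exact perm_H S hp (hL t ht)

theorem star_use (A : Vx c H n sig0) (hF : FreeR Es H) {δ : Fin 3} {p q s : Fin 6}
    {g : Fin 6 → Fin 3} {L : List Ed} (h : StarOK Es δ p q s g L) {x y : V} (hxy : x ≠ y)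
    (hc : c y = c x + δ) : ∑ z, ind (c z = c y ∧ H x y z) ≤ n / 3000 := by
  obtain ⟨⟨n1, n2, n3⟩, h1, h2, h3, h4, h5, h6⟩ := h
  have hp := A.pos
  have hr := rot3 (c x) (g p) δ
  have hs : sig0 ≤ 1 / 100 := by unfold sig0; norm_num
  have key := star_le A hs hxy n1 n2 n3 (fun i => g i + (c x - g p)) hr.2.symm
    (by rw [h1, hr.1, hc]) L h3 (fun e he => ⟨(h4.rot (c x - g p) e he).1, h5 e he,
      (h4.rot (c x - g p) e he).2⟩) (fun f hf hs hL => by
        refine cover (S := A.S) hF h6 f hf fun t ht => ?_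
        rcases List.mem_cons.1 ht with rfl | ht
        · exact hs
        · exact hL t ht)
  have e1 : g s + (c x - g p) = c y := by rw [h2, h1, hr.1, hc]
  simp only [e1] at key
  have h7 : 25 * (sig0 ^ 2 * n ^ 4) ≤ n / 3000 * (n / 4) ^ 3 := by
    have : 25 * sig0 ^ 2 ≤ 1 / 3000 * (1 / 4) ^ 3 := by unfold sig0; norm_num
    calc 25 * (sig0 ^ 2 * n ^ 4) = 25 * sig0 ^ 2 * n ^ 4 := by ring
      _ ≤ 1 / 3000 * (1 / 4) ^ 3 * n ^ 4 := mul_le_mul_of_nonneg_right this (by positivity)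
      _ = n / 3000 * (n / 4) ^ 3 := by ring
  exact le_of_mul_le_mul_right (key.trans h7) (by positivity)

theorem link_use1 (A : Near c H n eps0) (h1n : 1 ≤ eps0 * n) (hF : FreeR Es H)
    {u a b d : Fin 6} {g : Fin 6 → Fin 3} {L : List Ed} (h : LinkOK1 Es u a b d g L) (v : V)
    (hdeg : (5 / 9 - eps0) * n ^ 2 ≤ deg H v) :
    ∃ k, wr (Function.update c v k) H v ≤ 180 * tau0 * n ^ 2 := by
  obtain ⟨⟨n1, n2, n3, n4, n5, n6⟩, h1, h2, h3, h4, h5, h6⟩ := h
  have hp := A.pos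
  refine link_c1 A tau0_pos (by unfold tau0; norm_num) ?_ v hdeg fun k => ?_
  · have := eps_tau
    have h7 : tau0 ^ 24 ≤ tau0 := by
      calc tau0 ^ 24 ≤ tau0 ^ 1 :=
            pow_le_pow_of_le_one tau0_pos.le (by unfold tau0; norm_num) (by norm_num)
        _ = tau0 := pow_one _
    have h8 := eps0_pos
    nlinarith
  · have hr := rot3 k (g a) 1
    have hr' : g a + (k - g a) = k := hr.2
    have key := link_star A (eps_small.trans (by norm_num)) h1n v n1 n2 n3 n4 n5 n6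
      (fun i => g i + (k - g a)) L h3 (fun e he => ⟨(h4.rot (k - g a) e he).1, h5 e he,
        (h4.rot (k - g a) e he).2⟩) (fun f hf s1 s2 hL => by
          refine cover (S := A.S) hF h6 f hf fun t ht => ?_
          rcases List.mem_cons.1 ht with rfl | ht
          · exact s1
          rcases List.mem_cons.1 ht with rfl | ht
          · exact s2
          · exact hL t ht)
    simp only [h1, h2, hr', hr.1] at key
    have key' : CC c H v k * (n / 4) ^ 2 ≤ 25 * (eps0 * n ^ 5) := key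
    refine le_of_mul_le_mul_right (key'.trans (le_of_eq ?_)) (show (0 : ℝ) < (n / 4) ^ 2 by positivity)
    ring

theorem link_use2 (A : Near c H n eps0) (h1n : 1 ≤ eps0 * n) (hF : FreeR Es H)
    {u a b d e : Fin 6} {g : Fin 6 → Fin 3} {L : List Ed} (h : LinkOK2 Es u a b d e g L) (v : V)
    (hdeg : (5 / 9 - eps0) * n ^ 2 ≤ deg H v) :
    ∃ k, wr (Function.update c v k) H v ≤ 180 * tau0 * n ^ 2 := by
  obtain ⟨n1, h1, h2, h2', h3, h4, h5, h6⟩ := h
  have hp := A.pos
  refine link_c2 A tau0_pos (by unfold tau0; norm_num) ?_ v hdeg fun k => ?_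
  · have := eps_tau
    have h8 := eps0_pos
    nlinarith
  · have hr := rot3 k (g a) 1
    have hr' : g a + (k - g a) = k := hr.2
    have key := link_two A (eps_small.trans (by norm_num)) h1n v n1
      (fun i => g i + (k - g a)) L h3 (fun e he => ⟨(h4.rot (k - g a) e he).1, h5 e he,
        (h4.rot (k - g a) e he).2⟩) (fun f hf s1 s2 hL => by
          refine cover (S := A.S) hF h6 f hf fun t ht => ?_
          rcases List.mem_cons.1 ht with rfl | ht
          · exact s1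
          rcases List.mem_cons.1 ht with rfl | ht
          · exact s2
          · exact hL t ht)
    simp only [h1, h2', h2, hr', hr.1] at key
    refine le_of_mul_le_mul_right (key.trans (le_of_eq ?_)) (show (0 : ℝ) < n / 4 by positivity)
    ring

/-- the conditions on the 3-graph -/
structure Data (Es : List Ed) : Prop where
  inner : ∃ p q s g L, StarOK Es 0 p q s g L
  cross : ∃ p q s g L, StarOK Es 1 p q s g L
  link : (∃ u a b d g L, LinkOK1 Es u a b d g L) ∨ ∃ u a b d e g L, LinkOK2 Es u a b d e g L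

theorem link_use (D : Data Es) (A : Near c H n eps0) (h1n : 1 ≤ eps0 * n) (hF : FreeR Es H)
    (v : V) (hdeg : (5 / 9 - eps0) * n ^ 2 ≤ deg H v) :
    ∃ k, wr (Function.update c v k) H v ≤ 180 * tau0 * n ^ 2 := by
  rcases D.link with ⟨u, a, b, d, g', L, h⟩ | ⟨u, a, b, d, e, g', L, h⟩
  · exact link_use1 A h1n hF h v hdeg
  · exact link_use2 A h1n hF h v hdeg

/-- no reversed arcs -/
theorem unique_F (A : Vx c H n sig0) (hF : FreeR Es H) {p q s : Fin 6} {g : Fin 6 → Fin 3}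
    {L : List Ed} (h : StarOK Es 1 p q s g L) {rev : V → V → Bool}
    (hR : ∀ x y z, H x y z ↔ FD c rev x y z) (x y z : V) : H x y z ↔ Tu c x y z := by
  have hp := A.pos
  have h2 : ∀ x y : V, c y = c x + 1 → rev x y = false := by
    intro x y hxy
    by_contra hr
    have hr' : rev x y = true := by simpa using hr
    have hne : x ≠ y := fun e => fin3_ne1 (c x) (by rw [← hxy, e])
    have h3 := star_use A hF h hne hxy
    have h4 : sz c (c y) ≤ ∑ z, (ind (c z = c y ∧ H x y z) + ind (z = y)) := by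
      refine sum_le_sum fun z _ => ind_or fun hz => ?_
      by_cases hzy : z = y
      · right; exact hzy
      · left
        refine ⟨hz, ?_⟩
        have hxz : x ≠ z := fun e => fin3_ne1 (c x) (by rw [← hxy, ← hz, e])
        rw [hR]
        refine ⟨hne, fun e => hzy e.symm, hxz, ?_⟩
        rw [hz, hxy, hr']
        exact fd_rev2 _ _ _ _ _ _
    rw [sum_add_distrib, sum_ind_eq] at h4
    have h5 := size_prev A (by unfold sig0; norm_num) (c y)
    have h6 := A.big
    have hs1 : sig0 ^ 2 ≤ 1 / 100000 := by unfold sig0; norm_num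
    have h7 : 1 ≤ 1 / 100000 * n := h6.trans (mul_le_mul_of_nonneg_right hs1 hp.le)
    linarith
  rw [hR]
  unfold Tu FD
  have key : ∀ (a b d : Fin 3) (r1 r2 r3 r4 r5 r6 : Bool),
      (b = a + 1 → r1 = false) → (a = b + 1 → r2 = false) → (d = a + 1 → r3 = false) →
      (a = d + 1 → r4 = false) → (d = b + 1 → r5 = false) → (b = d + 1 → r6 = false) →
      fdB a b d r1 r2 r3 r4 r5 r6 = fdB a b d false false false false false false := by
    decide +kernel
  rw [key _ _ _ _ _ _ _ _ _ (h2 x y) (h2 y x) (h2 x z) (h2 z x) (h2 y z) (h2 z y)]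

end

/-- the bound for large minimum degree -/
theorem mid_F {Es : List Ed} (D : Data Es) {n : ℕ} {H : Finset (Finset (Fin n))} {δ : ℝ}
    (hH : ∀ e ∈ H, e.card = 3) (hK : Turan34.K43Free H) (hF : FreeR Es (Loc.Rel H))
    (g : Fin n → Fin 3) (hn : 1 ≤ eps0 * n) (hδ0 : 0 < δ) (hδ : δ ≤ eps0 / 6)
    (h1 : ((symmDiff H (Turan34.turan g)).card : ℝ) ≤ δ ^ 2 * (n : ℝ) ^ 3)
    (h2 : (5 / 54 - δ ^ 2) * (n : ℝ) ^ 3 ≤ (H.card : ℝ))
    (hdeg : ∀ v, (5 / 18 - eps0 / 2) * (n : ℝ) ^ 2 ≤ ((H.filter fun e => v ∈ e).card : ℝ)) :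
    H.card ≤ tnum n ∧ (H.card = tnum n → TurG n H) := by
  have hnpos : 0 < n := by
    rcases Nat.eq_zero_or_pos n with h | h
    · rw [h] at hn; norm_num at hn
    · exact h
  have A := near_of hH hK g hnpos hδ0 hδ h1 h2
  have he := eps_small
  have hd : ∀ v, (5 / 9 - eps0) * (n : ℝ) ^ 2 ≤ deg (Loc.Rel H) v := by
    intro v
    rw [deg_card hH v]; linarith [hdeg v]
  obtain ⟨c, B⟩ := exists_vx A (he.trans (by norm_num)) hn sig0_pos (by unfold sig0; norm_num)
    (τ := tau0) (by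
      unfold tau0 sig0
      norm_num at he ⊢
      linarith) tau0_pos (fun v => link_use D A hn hF v (hd v))
  obtain ⟨p, q, s, g1, L1, hin⟩ := D.inner
  obtain ⟨p', q', s', g2, L2, hcr⟩ := D.cross
  have h := near_apply B (n / 3) (n % 3) (n_div n) (by omega) (fun x y => by
    by_cases hxy : x = y
    · rw [← hxy, io_self B.S]; positivity
    by_cases hc : c y = c x
    · have h3 := star_use B hF hin hxy (by rw [hc, add_zero])
      refine le_trans ?_ h3
      unfold io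
      exact sum_le_sum fun z _ => ind_mono fun h => ⟨by rw [hc]; exact h.1.2, h.2⟩
    · have : io c (Loc.Rel H) x y = 0 := sum_eq_zero fun z _ => ind_f fun h => hc h.1.1
      rw [this]; positivity)
  rw [total_count H hH, ← tnum_TT n] at h
  refine ⟨?_, fun heq => ?_⟩
  · have h1 : (H.card : ℝ) ≤ (tnum n : ℝ) := by linarith [h.1]
    exact_mod_cast h1
  · have h1 : 6 * (H.card : ℝ) = 6 * (tnum n : ℝ) := by rw [heq]
    obtain ⟨rev, hrel⟩ := h.2 h1
    have hT := unique_F B hF hcr hrel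
    refine ⟨c, ?_⟩
    ext e
    constructor
    · intro he
      obtain ⟨x, y, z, n1, n2, n3, rfl⟩ := card_eq_three.1 (hH e he)
      exact ((rel_tgraph c x y z).2 ((hT x y z).1 ⟨n1, n3, n2, he⟩)).2.2.2
    · intro he
      have h3 : e.card = 3 := by
        unfold tgraph at he
        exact (mem_filter.mp he).2.1
      obtain ⟨x, y, z, n1, n2, n3, rfl⟩ := card_eq_three.1 h3
      exact ((hT x y z).2 ((rel_tgraph c x y z).1 ⟨n1, n3, n2, he⟩)).2.2.2

/-- the class is hereditary -/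
theorem her_F {Es : List Ed} (m : ℕ) (v : Fin (m + 1)) (H : Finset (Finset (Fin (m + 1))))
    (hF : FreeR Es (Loc.Rel H)) : FreeR Es (Loc.Rel (del v H)) := by
  intro f hf he
  refine hF (fun i => v.succAbove (f i)) (fun i j h => hf (Fin.succAbove_right_injective h))
    fun e hE => ?_
  obtain ⟨h1, h2, h3, h4⟩ := he e hE
  refine ⟨fun h => h1 (Fin.succAbove_right_injective h),
    fun h => h2 (Fin.succAbove_right_injective h),
    fun h => h3 (Fin.succAbove_right_injective h), ?_⟩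
  rw [mem_del] at h4
  convert h4 using 1
  ext x
  simp only [mem_insert, mem_singleton, Finset.mem_map, Fin.coe_succAboveEmb]
  constructor
  · rintro (rfl | rfl | rfl)
    exacts [⟨f e.1, by simp, rfl⟩, ⟨f e.2.1, by simp, rfl⟩, ⟨f e.2.2, by simp, rfl⟩]
  · rintro ⟨z, rfl | rfl | rfl, rfl⟩ <;> simp

end Pool.Agent.R105.TP
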