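import Pool.Agent.R105.TP.ExF

/-! Links when the 3-graph `F_{3,3}` is excluded. -/

set_option autoImplicit false
set_option linter.unusedVariables false
set_option linter.unusedSectionVars false

open Finset
open scoped Classical

namespace Pool.Agent.R105.TP
open Pool.Agent.Y439.Loc hiding sum_nonneg'
open Pool.Agent.Y903.TX

section
variable {V : Type} [Fintype V] {c : V → Fin 3} {H : V → V → V → Prop} {n ε : ℝ}

/-- three vertices form a triangle in the link of `v` -/
def Tr (H : V → V → V → Prop) (v x y z : V) : Prop := H v x y ∧ H v x z ∧ H v y z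

/-- triangles of the link with given classes -/
noncomputable def TT (c : V → Fin 3) (H : V → V → V → Prop) (v : V) (p q r : Fin 3) : ℝ :=
  ∑ x, ∑ y, ∑ z, ind ((c x = p ∧ c y = q ∧ c z = r) ∧ Tr H v x y z)

theorem TT_nonneg (v : V) (p q r : Fin 3) : 0 ≤ TT c H v p q r :=
  sum_nonneg' fun _ => sum_nonneg' fun _ => sum_nonneg' fun _ => ind_nonneg _

theorem Tr.sw (S : Sys c H) {v x y z : V} (h : Tr H v x y z) : Tr H v y x z :=
  ⟨S.s2 _ _ _ h.1, h.2.2, h.2.1⟩

theorem Tr.sw' (S : Sys c H) {v x y z : V} (h : Tr H v x y z) : Tr H v x z y :=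
  ⟨h.2.1, h.1, S.s2 _ _ _ h.2.2⟩

theorem TT_sw (S : Sys c H) (v : V) (p q r : Fin 3) : TT c H v p q r = TT c H v q p r := by
  unfold TT
  rw [sum_comm]
  refine sum_congr rfl fun x _ => sum_congr rfl fun y _ => sum_congr rfl fun z _ => ind_congr ?_
  exact ⟨fun h => ⟨⟨h.1.2.1, h.1.1, h.1.2.2⟩, h.2.sw S⟩,
    fun h => ⟨⟨h.1.2.1, h.1.1, h.1.2.2⟩, h.2.sw S⟩⟩

theorem TT_sw' (S : Sys c H) (v : V) (p q r : Fin 3) : TT c H v p q r = TT c H v p r q := by
  unfold TT
  refine sum_congr rfl fun x _ => ?_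
  rw [sum_comm]
  refine sum_congr rfl fun y _ => sum_congr rfl fun z _ => ind_congr ?_
  exact ⟨fun h => ⟨⟨h.1.1, h.1.2.2, h.1.2.1⟩, h.2.sw' S⟩,
    fun h => ⟨⟨h.1.1, h.1.2.2, h.1.2.1⟩, h.2.sw' S⟩⟩

/-- triangles whose type is that of an edge of Turán's construction -/
theorem TT_WD (S : Sys c H) (v : V) {p q r : Fin 3} (h : tb p q r = true) :
    TT c H v p q r ≤ WD c H := by
  unfold TT WD
  refine sum_le_sum fun x _ => sum_le_sum fun y _ => sum_le_sum fun z _ => ind_mono ?_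
  rintro ⟨⟨h1, h2, h3⟩, h4, h5, h6⟩ h7
  refine S.k4 v x y z h4 h5 h6 (h7.2 ⟨S.ne23 h4, S.ne23 h6, S.ne23 h5, ?_⟩)
  rw [h1, h2, h3]
  exact h

/-- the sum over a class of the products of two degrees -/
noncomputable def MM (c : V → Fin 3) (H : V → V → V → Prop) (v : V) (p r : Fin 3) : ℝ :=
  ∑ x, ind (c x = p) * (dg c H v p x * dg c H v r x)

theorem edge_deg (S : Sys c H) (v : V) (p r : Fin 3) :
    2 * MM c H v p r ≤ sz c r * EE c H v p p + TT c H v p p r := by
  set A : V → V → ℝ := fun x y => ind ((c x = p ∧ c y = p) ∧ H v x y) with hA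
  have hAs : ∀ x y, A x y = A y x := fun x y => ind_congr
    ⟨fun h => ⟨⟨h.1.2, h.1.1⟩, S.s2 _ _ _ h.2⟩, fun h => ⟨⟨h.1.2, h.1.1⟩, S.s2 _ _ _ h.2⟩⟩
  have h1 : ∑ x, ∑ y, A x y * dg c H v r x = MM c H v p r := by
    unfold MM
    refine sum_congr rfl fun x _ => ?_
    rw [← sum_mul, ← mul_assoc]
    congr 1
    unfold dg
    rw [mul_sum]
    refine sum_congr rfl fun y _ => ?_
    rw [ind_mul]
    exact ind_congr ⟨fun h => ⟨h.1.1, h.1.2, S.s2 _ _ _ h.2⟩,
      fun h => ⟨⟨h.1, h.2.1⟩, S.s2 _ _ _ h.2.2⟩⟩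
  have h2 : ∑ x, ∑ y, A x y * dg c H v r y = MM c H v p r := by
    rw [sum_comm, ← h1]
    exact sum_congr rfl fun y _ => sum_congr rfl fun x _ => by rw [hAs]
  have h3 : ∀ x y, A x y * (dg c H v r x + dg c H v r y) ≤ A x y * sz c r +
      ∑ z, ind ((c x = p ∧ c y = p ∧ c z = r) ∧ Tr H v x y z) := by
    intro x y
    unfold dg sz
    rw [← sum_add_distrib, mul_sum, mul_sum, ← sum_add_distrib]
    refine sum_le_sum fun z _ => ?_
    by_cases h : (c x = p ∧ c y = p) ∧ H v x y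
    · rw [hA]
      simp only []
      rw [ind_t h, one_mul, one_mul]
      by_cases hz : c z = r
      · rw [ind_t hz]
        by_cases hx : H v z x
        · by_cases hy : H v z y
          · rw [ind_t ⟨hz, hx⟩, ind_t ⟨hz, hy⟩,
              ind_t ⟨⟨h.1.1, h.1.2, hz⟩, h.2, S.s2 _ _ _ hx, S.s2 _ _ _ hy⟩]
          · rw [ind_f (p := c z = r ∧ H v z y) fun h => hy h.2]
            have := ind_le_one (c z = r ∧ H v z x)
            have := ind_nonneg ((c x = p ∧ c y = p ∧ c z = r) ∧ Tr H v x y z)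
            linarith
        · rw [ind_f (p := c z = r ∧ H v z x) fun h => hx h.2]
          have := ind_le_one (c z = r ∧ H v z y)
          have := ind_nonneg ((c x = p ∧ c y = p ∧ c z = r) ∧ Tr H v x y z)
          linarith
      · rw [ind_f (p := c z = r ∧ H v z x) fun h => hz h.1,
          ind_f (p := c z = r ∧ H v z y) fun h => hz h.1, ind_f hz]
        have := ind_nonneg ((c x = p ∧ c y = p ∧ c z = r) ∧ Tr H v x y z)
        linarith
    · have e : A x y = 0 := ind_f h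
      rw [e]
      have := ind_nonneg ((c x = p ∧ c y = p ∧ c z = r) ∧ Tr H v x y z)
      linarith
  have h4 := sum_le_sum fun x (_ : x ∈ (univ : Finset V)) =>
    sum_le_sum fun y (_ : y ∈ (univ : Finset V)) => h3 x y
  simp only [mul_add, sum_add_distrib] at h4
  have h5 : ∑ x, ∑ y, A x y * sz c r = sz c r * EE c H v p p := by
    unfold Pool.Agent.Y903.TX.EE
    rw [mul_comm, sum_mul]
    exact sum_congr rfl fun x _ => by rw [sum_mul]
  rw [h1, h2, h5] at h4
  unfold TT
  linarith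

/-- inner edges without triangles -/
theorem inner_tri (S : Sys c H) (v : V) (p : Fin 3) :
    2 * EE c H v p p ^ 2 ≤ sz c p * (sz c p * EE c H v p p + TT c H v p p p) := by
  have h1 := edge_deg S v p p
  have h2 := cs_class (c := c) p (fun b => dg c H v p b)
  rw [← EE_dg (c := c) (H := H) v p p] at h2
  have h3 : ∑ b, ind (c b = p) * dg c H v p b ^ 2 = MM c H v p p := by
    unfold MM
    exact sum_congr rfl fun b _ => by rw [sq]
  rw [h3] at h2
  have h4 : 0 ≤ sz c p := sz_nonneg _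
  have h5 := mul_le_mul_of_nonneg_left h1 h4
  linarith

/-- the triangles at `x` meeting the three classes -/
noncomputable def RR (c : V → Fin 3) (H : V → V → V → Prop) (v : V) (k : Fin 3) (x : V) : ℝ :=
  ∑ y, ∑ z, ind ((c y = k + 1 ∧ c z = k + 2) ∧ Tr H v x y z)

theorem rain (S : Sys c H) (v : V) (k : Fin 3) (x : V) :
    EE c H v (k + 1) (k + 2) + dg c H v (k + 1) x * dg c H v (k + 2) x ≤
      sz c (k + 1) * sz c (k + 2) + RR c H v k x := by
  unfold Pool.Agent.Y903.TX.EE dg sz RR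
  rw [sum_mul_sum, sum_mul_sum, ← sum_add_distrib, ← sum_add_distrib]
  refine sum_le_sum fun y _ => ?_
  rw [← sum_add_distrib, ← sum_add_distrib]
  refine sum_le_sum fun z _ => ?_
  rw [ind_mul, ind_mul]
  by_cases hyz : c y = k + 1 ∧ c z = k + 2
  · rw [ind_t hyz]
    by_cases h1 : H v y z
    · by_cases h2 : (c y = k + 1 ∧ H v y x) ∧ (c z = k + 2 ∧ H v z x)
      · rw [ind_t h2, ind_t (p := (c y = k + 1 ∧ c z = k + 2) ∧ Tr H v x y z)
          ⟨hyz, S.s2 _ _ _ h2.1.2, S.s2 _ _ _ h2.2.2, h1⟩]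
        have := ind_le_one ((c y = k + 1 ∧ c z = k + 2) ∧ H v y z)
        linarith
      · rw [ind_f h2]
        have := ind_le_one ((c y = k + 1 ∧ c z = k + 2) ∧ H v y z)
        have := ind_nonneg ((c y = k + 1 ∧ c z = k + 2) ∧ Tr H v x y z)
        linarith
    · rw [ind_f (p := (c y = k + 1 ∧ c z = k + 2) ∧ H v y z) (fun h => h1 h.2)]
      have := ind_le_one ((c y = k + 1 ∧ H v y x) ∧ (c z = k + 2 ∧ H v z x))
      have := ind_nonneg ((c y = k + 1 ∧ c z = k + 2) ∧ Tr H v x y z)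
      linarith
  · rw [ind_f hyz, ind_f (p := (c y = k + 1 ∧ c z = k + 2) ∧ H v y z) (fun h => hyz h.1),
      ind_f (p := (c y = k + 1 ∧ H v y x) ∧ (c z = k + 2 ∧ H v z x))
        (fun h => hyz ⟨h.1.1, h.2.1⟩)]
    have := ind_nonneg ((c y = k + 1 ∧ c z = k + 2) ∧ Tr H v x y z)
    linarith

theorem RR_nonneg (v : V) (k : Fin 3) (x : V) : 0 ≤ RR c H v k x :=
  sum_nonneg' fun _ => sum_nonneg' fun _ => ind_nonneg _

theorem tb_rain : ∀ k : Fin 3, tb k (k + 1) (k + 2) = true := by decide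
theorem tb_in : ∀ k : Fin 3, tb k k (k + 1) = true := by decide

theorem RR_sum (S : Sys c H) (v : V) (k : Fin 3) :
    ∑ x, ind (c x = k) * RR c H v k x ≤ WD c H := by
  refine le_trans (le_of_eq ?_) (TT_WD S v (tb_rain k))
  unfold TT RR
  refine sum_congr rfl fun x _ => ?_
  rw [mul_sum]
  refine sum_congr rfl fun y _ => ?_
  rw [mul_sum]
  refine sum_congr rfl fun z _ => ?_
  rw [ind_mul]
  exact ind_congr ⟨fun h => ⟨⟨h.1, h.2.1.1, h.2.1.2⟩, h.2.2⟩,
    fun h => ⟨h.1.1, ⟨h.1.2.1, h.1.2.2⟩, h.2⟩⟩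

/-- **The main inequality.** -/
theorem mainv (S : Sys c H) (hn : ∑ _x : V, (1 : ℝ) = n) (v : V) (k : Fin 3) :
    (sz c (k + 1) * sz c (k + 2) - EE c H v (k + 1) (k + 2)) * EE c H v k k ≤
      sz c k * (sz c k * (2 * (sz c (k + 1) * sz c (k + 2)) - EE c H v (k + 1) (k + 2)) -
        sz c (k + 2) * EE c H v k (k + 1) - sz c (k + 1) * EE c H v (k + 2) k) +
      n * WD c H + (sz c (k + 2) * WD c H + sz c (k + 1) * TT c H v k k (k + 2)) / 2 := by
  set s := sz c k with hs
  set s1 := sz c (k + 1) with hs1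
  set s2 := sz c (k + 2) with hs2
  set E' := EE c H v (k + 1) (k + 2) with hE'
  have hs0 : 0 ≤ s := sz_nonneg _
  have hs10 : 0 ≤ s1 := sz_nonneg _
  have hs20 : 0 ≤ s2 := sz_nonneg _
  have hsn : s ≤ n := sz_le hn k
  have hn0 := n_nonneg hn
  have hpt : ∀ x, 0 ≤ ind (c x = k) * ((s - dg c H v k x) *
      (2 * (s1 * s2) - E' - s2 * dg c H v (k + 1) x - s1 * dg c H v (k + 2) x)) +
      n * (ind (c x = k) * RR c H v k x) := by
    intro x
    have r0 := RR_nonneg (c := c) (H := H) v k x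
    by_cases h : c x = k
    · rw [ind_t h, one_mul, one_mul]
      have r1 := rain S v k x
      have d0 := dg_nonneg (c := c) (H := H) v k x
      have d0' := dg_le (c := c) (H := H) v k x
      have d1' := dg_le (c := c) (H := H) v (k + 1) x
      have d2' := dg_le (c := c) (H := H) v (k + 2) x
      have r2 := mul_nonneg (sub_nonneg.2 d1') (sub_nonneg.2 d2')
      have r3 : 0 ≤ 2 * (s1 * s2) - E' - s2 * dg c H v (k + 1) x - s1 * dg c H v (k + 2) x +
          RR c H v k x := by nlinarith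
      have r4 : 0 ≤ s - dg c H v k x := sub_nonneg.2 d0'
      have r5 := mul_nonneg r4 r3
      have r6 : (s - dg c H v k x) * RR c H v k x ≤ n * RR c H v k x :=
        mul_le_mul_of_nonneg_right (by linarith) r0
      nlinarith
    · rw [ind_f h]
      simp
  have hsum := Finset.sum_nonneg (s := (univ : Finset V)) fun x _ => hpt x
  rw [sum_add_distrib, ← mul_sum] at hsum
  have hR := RR_sum S v k
  have e1 : ∑ x, ind (c x = k) * ((s - dg c H v k x) *
      (2 * (s1 * s2) - E' - s2 * dg c H v (k + 1) x - s1 * dg c H v (k + 2) x)) =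
      (2 * (s1 * s2) - E') * (s * s - EE c H v k k) -
      s2 * (s * EE c H v k (k + 1) - MM c H v k (k + 1)) -
      s1 * (s * EE c H v (k + 2) k - MM c H v k (k + 2)) := by
    have a0 : ∑ x, ind (c x = k) = s := rfl
    have a1 : ∑ x, ind (c x = k) * dg c H v k x = EE c H v k k := (EE_dg v k k).symm
    have a2 : ∑ x, ind (c x = k) * dg c H v (k + 1) x = EE c H v k (k + 1) := by
      rw [← EE_dg, EE_symm S]
    have a3 : ∑ x, ind (c x = k) * dg c H v (k + 2) x = EE c H v (k + 2) k := by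
      rw [← EE_dg]
    have a4 : ∀ x, ind (c x = k) * ((s - dg c H v k x) *
        (2 * (s1 * s2) - E' - s2 * dg c H v (k + 1) x - s1 * dg c H v (k + 2) x)) =
        (2 * (s1 * s2) - E') * s * ind (c x = k) -
        (2 * (s1 * s2) - E') * (ind (c x = k) * dg c H v k x) -
        s2 * s * (ind (c x = k) * dg c H v (k + 1) x) +
        s2 * (ind (c x = k) * (dg c H v k x * dg c H v (k + 1) x)) -
        s1 * s * (ind (c x = k) * dg c H v (k + 2) x) +
        s1 * (ind (c x = k) * (dg c H v k x * dg c H v (k + 2) x)) := fun x => by ring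
    rw [sum_congr rfl fun x _ => a4 x]
    simp only [sum_add_distrib, sum_sub_distrib, ← mul_sum]
    rw [a0, a1, a2, a3]
    unfold MM
    ring
  rw [e1] at hsum
  have m1 := edge_deg S v k (k + 1)
  have m2 := edge_deg S v k (k + 2)
  have m3 := TT_WD S v (tb_in k)
  have m4 := mul_le_mul_of_nonneg_left hR hn0
  have m5 : s2 * (2 * MM c H v k (k + 1)) ≤ s2 * (s1 * EE c H v k k + WD c H) :=
    mul_le_mul_of_nonneg_left (by linarith) hs20
  have m6 : s1 * (2 * MM c H v k (k + 2)) ≤ s1 * (s2 * EE c H v k k + TT c H v k k (k + 2)) :=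
    mul_le_mul_of_nonneg_left m2 hs10
  nlinarith

/-- all triangles -/
theorem T3_le (v : V) {t : ℝ} (h : ∀ p q r, TT c H v p q r ≤ t) :
    ∑ x, ∑ y, ∑ z, ind (Tr H v x y z) ≤ 27 * t := by
  have key : ∀ x y z, ind (Tr H v x y z) ≤
      ∑ p : Fin 3 × Fin 3 × Fin 3,
        ind ((c x = p.1 ∧ c y = p.2.1 ∧ c z = p.2.2) ∧ Tr H v x y z) := by
    intro x y z
    refine le_trans ?_ (single_le_sum (f := fun p : Fin 3 × Fin 3 × Fin 3 =>
      ind ((c x = p.1 ∧ c y = p.2.1 ∧ c z = p.2.2) ∧ Tr H v x y z))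
      (fun p _ => ind_nonneg _) (mem_univ (c x, c y, c z)))
    exact ind_mono fun h => ⟨⟨rfl, rfl, rfl⟩, h⟩
  have h1 := sum_le_sum fun x (_ : x ∈ (univ : Finset V)) =>
    sum_le_sum fun y (_ : y ∈ (univ : Finset V)) =>
      sum_le_sum fun z (_ : z ∈ (univ : Finset V)) => key x y z
  refine h1.trans ?_
  have h2 : ∑ x, ∑ y, ∑ z, ∑ p : Fin 3 × Fin 3 × Fin 3,
      ind ((c x = p.1 ∧ c y = p.2.1 ∧ c z = p.2.2) ∧ Tr H v x y z) =
      ∑ p : Fin 3 × Fin 3 × Fin 3, TT c H v p.1 p.2.1 p.2.2 := by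
    unfold TT
    rw [sum_comm (s := (univ : Finset (Fin 3 × Fin 3 × Fin 3)))]
    refine sum_congr rfl fun x _ => ?_
    rw [sum_comm (s := (univ : Finset (Fin 3 × Fin 3 × Fin 3)))]
    refine sum_congr rfl fun y _ => ?_
    rw [sum_comm (s := (univ : Finset (Fin 3 × Fin 3 × Fin 3)))]
  rw [h2]
  refine (sum_le_sum fun p _ => h p.1 p.2.1 p.2.2).trans ?_
  rw [sum_const, card_univ]
  simp

/-- Goodman's inequality -/
theorem goodman (S : Sys c H) (hn : ∑ _x : V, (1 : ℝ) = n) (v : V) :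
    2 * deg H v ^ 2 ≤ n * (n * deg H v + ∑ x, ∑ y, ∑ z, ind (Tr H v x y z)) := by
  set T : V → ℝ := fun x => ∑ y, ind (H v x y) with hT
  have hD : ∑ x, T x = deg H v := rfl
  have h1 : ∑ x, ∑ y, ind (H v x y) * T x = ∑ x, T x ^ 2 := by
    refine sum_congr rfl fun x _ => ?_
    rw [← sum_mul, sq]
  have h2 : ∑ x, ∑ y, ind (H v x y) * T y = ∑ x, T x ^ 2 := by
    rw [sum_comm, ← h1]
    refine sum_congr rfl fun y _ => sum_congr rfl fun x _ => ?_
    rw [ind_congr ⟨S.s2 v x y, S.s2 v y x⟩]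
  have h3 : ∀ x y, ind (H v x y) * (T x + T y) ≤ ind (H v x y) * n + ∑ z, ind (Tr H v x y z) := by
    intro x y
    rw [← hn, hT]
    simp only []
    rw [← sum_add_distrib, mul_sum, mul_sum, ← sum_add_distrib]
    refine sum_le_sum fun z _ => ?_
    by_cases h : H v x y
    · rw [ind_t h]
      by_cases hx : H v x z
      · by_cases hy : H v y z
        · rw [ind_t hx, ind_t hy, ind_t (p := Tr H v x y z) ⟨h, hx, hy⟩]; norm_num
        · rw [ind_f hy]
          have := ind_le_one (H v x z)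
          have := ind_nonneg (Tr H v x y z)
          linarith
      · rw [ind_f hx]
        have := ind_le_one (H v y z)
        have := ind_nonneg (Tr H v x y z)
        linarith
    · rw [ind_f h]
      have := ind_nonneg (Tr H v x y z)
      linarith
  have h4 := sum_le_sum fun x (_ : x ∈ (univ : Finset V)) =>
    sum_le_sum fun y (_ : y ∈ (univ : Finset V)) => h3 x y
  simp only [mul_add, sum_add_distrib] at h4
  rw [h1, h2] at h4
  have h5 : ∑ x, ∑ y, ind (H v x y) * n = n * deg H v := by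
    unfold deg
    rw [mul_comm, sum_mul]
    exact sum_congr rfl fun x _ => by rw [sum_mul]
  rw [h5] at h4
  have h6 := sum_mul_sq_le_sq_mul_sq univ (fun _ : V => (1 : ℝ)) T
  simp only [one_mul, one_pow] at h6
  rw [hn, hD] at h6
  have h7 := n_nonneg hn
  have h8 := mul_le_mul_of_nonneg_left h4 h7
  linarith

end

end Pool.Agent.R105.TP
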