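import Pool.Agent.R105.TP.Star

/-! Links: from the two conditions to a class. -/

set_option autoImplicit false
set_option linter.unusedVariables false
set_option linter.unusedSectionVars false

open Finset
open scoped Classical

namespace Pool.Agent.R105.TP
open Pool.Agent.Y439.Loc hiding sum_nonneg'
open Pool.Agent.Y903.TX

/-- numbers -/
theorem num3 {κ e a : ℝ} (hκ : 0 < κ) (hκ1 : κ ≤ 1 / 1000) (h1 : -κ ≤ e) (h2 : e ≤ 1 / 9) :
    -(2 * κ) ≤ e * (1 - 9 * e) := by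
  by_cases h : 0 ≤ e
  · have : 0 ≤ e * (1 - 9 * e) := mul_nonneg h (by linarith)
    linarith
  · push Not at h
    nlinarith

theorem num_alt {κ e : ℝ} (hκ : 0 < κ) (hκ1 : κ ≤ 1 / 1000) (h2 : e ≤ 1 / 9)
    (h : e * (1 - 9 * e) ≤ 9 * κ) : e ≤ 20 * κ ∨ 1 / 9 - 20 * κ ≤ e := by
  by_contra hcon
  push Not at hcon
  obtain ⟨h3, h4⟩ := hcon
  have h5 : 0 < (e - 20 * κ) * (1 / 9 - 20 * κ - e) := mul_pos (by linarith) (by linarith)
  nlinarith

theorem num_one {κ e0 e1 e2 a0 a1 a2 : ℝ} (hκ : 0 < κ) (hκ1 : κ ≤ 1 / 1000)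
    (l1 : -κ ≤ e1) (l2 : -κ ≤ e2)
    (b0 : 0 ≤ a0) (b1 : 0 ≤ a1) (b2 : 0 ≤ a2) (c1 : a1 ≤ 9 * e1 ^ 2 + κ)
    (c2 : a2 ≤ 9 * e2 ^ 2 + κ) (hE : 1 / 9 - κ ≤ e0 + e1 + e2)
    (hd : 5 / 9 - κ ≤ a0 + a1 + a2 + 2 * (1 / 3 - (e0 + e1 + e2)))
    (s1 : e1 ≤ 20 * κ) (s2 : e2 ≤ 20 * κ) :
    1 / 9 - 50 * κ ≤ a0 ∧ a1 ≤ 50 * κ ∧ a2 ≤ 50 * κ := by
  have q1 : e1 ^ 2 ≤ 400 * κ ^ 2 := by nlinarith
  have q2 : e2 ^ 2 ≤ 400 * κ ^ 2 := by nlinarith
  have q3 : κ ^ 2 ≤ κ / 1000 := by nlinarith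
  refine ⟨by linarith, by linarith, by linarith⟩

theorem num_c1 {κ : ℝ} (e a : Fin 3 → ℝ) (hκ : 0 < κ) (hκ1 : κ ≤ 1 / 1000)
    (hl : ∀ k, -κ ≤ e k) (hu : ∀ k, e k ≤ 1 / 9) (ha0 : ∀ k, 0 ≤ a k)
    (ha : ∀ k, a k ≤ 9 * e k ^ 2 + κ) (hE : 1 / 9 - κ ≤ e 0 + e 1 + e 2)
    (hd : 5 / 9 - κ ≤ a 0 + a 1 + a 2 + 2 * (1 / 3 - (e 0 + e 1 + e 2))) :
    ∃ j : Fin 3, 1 / 9 - 50 * κ ≤ e j ∧ e (j + 1) ≤ 50 * κ ∧ e (j + 2) ≤ 50 * κ ∧
      1 / 9 - 50 * κ ≤ a j ∧ a (j + 1) ≤ 50 * κ ∧ a (j + 2) ≤ 50 * κ := by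
  have m0 := num3 (a := 0) hκ hκ1 (hl 0) (hu 0)
  have m1 := num3 (a := 0) hκ hκ1 (hl 1) (hu 1)
  have m2 := num3 (a := 0) hκ hκ1 (hl 2) (hu 2)
  have a0 := ha 0
  have a1 := ha 1
  have a2 := ha 2
  have k1 : e 0 * (1 - 9 * e 0) + e 1 * (1 - 9 * e 1) + e 2 * (1 - 9 * e 2) ≤ 5 * κ := by
    nlinarith
  have hup : e 0 + e 1 + e 2 ≤ 1 / 9 + 10 * κ := by nlinarith
  have r0 := num_alt hκ hκ1 (hu 0) (by linarith : e 0 * (1 - 9 * e 0) ≤ 9 * κ)
  have r1 := num_alt hκ hκ1 (hu 1) (by linarith : e 1 * (1 - 9 * e 1) ≤ 9 * κ)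
  have r2 := num_alt hκ hκ1 (hu 2) (by linarith : e 2 * (1 - 9 * e 2) ≤ 9 * κ)
  have l0 := hl 0
  have l1 := hl 1
  have l2 := hl 2
  rcases r0 with r0 | r0
  · rcases r1 with r1 | r1
    · rcases r2 with r2 | r2
      · exfalso; linarith
      · have := num_one (e0 := e 2) hκ hκ1 l0 l1 (ha0 2) (ha0 0) (ha0 1) a0 a1 (by linarith) (by linarith) r0 r1
        exact ⟨2, by show _ ≤ e 2; linarith, by show e 0 ≤ _; linarith, by show e 1 ≤ _; linarith,
          this.1, this.2.1, this.2.2⟩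
    · rcases r2 with r2 | r2
      · have := num_one (e0 := e 1) hκ hκ1 l2 l0 (ha0 1) (ha0 2) (ha0 0) a2 a0 (by linarith) (by linarith) r2 r0
        exact ⟨1, by show _ ≤ e 1; linarith, by show e 2 ≤ _; linarith, by show e 0 ≤ _; linarith,
          this.1, this.2.1, this.2.2⟩
      · exfalso; linarith
  · rcases r1 with r1 | r1
    · rcases r2 with r2 | r2
      · have := num_one (e0 := e 0) hκ hκ1 l1 l2 (ha0 0) (ha0 1) (ha0 2) a1 a2 (by linarith) (by linarith) r1 r2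
        exact ⟨0, by show _ ≤ e 0; linarith, by show e 1 ≤ _; linarith, by show e 2 ≤ _; linarith,
          this.1, this.2.1, this.2.2⟩
      · exfalso; linarith
    · exfalso; linarith

section
variable {V : Type} [Fintype V] {c : V → Fin 3} {H : V → V → V → Prop} {n ε : ℝ}

/-- the number of pairs of link edges at a vertex of the class `k`, one inside the class and one to
the next class -/
noncomputable def CC (c : V → Fin 3) (H : V → V → V → Prop) (v : V) (k : Fin 3) : ℝ :=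
  ∑ x, ind (c x = k) * (dg c H v k x * dg c H v (k + 1) x)

/-- inner edges when they do not meet the edges to the next class -/
theorem inner_c1 (S : Sys c H) (v : V) (k : Fin 3) :
    sz c (k + 1) ^ 2 * EE c H v k k ≤
      (sz c k * sz c (k + 1) - EE c H v k (k + 1)) ^ 2 + 2 * (sz c (k + 1) * CC c H v k) := by
  set T : ℝ := sz c (k + 1) with hT
  set q : V → ℝ := fun x => dg c H v (k + 1) x with hq
  set w : V → ℝ := fun x => ind (c x = k) * (T - q x) with hw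
  have hq0 : ∀ x, 0 ≤ q x := fun x => dg_nonneg v (k + 1) x
  have hqT : ∀ x, q x ≤ T := fun x => dg_le v (k + 1) x
  have hw0 : ∀ x, 0 ≤ w x := fun x => mul_nonneg (ind_nonneg _) (by linarith [hqT x])
  set Lk : V → V → ℝ := fun x y => ind (c x = k) * ind (c y = k ∧ H v y x) with hLk
  have hpt : ∀ x y, T ^ 2 * Lk x y ≤ w x * w y + T * (Lk x y * q x) + T * (Lk x y * q y) := by
    intro x y
    by_cases h : c x = k ∧ (c y = k ∧ H v y x)
    · have e1 : Lk x y = 1 := by rw [hLk]; simp only []; rw [ind_t h.1, ind_t h.2]; norm_num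
      have e2 : w x = T - q x := by rw [hw]; simp only []; rw [ind_t h.1, one_mul]
      have e3 : w y = T - q y := by rw [hw]; simp only []; rw [ind_t h.2.1, one_mul]
      rw [e1, e2, e3]
      have := mul_nonneg (hq0 x) (hq0 y)
      nlinarith
    · have e1 : Lk x y = 0 := by
        rw [hLk]; simp only []; rw [ind_mul]; exact ind_f h
      rw [e1]
      have := mul_nonneg (hw0 x) (hw0 y)
      linarith
  have hsum := sum_le_sum fun x (_ : x ∈ (univ : Finset V)) =>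
    sum_le_sum fun y (_ : y ∈ (univ : Finset V)) => hpt x y
  simp only [sum_add_distrib, ← mul_sum] at hsum
  have hEE : ∑ x, ∑ y, Lk x y = EE c H v k k := by
    rw [EE_dg]
    refine sum_congr rfl fun x _ => ?_
    rw [hLk]
    simp only []
    rw [← mul_sum]
    rfl
  have hC1 : ∑ x, ∑ y, Lk x y * q x = CC c H v k := by
    unfold CC
    refine sum_congr rfl fun x _ => ?_
    rw [← sum_mul]
    rw [hLk]
    simp only []
    rw [← mul_sum, mul_assoc]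
    rfl
  have hLs : ∀ x y, Lk x y = Lk y x := by
    intro x y
    rw [hLk]
    simp only []
    rw [ind_mul, ind_mul]
    exact ind_congr ⟨fun h => ⟨h.2.1, h.1, S.s2 _ _ _ h.2.2⟩, fun h => ⟨h.2.1, h.1, S.s2 _ _ _ h.2.2⟩⟩
  have hC2 : ∑ x, ∑ y, Lk x y * q y = CC c H v k := by
    rw [sum_comm, ← hC1]
    exact sum_congr rfl fun y _ => sum_congr rfl fun x _ => by rw [hLs]
  have hW : ∑ x, w x = sz c k * T - EE c H v k (k + 1) := by
    rw [EE_symm S, EE_dg]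
    unfold sz
    rw [sum_mul, ← sum_sub_distrib]
    refine sum_congr rfl fun x _ => ?_
    rw [hw]
    simp only []
    ring
  have hWW : ∑ x, ∑ y, w x * w y = (sz c k * T - EE c H v k (k + 1)) ^ 2 := by
    rw [← hW, sq, sum_mul_sum]
  rw [hEE, hC1, hC2] at hsum
  have hWW' : ∑ x, w x * ∑ y, w y = (sz c k * T - EE c H v k (k + 1)) ^ 2 := by
    rw [← hWW]
    exact sum_congr rfl fun x _ => mul_sum _ _ _
  rw [hWW'] at hsum
  linarith

/-- **Links, first condition.** -/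
theorem link_c1 (A : Near c H n ε) {τ : ℝ} (hτ0 : 0 < τ) (hτ : τ ≤ 1 / 100)
    (hε : 10 ^ 8 * ε ≤ τ) (v : V) (hdeg : (5 / 9 - ε) * n ^ 2 ≤ deg H v)
    (hC : ∀ k, CC c H v k ≤ 400 * (ε * n ^ 3)) :
    ∃ k, wr (Function.update c v k) H v ≤ 180 * τ * n ^ 2 := by
  have hp := A.pos
  have he0 := A.e0
  have hn2 : (0 : ℝ) < n ^ 2 := by positivity
  obtain ⟨κ, hκ⟩ : ∃ κ : ℝ, κ = 10 ^ 5 * ε := ⟨_, rfl⟩
  have hκ0 : 0 < κ := by rw [hκ]; positivity
  have hκτ : 1000 * κ ≤ τ := by rw [hκ]; linarith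
  have hκ1 : κ ≤ 1 / 1000 := by linarith
  have hεκ : ε ≤ κ / 10 ^ 5 := by rw [hκ]; linarith
  have hε1 : ε ≤ 1 / 10 ^ 6 := by linarith
  set s : Fin 3 → ℝ := fun k => sz c k / n with hs
  set b : Fin 3 → ℝ := fun k => EE c H v k (k + 1) / n ^ 2 with hb
  set a : Fin 3 → ℝ := fun k => EE c H v k k / n ^ 2 with ha
  have hsl : ∀ k, 1 / 3 - ε ≤ s k := fun k => (quot_bounds A k).1
  have hsu : ∀ k, s k ≤ 1 / 3 + 2 * ε := fun k => (quot_bounds A k).2
  have hss1 : ∀ k l, s k * s l ≤ 1 / 9 + 2 * ε := by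
    intro k l
    have h1 := mul_le_mul (hsu k) (hsu l) (by linarith [hsl l]) (by linarith)
    nlinarith
  have hss2 : ∀ k l, 1 / 9 - ε ≤ s k * s l := by
    intro k l
    have h1 := mul_le_mul (hsl k) (hsl l) (by linarith) (by linarith [hsl k])
    nlinarith
  have hb0 : ∀ k, 0 ≤ b k := fun k => (EE_quot A v k (k + 1)).1
  have hbs : ∀ k, b k ≤ s k * s (k + 1) := fun k => (EE_quot A v k (k + 1)).2
  have ha0 : ∀ k, 0 ≤ a k := fun k => (EE_quot A v k k).1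
  have has : ∀ k, a k ≤ s k * s k := fun k => (EE_quot A v k k).2
  have hin : ∀ k, s (k + 1) ^ 2 * a k ≤ (s k * s (k + 1) - b k) ^ 2 + 800 * (s (k + 1) * ε) := by
    intro k
    have h1 := inner_c1 A.S v k
    have h2 : sz c (k + 1) * CC c H v k ≤ sz c (k + 1) * (400 * (ε * n ^ 3)) :=
      mul_le_mul_of_nonneg_left (hC k) (sz_nonneg _)
    have hn4 : (0 : ℝ) < n ^ 4 := by positivity
    refine le_of_mul_le_mul_right ?_ hn4
    have e1 : s (k + 1) ^ 2 * a k * n ^ 4 = sz c (k + 1) ^ 2 * EE c H v k k := by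
      rw [hs, ha]; field_simp
    have e2 : ((s k * s (k + 1) - b k) ^ 2 + 800 * (s (k + 1) * ε)) * n ^ 4 =
        (sz c k * sz c (k + 1) - EE c H v k (k + 1)) ^ 2 +
          2 * (sz c (k + 1) * (400 * (ε * n ^ 3))) := by
      rw [hs, hb]; field_simp; ring
    rw [e1, e2]
    linarith
  obtain ⟨j, j1, j2, j3, j4, j5, j6⟩ := num_c1 (κ := κ) (fun k => 1 / 9 - b k) a hκ0 hκ1
    (fun k => by
      have h1 := hbs k
      have h2 := hss1 k (k + 1)
      try simp only []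
      linarith)
    (fun k => by have := hb0 k; linarith) ha0
    (fun k => by
      have h1 := hin k
      have h2 := hss1 k (k + 1)
      have h3 := hss2 k (k + 1)
      have h4 := hb0 k
      have h5 := hbs k
      have h6 := hsu (k + 1)
      have h7 := hsl (k + 1)
      have h8 := has k
      have h9 := hss1 k k
      have h10 := ha0 k
      have h11 : 1 / 9 - ε ≤ s (k + 1) ^ 2 := by rw [sq]; exact hss2 _ _
      have h12 : (1 / 9 - ε) * a k ≤ s (k + 1) ^ 2 * a k := mul_le_mul_of_nonneg_right h11 h10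
      have h13 : s (k + 1) * ε ≤ 1 * ε := mul_le_mul_of_nonneg_right (by linarith) he0.le
      have h14 : (s k * s (k + 1) - b k) ^ 2 ≤ (1 / 9 - b k + 2 * ε) ^ 2 :=
        pow_le_pow_left₀ (by linarith) (by linarith) 2
      have h15 : ε * a k ≤ ε * 1 := mul_le_mul_of_nonneg_left (by linarith) he0.le
      have h16 : ε * (1 / 9 - b k) ≤ ε * 1 := mul_le_mul_of_nonneg_left (by linarith) he0.le
      have h17 : ε * ε ≤ ε * 1 := mul_le_mul_of_nonneg_left (by linarith) he0.le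
      try simp only []
      nlinarith)
    (by
      have h1 := trans_quot A v 0
      have h2 : s 2 * b 0 + s 0 * b 1 + s 1 * b 2 ≤ 2 * (s 0 * s 1 * s 2) + ε := h1
      have l0 := hsl 0
      have l1 := hsl 1
      have l2 := hsl 2
      have u0 := hss1 0 1
      have u2 := hsu 2
      have g1 : (1 / 3 - ε) * (b 0 + b 1 + b 2) ≤ s 2 * b 0 + s 0 * b 1 + s 1 * b 2 := by
        have q0 := mul_le_mul_of_nonneg_right l2 (hb0 0)
        have q1 := mul_le_mul_of_nonneg_right l0 (hb0 1)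
        have q2 := mul_le_mul_of_nonneg_right l1 (hb0 2)
        linarith
      have g2 : s 0 * s 1 * s 2 ≤ (1 / 9 + 2 * ε) * (1 / 3 + 2 * ε) :=
        mul_le_mul u0 u2 (by linarith) (by linarith)
      have g3 : b 0 + b 1 + b 2 ≤ 1 := by
        have := hbs 0
        have := hbs 1
        have := hbs 2
        have := hss1 0 (0 + 1)
        have := hss1 1 (1 + 1)
        have := hss1 2 (2 + 1)
        linarith
      have g4 : ε * (b 0 + b 1 + b 2) ≤ ε * 1 := mul_le_mul_of_nonneg_left g3 he0.le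
      try simp only []
      nlinarith)
    (by
      have h1 := deg_quot A v 0 hdeg
      have h2 : 5 / 9 - ε ≤ a 0 + a 1 + a 2 + 2 * (b 0 + b 1 + b 2) := h1
      try simp only []
      linarith)
  try simp only [] at j1 j2 j3
  refine ⟨j + 1, close_of A v j ⟨?_, ?_, ?_, ?_, ?_, ?_⟩⟩
  · have h1 := hss1 j j
    have h2 : (sz c j / n) ^ 2 = s j * s j := sq _
    have h3 : EE c H v j j / n ^ 2 = a j := rfl
    rw [h2, h3]
    linarith
  · have h1 := hss1 (j + 1) (j + 2)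
    have e : j + 1 + 1 = j + 2 := (fin_shift j).1
    have h2 : EE c H v (j + 1) (j + 2) / n ^ 2 = b (j + 1) := by rw [hb]; simp only []; rw [e]
    have h3 : sz c (j + 1) / n * (sz c (j + 2) / n) = s (j + 1) * s (j + 2) := rfl
    rw [h2, h3]
    linarith
  · have h1 := hss1 (j + 2) j
    have e : j + 2 + 1 = j := (fin_shift j).2
    have h2 : EE c H v (j + 2) j / n ^ 2 = b (j + 2) := by rw [hb]; simp only []; rw [e]
    have h3 : sz c (j + 2) / n * (sz c j / n) = s (j + 2) * s j := rfl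
    rw [h2, h3]
    linarith
  · have h2 : EE c H v j (j + 1) / n ^ 2 = b j := rfl
    rw [h2]
    linarith
  · have h3 : EE c H v (j + 1) (j + 1) / n ^ 2 = a (j + 1) := rfl
    rw [h3]
    linarith
  · have h3 : EE c H v (j + 2) (j + 2) / n ^ 2 = a (j + 2) := rfl
    rw [h3]
    linarith

/-- **Links, second condition.** -/
theorem link_c2 (A : Near c H n ε) {τ : ℝ} (hτ0 : 0 < τ) (hτ : τ ≤ 1 / 100)
    (hε : 10 ^ 8 * ε ≤ τ ^ 24) (v : V) (hdeg : (5 / 9 - ε) * n ^ 2 ≤ deg H v)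
    (hC : ∀ k, EE c H v k k * EE c H v (k + 1) (k + 1) ≤ 100 * (ε * n ^ 4)) :
    ∃ k, wr (Function.update c v k) H v ≤ 180 * τ * n ^ 2 := by
  have hp := A.pos
  have hn2 : (0 : ℝ) < n ^ 2 := by positivity
  have he0 := A.e0
  have hτ24 : τ ^ 24 ≤ τ ^ 4 := pow_le_pow_of_le_one hτ0.le (by linarith) (by norm_num)
  have hτ42 : τ ^ 4 ≤ τ ^ 2 := pow_le_pow_of_le_one hτ0.le (by linarith) (by norm_num)
  have hε2 : ε ≤ τ ^ 2 := by
    have : ε ≤ 10 ^ 8 * ε := by nlinarith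
    linarith
  have key : ∀ k, EE c H v k k / n ^ 2 ≤ τ ^ 2 ∨ EE c H v (k + 1) (k + 1) / n ^ 2 ≤ τ ^ 2 := by
    intro k
    by_contra hcon
    push Not at hcon
    obtain ⟨g1, g2⟩ := hcon
    rw [lt_div_iff₀ hn2] at g1 g2
    have w2 : (τ ^ 2 * n ^ 2) * (τ ^ 2 * n ^ 2) < EE c H v k k * EE c H v (k + 1) (k + 1) :=
      mul_lt_mul'' g1 g2 (by positivity) (by positivity)
    have w3 : (τ ^ 2 * n ^ 2) * (τ ^ 2 * n ^ 2) = τ ^ 4 * n ^ 4 := by ring
    have w4 : 100 * (ε * n ^ 4) ≤ τ ^ 4 * n ^ 4 := by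
      have : 100 * ε ≤ τ ^ 4 := by
        have : 100 * ε ≤ 10 ^ 8 * ε := by nlinarith
        linarith
      calc 100 * (ε * n ^ 4) = 100 * ε * n ^ 4 := by ring
        _ ≤ τ ^ 4 * n ^ 4 := mul_le_mul_of_nonneg_right this (by positivity)
    have := hC k
    linarith
  have h2 : ∃ j : Fin 3, EE c H v (j + 1) (j + 1) / n ^ 2 ≤ τ ^ 2 ∧
      EE c H v (j + 2) (j + 2) / n ^ 2 ≤ τ ^ 2 := by
    have k0 : EE c H v 0 0 / n ^ 2 ≤ τ ^ 2 ∨ EE c H v 1 1 / n ^ 2 ≤ τ ^ 2 := key 0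
    have k1 : EE c H v 1 1 / n ^ 2 ≤ τ ^ 2 ∨ EE c H v 2 2 / n ^ 2 ≤ τ ^ 2 := key 1
    have k2 : EE c H v 2 2 / n ^ 2 ≤ τ ^ 2 ∨ EE c H v 0 0 / n ^ 2 ≤ τ ^ 2 := key 2
    by_cases q0 : EE c H v 0 0 / n ^ 2 ≤ τ ^ 2
    · by_cases q1 : EE c H v 1 1 / n ^ 2 ≤ τ ^ 2
      · exact ⟨2, q0, q1⟩
      · exact ⟨1, (k1.resolve_left q1), q0⟩
    · exact ⟨0, k0.resolve_left q0, k2.resolve_right q0⟩
  obtain ⟨j, hj1, hj2⟩ := h2
  refine ⟨j + 1, close_of A v j ?_⟩
  have b0 := quot_bounds A j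
  have b1 := quot_bounds A (j + 1)
  have b2 := quot_bounds A (j + 2)
  have f0 := EE_quot A v j (j + 1)
  have f1 := EE_quot A v (j + 1) (j + 2)
  have f2 := EE_quot A v (j + 2) j
  exact num54 hτ0 hτ he0.le hε2 b0.1 b0.2 b1.1 b1.2 b2.1 b2.2 f0.1 f1.1 f2.1 f0.2 f1.2 f2.2 hj1 hj2
    (inner_quot A v j) (trans_quot A v j) (deg_quot A v j hdeg)

end

end Pool.Agent.R105.TP
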