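import Pool.Agent.R105.TP.L33

/-! The link lemma for `F_{3,3}`. -/

set_option autoImplicit false
set_option linter.unusedVariables false
set_option linter.unusedSectionVars false

open Finset
open scoped Classical

namespace Pool.Agent.R105.TP
open Pool.Agent.Y439.Loc hiding sum_nonneg'
open Pool.Agent.Y903.TX

/-- The edges of `F_{3,3}`: the triple `345` and the nine triples with two vertices in `0, 1, 2` and
one in `3, 4, 5`. -/
def E33 : List Ed :=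
  [(3, 4, 5), (0, 1, 3), (0, 2, 3), (1, 2, 3), (0, 1, 4), (0, 2, 4), (1, 2, 4), (0, 1, 5),
    (0, 2, 5), (1, 2, 5)]

set_option maxHeartbeats 4000000 in
/-- numbers -/
theorem num33 {s0 s1 s2 E0 E1 E2 F0 F1 F2 ε η θ : ℝ} (hε0 : 0 < ε) (hεη : ε ≤ η)
    (hη : 10 ^ 6 * η ≤ θ ^ 2) (hθ0 : 0 < θ) (hθ : θ ≤ 1 / 10 ^ 4)
    (a0 : 1 / 3 - ε ≤ s0) (b0 : s0 ≤ 1 / 3 + 2 * ε) (a1 : 1 / 3 - ε ≤ s1)
    (b1 : s1 ≤ 1 / 3 + 2 * ε) (a2 : 1 / 3 - ε ≤ s2) (b2 : s2 ≤ 1 / 3 + 2 * ε)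
    (f0 : 0 ≤ F0) (f1 : 0 ≤ F1) (f2 : 0 ≤ F2) (g0 : F0 ≤ s0 * s1) (g1 : F1 ≤ s1 * s2)
    (g2 : F2 ≤ s2 * s0) (hE0 : E0 ≤ θ / 8) (hE1 : θ < E1) (hE1' : E1 ≤ s1 * s1)
    (hE2 : 0 ≤ E2) (hE2' : E2 ≤ s2 * s2)
    (hv : (s2 * s0 - F2) * E1 ≤ s1 * (s1 * (2 * (s2 * s0) - F2) - s0 * F1 - s2 * F0) + 2 * η)
    (h4 : 2 * E1 ^ 2 ≤ s1 * (s1 * E1 + η))
    (hin : s0 ^ 2 * E2 + F2 ^ 2 ≤ s0 ^ 2 * s2 ^ 2 + s0 * ε)
    (hdeg : 5 / 9 - ε ≤ E0 + E1 + E2 + 2 * (F0 + F1 + F2)) : False := by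
  have hθ2 : θ ^ 2 ≤ 1 / 10 ^ 4 * θ := by
    rw [sq]; exact mul_le_mul_of_nonneg_right hθ hθ0.le
  have hη1 : η ≤ θ / 10 ^ 10 := by linarith
  have hη0 : 0 < η := by linarith
  have hε1 : ε ≤ 1 / 10 ^ 10 := by linarith
  have hεε : ε * ε ≤ 1 / 10 ^ 10 * ε := mul_le_mul_of_nonneg_right hε1 hε0.le
  have hεε0 : 0 ≤ ε * ε := mul_nonneg hε0.le hε0.le
  have up : ∀ {x y : ℝ}, 1 / 3 - ε ≤ x → x ≤ 1 / 3 + 2 * ε → 1 / 3 - ε ≤ y →
      y ≤ 1 / 3 + 2 * ε → 1 / 9 - ε ≤ x * y ∧ x * y ≤ 1 / 9 + 2 * ε := by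
    intro x y x1 x2 y1 y2
    constructor
    · have := mul_le_mul x1 y1 (by linarith) (by linarith)
      linarith
    · have := mul_le_mul x2 y2 (by linarith) (by linarith)
      linarith
  obtain ⟨p1, p2⟩ := up a1 b1 a1 b1
  obtain ⟨q1, q2⟩ := up a2 b2 a0 b0
  obtain ⟨r1, r2⟩ := up a1 b1 a0 b0
  obtain ⟨t1, t2⟩ := up a1 b1 a2 b2
  obtain ⟨u1, u2⟩ := up a0 b0 a0 b0
  obtain ⟨w1, w2⟩ := up a2 b2 a2 b2
  have hF2 : F2 ≤ 1 / 8 := by linarith
  have hF1 : F1 ≤ 1 / 8 := by linarith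
  have hF0 : F0 ≤ 1 / 8 := by
    have : s0 * s1 = s1 * s0 := mul_comm _ _
    linarith
  have hE1u : E1 ≤ 1 / 8 := by linarith
  have hE2u : E2 ≤ 1 / 8 := by linarith
  -- step 1
  have k1 : s1 * s1 * (2 * (s2 * s0) - F2) ≤ (1 / 9 + 2 * ε) * (2 * (1 / 9 + 2 * ε) - F2) :=
    mul_le_mul p2 (by linarith) (by linarith) (by linarith)
  have k2 : (1 / 9 - ε) * F1 ≤ s1 * s0 * F1 := mul_le_mul_of_nonneg_right r1 f1
  have k3 : (1 / 9 - ε) * F0 ≤ s1 * s2 * F0 := mul_le_mul_of_nonneg_right t1 f0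
  have k4 : (1 / 9 - ε - F2) * E1 ≤ (s2 * s0 - F2) * E1 :=
    mul_le_mul_of_nonneg_right (by linarith) (by linarith)
  have k5 : ε * F1 ≤ ε * (1 / 8) := mul_le_mul_of_nonneg_left hF1 hε0.le
  have k6 : ε * F0 ≤ ε * (1 / 8) := mul_le_mul_of_nonneg_left hF0 hε0.le
  have k7 : ε * E1 ≤ ε * (1 / 8) := mul_le_mul_of_nonneg_left hE1u hε0.le
  have k8 : 0 ≤ ε * F2 := mul_nonneg hε0.le f2
  have hv' : (s2 * s0 - F2) * E1 ≤ s1 * s1 * (2 * (s2 * s0) - F2) - s1 * s0 * F1 -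
      s1 * s2 * F0 + 2 * η := by
    refine hv.trans (le_of_eq ?_)
    ring
  have step1 : F0 + F1 + F2 ≤ 2 / 9 - (1 - 9 * F2) * E1 + 30 * η := by
    have h1 := k4.trans hv'
    have h2 : (1 / 9 - ε - F2) * E1 ≤ (1 / 9 + 2 * ε) * (2 * (1 / 9 + 2 * ε) - F2) -
        (1 / 9 - ε) * F1 - (1 / 9 - ε) * F0 + 2 * η := by linarith
    clear hv hv' k1 k2 k3 k4 h1 hin hdeg h4 hE1' hE2' g0 g1 g2
    linarith
  -- step 2
  have l1 : (1 / 9 - ε) * E2 ≤ s0 ^ 2 * E2 := by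
    rw [sq]; exact mul_le_mul_of_nonneg_right u1 hE2
  have l2 : s0 ^ 2 * s2 ^ 2 ≤ (1 / 9 + 2 * ε) * (1 / 9 + 2 * ε) := by
    rw [sq, sq]; exact mul_le_mul u2 w2 (mul_self_nonneg _) (by linarith)
  have l3 : s0 * ε ≤ 1 * ε := mul_le_mul_of_nonneg_right (by linarith) hε0.le
  have l4 : ε * E2 ≤ ε * (1 / 8) := mul_le_mul_of_nonneg_left hE2u hε0.le
  have step2 : E2 ≤ 1 / 9 - 9 * F2 ^ 2 + 27 * η := by
    have h1 : (1 / 9 - ε) * E2 + F2 ^ 2 ≤ (1 / 9 + 2 * ε) * (1 / 9 + 2 * ε) + 1 * ε := by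
      linarith
    clear hv hv' k1 k2 k3 k4 l1 l2 l3 hin hdeg h4 hE1' hE2' g0 g1 g2
    linarith
  -- step 3
  have step3 : 9 * F2 ^ 2 ≤ θ / 8 + E1 * (18 * F2 - 1) + 100 * η := by
    clear hv hv' k1 k2 k3 k4 l1 l2 l3 hin h4 hE1' hE2' g0 g1 g2
    linarith
  -- step 4
  have step4 : E1 ≤ 1 / 18 + θ := by
    by_contra hcon
    push Not at hcon
    have m1 : s1 * η ≤ 1 * η := mul_le_mul_of_nonneg_right (by linarith) hη0.le
    have m2 : s1 * s1 * E1 ≤ (1 / 9 + 2 * ε) * E1 := mul_le_mul_of_nonneg_right p2 (by linarith)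
    have m3 : θ * θ ≤ θ * E1 := mul_le_mul_of_nonneg_left hE1.le hθ0.le
    have m4 : (1 / 18 + θ) * E1 ≤ E1 * E1 := mul_le_mul_of_nonneg_right hcon.le (by linarith)
    have m5 : 2 * (E1 * E1) ≤ s1 * s1 * E1 + s1 * η := by
      have : s1 * (s1 * E1 + η) = s1 * s1 * E1 + s1 * η := by ring
      rw [← this]
      calc 2 * (E1 * E1) = 2 * E1 ^ 2 := by ring
        _ ≤ _ := h4
    have m6 : 0 < θ * θ := mul_pos hθ0 hθ0
    have m7 : 10 ^ 6 * η ≤ θ * θ := by rw [← sq]; exact hη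
    have m8 : 2 * (E1 * E1) ≤ (1 / 9 + 2 * ε) * E1 + 1 * η := by linarith
    clear hv hv' k1 k2 k3 k4 l1 l2 l3 hin h4 hE1' hE2' g0 g1 g2 step1 step2 step3 hη hdeg m1 m2 m5
    linarith
  clear hv hv' k1 k2 k3 k4 l1 l2 l3 hin h4 hE1' hE2' g0 g1 g2 step1 step2 hdeg
  -- step 5
  by_cases c1 : F2 ≤ 1 / 36
  · have : E1 * (18 * F2 - 1) ≤ E1 * (-(1 / 2)) :=
      mul_le_mul_of_nonneg_left (by linarith) (by linarith)
    have := sq_nonneg F2
    linarith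
  · push Not at c1
    by_cases c2 : F2 ≤ 1 / 18
    · have : E1 * (18 * F2 - 1) ≤ E1 * 0 :=
        mul_le_mul_of_nonneg_left (by linarith) (by linarith)
      have : (1 / 36 : ℝ) ^ 2 ≤ F2 ^ 2 := pow_le_pow_left₀ (by norm_num) c1.le 2
      norm_num at this
      linarith
    · push Not at c2
      have h1 : E1 * (18 * F2 - 1) ≤ (1 / 18 + θ) * (18 * F2 - 1) :=
        mul_le_mul_of_nonneg_right step4 (by linarith)
      have h2 : θ * (18 * F2 - 1) ≤ θ * 2 := mul_le_mul_of_nonneg_left (by linarith) hθ0.le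
      have h3 := sq_nonneg (F2 - 1 / 18)
      have h5 : (F2 - 1 / 18) ^ 2 = F2 ^ 2 - F2 / 9 + 1 / 324 := by ring
      have h6 : (1 / 18 + θ) * (18 * F2 - 1) = F2 - 1 / 18 + θ * (18 * F2 - 1) := by ring
      rw [h5] at h3
      rw [h6] at h1
      linarith

section
variable {V : Type} [Fintype V] {c : V → Fin 3} {H : V → V → V → Prop} {n ε : ℝ}

theorem TT_card (v : V) (p q r : Fin 3) : TT c H v p q r =
    ((univ.filter fun a : V × V × V => (c a.1 = p ∧ c a.2.1 = q ∧ c a.2.2 = r) ∧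
      Tr H v a.1 a.2.1 a.2.2).card : ℝ) := by
  rw [← ind_sum_card]
  unfold TT
  simp only [Fintype.sum_prod_type]

theorem EE_card (v : V) (p q : Fin 3) : Pool.Agent.Y903.TX.EE c H v p q =
    ((univ.filter fun a : V × V => (c a.1 = p ∧ c a.2 = q) ∧ H v a.1 a.2).card : ℝ) := by
  rw [← ind_sum_card]
  unfold Pool.Agent.Y903.TX.EE
  simp only [Fintype.sum_prod_type]

/-- a triangle and an edge of the link -/
theorem tri_bound (A : Near c H n ε) (h1n : 1 ≤ ε * n) (hF : FreeR E33 H) (v : V)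
    {p q r m : Fin 3} (h1 : tb p q m = true) (h2 : tb p r m = true) (h3 : tb q r m = true) :
    TT c H v p q r * Pool.Agent.Y903.TX.EE c H v m m ≤ 25 * (ε * n ^ 5) := by
  set g : Fin 6 → Fin 3 := ![p, q, r, 0, m, m] with hg
  set A0 : Finset (Fin 6 → V) := univ.filter fun f => (f 3 = v ∧ ∀ i, i ≠ 3 → c (f i) = g i) ∧
    Tr H v (f 0) (f 1) (f 2) ∧ H v (f 4) (f 5) with hA0
  have hup := link_upper A h1n v 3 g
    [(0, 1, 4), (0, 2, 4), (1, 2, 4), (0, 1, 5), (0, 2, 5), (1, 2, 5)] (by norm_num) (by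
      intro e he
      simp only [List.mem_cons, List.not_mem_nil, or_false] at he
      rcases he with rfl | rfl | rfl | rfl | rfl | rfl
      · exact ⟨by decide, by decide, h1⟩
      · exact ⟨by decide, by decide, h2⟩
      · exact ⟨by decide, by decide, h3⟩
      · exact ⟨by decide, by decide, h1⟩
      · exact ⟨by decide, by decide, h2⟩
      · exact ⟨by decide, by decide, h3⟩) A0 (fun f hf => (mem_filter.1 hf).2.1) (by
      intro f hf hinj he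
      obtain ⟨⟨e1, -⟩, ⟨t1, t2, t3⟩, e2⟩ := (mem_filter.1 hf).2
      simp only [List.mem_cons, List.not_mem_nil, or_false, forall_eq_or_imp, forall_eq] at he
      obtain ⟨l1, l2, l3, l4, l5, l6⟩ := he
      have S := A.S
      have rot : ∀ {a b : V}, H v a b → H a b v := fun h => S.s2 _ _ _ (S.s1 _ _ _ h)
      refine hF f hinj fun e he => ?_
      unfold E33 at he
      simp only [List.mem_cons, List.not_mem_nil, or_false] at he
      rcases he with rfl | rfl | rfl | rfl | rfl | rfl | rfl | rfl | rfl | rfl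
      · show H (f 3) (f 4) (f 5)
        rw [e1]; exact e2
      · show H (f 0) (f 1) (f 3)
        rw [e1]; exact rot t1
      · show H (f 0) (f 2) (f 3)
        rw [e1]; exact rot t2
      · show H (f 1) (f 2) (f 3)
        rw [e1]; exact rot t3
      · exact l1
      · exact l2
      · exact l3
      · exact l4
      · exact l5
      · exact l6)
  refine le_trans ?_ hup
  rw [TT_card, EE_card]
  rw [← Nat.cast_mul, ← card_product]
  refine Nat.cast_le.2 (card_le_card_of_injOn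
    (fun a => ![a.1.1, a.1.2.1, a.1.2.2, v, a.2.1, a.2.2]) ?_ ?_)
  · rintro ⟨⟨x, y, z⟩, ⟨w, w'⟩⟩ ha
    simp only [coe_product, Set.mem_prod, mem_coe, mem_filter, mem_univ, true_and] at ha
    obtain ⟨⟨⟨c1, c2, c3⟩, ht⟩, ⟨c4, c5⟩, hw⟩ := ha
    rw [mem_coe, hA0, mem_filter]
    refine ⟨mem_univ _, ⟨rfl, fun i hi => ?_⟩, ht, hw⟩
    rw [hg]
    fin_cases i
    · exact c1
    · exact c2
    · exact c3
    · exact absurd rfl hi
    · exact c4
    · exact c5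
  · rintro ⟨⟨x, y, z⟩, ⟨w, w'⟩⟩ _ ⟨⟨x', y', z'⟩, ⟨u, u'⟩⟩ _ h
    have e0 := congrFun h 0
    have e1 := congrFun h 1
    have e2 := congrFun h 2
    have e4 := congrFun h 4
    have e5 := congrFun h 5
    simp at e0 e1 e2 e4 e5
    rw [e0, e1, e2, e4, e5]

theorem types : ∀ p q r : Fin 3, tb p q r = true ∨ (q = p ∧ r = p) ∨ (q = p ∧ r = p + 2) ∨
    (r = p ∧ q = p + 2) ∨ (r = q ∧ p = q + 2) := by decide
theorem tb_x : ∀ k : Fin 3, tb k (k + 2) (k + 1) = true := by decide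

/-- at most one class has inner edges -/
theorem two_inner (A : Near c H n ε) (h1n : 1 ≤ ε * n) (hF : FreeR E33 H) {θ : ℝ} (hθ0 : 0 < θ)
    (hθ : θ ≤ 1 / 10 ^ 4) (hε : 10 ^ 10 * ε ≤ θ ^ 3) (v : V)
    (hdeg : (5 / 9 - ε) * n ^ 2 ≤ deg H v) (k : Fin 3) :
    Pool.Agent.Y903.TX.EE c H v k k / n ^ 2 ≤ θ ∨
      Pool.Agent.Y903.TX.EE c H v (k + 1) (k + 1) / n ^ 2 ≤ θ := by
  have hp := A.pos
  have he0 := A.e0
  have hn2 : (0 : ℝ) < n ^ 2 := by positivity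
  have hn3 : (0 : ℝ) < n ^ 3 := by positivity
  by_contra hcon
  push Not at hcon
  obtain ⟨hk, hk1⟩ := hcon
  obtain ⟨η, hη⟩ : ∃ η : ℝ, η = 200 * ε / θ := ⟨_, rfl⟩
  have hηθ : η * θ = 200 * ε := by rw [hη]; field_simp
  have hη0 : 0 < η := by rw [hη]; positivity
  have hη1 : 10 ^ 6 * η ≤ θ ^ 2 := by
    refine le_of_mul_le_mul_right ?_ hθ0
    calc 10 ^ 6 * η * θ = 10 ^ 6 * (200 * ε) := by rw [mul_assoc, hηθ]
      _ ≤ 10 ^ 10 * ε := by linarith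
      _ ≤ θ ^ 3 := hε
      _ = θ ^ 2 * θ := by ring
  have hεη : ε ≤ η := by
    by_contra h
    push Not at h
    have h1 : η * θ ≤ η * 1 := mul_le_mul_of_nonneg_left (by linarith) hη0.le
    linarith
  -- triangles are rare
  have small : ∀ j : Fin 3, θ / 8 < Pool.Agent.Y903.TX.EE c H v (j + 1) (j + 1) / n ^ 2 →
      TT c H v j j j ≤ η * n ^ 3 ∧ TT c H v j j (j + 2) ≤ η * n ^ 3 := by
    intro j hj
    rw [lt_div_iff₀ hn2] at hj
    have gen : ∀ {t : ℝ}, 0 ≤ t → t * Pool.Agent.Y903.TX.EE c H v (j + 1) (j + 1) ≤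
        25 * (ε * n ^ 5) → t ≤ η * n ^ 3 := by
      intro t ht h
      have h1 : t * (θ / 8 * n ^ 2) ≤ 25 * (ε * n ^ 5) :=
        (mul_le_mul_of_nonneg_left hj.le ht).trans h
      refine le_of_mul_le_mul_right ?_ (show 0 < θ / 8 * n ^ 2 by positivity)
      refine h1.trans (le_of_eq ?_)
      calc 25 * (ε * n ^ 5) = (200 * ε) / 8 * n ^ 5 := by ring
        _ = (η * θ) / 8 * n ^ 5 := by rw [hηθ]
        _ = η * n ^ 3 * (θ / 8 * n ^ 2) := by ring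
    exact ⟨gen (TT_nonneg _ _ _ _) (tri_bound A h1n hF v (tb_in j) (tb_in j) (tb_in j)),
      gen (TT_nonneg _ _ _ _) (tri_bound A h1n hF v (tb_in j) (tb_x j) (tb_x j))⟩
  obtain ⟨t1, t2⟩ := small k (by linarith)
  have hWD : WD c H ≤ η * n ^ 3 := A.hD.trans (mul_le_mul_of_nonneg_right hεη hn3.le)
  by_cases hk2 : θ / 8 < Pool.Agent.Y903.TX.EE c H v (k + 2) (k + 2) / n ^ 2
  · -- three classes
    have all : ∀ j : Fin 3, TT c H v j j j ≤ η * n ^ 3 ∧ TT c H v j j (j + 2) ≤ η * n ^ 3 := by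
      intro j
      refine small j ?_
      have hj : ∀ k j : Fin 3, j + 1 = k ∨ j + 1 = k + 1 ∨ j + 1 = k + 2 := by decide
      rcases hj k j with h | h | h
      · rw [h]; linarith
      · rw [h]; linarith
      · rw [h]; exact hk2
    have hall : ∀ p q r, TT c H v p q r ≤ η * n ^ 3 := by
      intro p q r
      rcases types p q r with h | ⟨h, h'⟩ | ⟨h, h'⟩ | ⟨h, h'⟩ | ⟨h, h'⟩
      · exact (TT_WD A.S v h).trans hWD
      · rw [h, h']; exact (all p).1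
      · rw [h, h']; exact (all p).2
      · rw [h, h', TT_sw' A.S]; exact (all p).2
      · rw [h, h', TT_sw A.S, TT_sw' A.S]; exact (all q).2
    have g1 := goodman A.S A.hn v
    have g2 := T3_le v hall
    have hD0 : 0 < deg H v := by
      refine lt_of_lt_of_le ?_ hdeg
      have : (0 : ℝ) < 5 / 9 - ε := by nlinarith
      positivity
    have hη2 : η ≤ 1 / 10 ^ 6 := by nlinarith
    have hε2 : ε ≤ 1 / 10 ^ 6 := hεη.trans hη2
    have g3 : 2 * deg H v ^ 2 ≤ n * (n * deg H v + 27 * (η * n ^ 3)) :=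
      g1.trans (mul_le_mul_of_nonneg_left (by linarith) hp.le)
    have g4 : 27 * η ≤ 1 / 10 ^ 4 := by linarith
    have g5 : (55 / 100) * n ^ 2 ≤ deg H v := by
      refine le_trans (mul_le_mul_of_nonneg_right ?_ hn2.le) hdeg
      linarith
    have g6 : n * (n * deg H v + 27 * (η * n ^ 3)) ≤ n ^ 2 * deg H v + 1 / 10 ^ 4 * n ^ 4 := by
      have : 27 * η * n ^ 4 ≤ 1 / 10 ^ 4 * n ^ 4 := mul_le_mul_of_nonneg_right g4 (by positivity)
      nlinarith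
    have g7 : deg H v * ((55 / 100) * n ^ 2) ≤ deg H v * deg H v :=
      mul_le_mul_of_nonneg_left g5 hD0.le
    have g8 : (55 / 100) * n ^ 2 * n ^ 2 ≤ deg H v * n ^ 2 :=
      mul_le_mul_of_nonneg_right g5 hn2.le
    have g9 : (0 : ℝ) < n ^ 4 := by positivity
    nlinarith
  · push Not at hk2
    have qb0 := quot_bounds A (k + 2)
    have qb1 := quot_bounds A k
    have qb2 := quot_bounds A (k + 1)
    have x0 := EE_quot A v (k + 2) k
    have x1 := EE_quot A v k (k + 1)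
    have x2 := EE_quot A v (k + 1) (k + 2)
    have x3 := EE_quot A v k k
    have x4 := EE_quot A v (k + 1) (k + 1)
    have ex : k + 1 + 1 = k + 2 := (fin_shift k).1
    have hin := inner_quot A v (k + 1)
    rw [ex] at hin
    have hdg := deg_quot A v k hdeg
    have hm := mainv A.S A.hn v k
    have hi := inner_tri A.S v k
    have hs1 : sz c (k + 1) ≤ n := sz_le A.hn _
    have hs2 : sz c (k + 2) ≤ n := sz_le A.hn _
    have hs0 : sz c k ≤ n := sz_le A.hn _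
    have z1 : 0 ≤ sz c (k + 1) := sz_nonneg _
    have z2 : 0 ≤ sz c (k + 2) := sz_nonneg _
    have z0 : 0 ≤ sz c k := sz_nonneg _
    have hn4 : (0 : ℝ) < n ^ 4 := by positivity
    have y1 : n * WD c H + (sz c (k + 2) * WD c H + sz c (k + 1) * TT c H v k k (k + 2)) / 2 ≤
        2 * η * n ^ 4 := by
      have w1 : n * WD c H ≤ n * (η * n ^ 3) := mul_le_mul_of_nonneg_left hWD hp.le
      have w2 : sz c (k + 2) * WD c H ≤ n * (η * n ^ 3) :=
        mul_le_mul hs2 hWD WD_nonneg hp.le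
      have w3 : sz c (k + 1) * TT c H v k k (k + 2) ≤ n * (η * n ^ 3) :=
        mul_le_mul hs1 t2 (TT_nonneg _ _ _ _) hp.le
      have w4 : n * (η * n ^ 3) = η * n ^ 4 := by ring
      rw [w4] at w1 w2 w3
      linarith
    refine num33 (s0 := sz c (k + 2) / n) (s1 := sz c k / n) (s2 := sz c (k + 1) / n)
      (E0 := Pool.Agent.Y903.TX.EE c H v (k + 2) (k + 2) / n ^ 2)
      (E1 := Pool.Agent.Y903.TX.EE c H v k k / n ^ 2)
      (E2 := Pool.Agent.Y903.TX.EE c H v (k + 1) (k + 1) / n ^ 2)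
      (F0 := Pool.Agent.Y903.TX.EE c H v (k + 2) k / n ^ 2)
      (F1 := Pool.Agent.Y903.TX.EE c H v k (k + 1) / n ^ 2)
      (F2 := Pool.Agent.Y903.TX.EE c H v (k + 1) (k + 2) / n ^ 2) he0 hεη hη1 hθ0 hθ
      qb0.1 qb0.2 qb1.1 qb1.2 qb2.1 qb2.2 x0.1 x1.1 x2.1 x0.2 x1.2 x2.2 hk2 hk x3.2 x4.1 x4.2
      ?_ ?_ hin ?_
    · refine le_of_mul_le_mul_right ?_ hn4
      have e1 : (sz c (k + 1) / n * (sz c (k + 2) / n) -
          Pool.Agent.Y903.TX.EE c H v (k + 1) (k + 2) / n ^ 2) *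
          (Pool.Agent.Y903.TX.EE c H v k k / n ^ 2) * n ^ 4 =
          (sz c (k + 1) * sz c (k + 2) - Pool.Agent.Y903.TX.EE c H v (k + 1) (k + 2)) *
            Pool.Agent.Y903.TX.EE c H v k k := by field_simp
      have e2 : (sz c k / n * (sz c k / n * (2 * (sz c (k + 1) / n * (sz c (k + 2) / n)) -
          Pool.Agent.Y903.TX.EE c H v (k + 1) (k + 2) / n ^ 2) -
          sz c (k + 2) / n * (Pool.Agent.Y903.TX.EE c H v k (k + 1) / n ^ 2) -
          sz c (k + 1) / n * (Pool.Agent.Y903.TX.EE c H v (k + 2) k / n ^ 2)) + 2 * η) * n ^ 4 =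
          sz c k * (sz c k * (2 * (sz c (k + 1) * sz c (k + 2)) -
            Pool.Agent.Y903.TX.EE c H v (k + 1) (k + 2)) -
          sz c (k + 2) * Pool.Agent.Y903.TX.EE c H v k (k + 1) -
          sz c (k + 1) * Pool.Agent.Y903.TX.EE c H v (k + 2) k) + 2 * η * n ^ 4 := by
        field_simp
      rw [e1, e2]
      linarith
    · refine le_of_mul_le_mul_right ?_ hn4
      have e1 : 2 * (Pool.Agent.Y903.TX.EE c H v k k / n ^ 2) ^ 2 * n ^ 4 =
          2 * Pool.Agent.Y903.TX.EE c H v k k ^ 2 := by field_simp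
      have e2 : sz c k / n * (sz c k / n * (Pool.Agent.Y903.TX.EE c H v k k / n ^ 2) + η) * n ^ 4 =
          sz c k * (sz c k * Pool.Agent.Y903.TX.EE c H v k k + η * n ^ 3) := by field_simp
      rw [e1, e2]
      exact hi.trans (mul_le_mul_of_nonneg_left (by linarith) z0)
    · linarith

/-- **Links.** -/
theorem link_33 (A : Near c H n eps0) (h1n : 1 ≤ eps0 * n) (hF : FreeR E33 H) (v : V)
    (hdeg : (5 / 9 - eps0) * n ^ 2 ≤ deg H v) :
    ∃ k, wr (Function.update c v k) H v ≤ 180 * tau0 * n ^ 2 := by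
  have he0 := A.e0
  have key : ∀ k, Pool.Agent.Y903.TX.EE c H v k k / n ^ 2 ≤ tau0 ^ 2 ∨
      Pool.Agent.Y903.TX.EE c H v (k + 1) (k + 1) / n ^ 2 ≤ tau0 ^ 2 := by
    refine two_inner A h1n hF (by have := tau0_pos; positivity) (by unfold tau0; norm_num) ?_ v hdeg
    have h1 := eps_tau
    have h2 : tau0 ^ 24 ≤ (tau0 ^ 2) ^ 3 := by
      rw [← pow_mul]
      exact pow_le_pow_of_le_one tau0_pos.le (by unfold tau0; norm_num) (by norm_num)
    have h3 : (10 : ℝ) ^ 10 * eps0 ≤ 10 ^ 40 * eps0 :=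
      mul_le_mul_of_nonneg_right (by norm_num) he0.le
    linarith
  have h2 : ∃ j : Fin 3, Pool.Agent.Y903.TX.EE c H v (j + 1) (j + 1) / n ^ 2 ≤ tau0 ^ 2 ∧
      Pool.Agent.Y903.TX.EE c H v (j + 2) (j + 2) / n ^ 2 ≤ tau0 ^ 2 := by
    have k0 : Pool.Agent.Y903.TX.EE c H v 0 0 / n ^ 2 ≤ tau0 ^ 2 ∨
        Pool.Agent.Y903.TX.EE c H v 1 1 / n ^ 2 ≤ tau0 ^ 2 := key 0
    have k1 : Pool.Agent.Y903.TX.EE c H v 1 1 / n ^ 2 ≤ tau0 ^ 2 ∨
        Pool.Agent.Y903.TX.EE c H v 2 2 / n ^ 2 ≤ tau0 ^ 2 := key 1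
    have k2 : Pool.Agent.Y903.TX.EE c H v 2 2 / n ^ 2 ≤ tau0 ^ 2 ∨
        Pool.Agent.Y903.TX.EE c H v 0 0 / n ^ 2 ≤ tau0 ^ 2 := key 2
    by_cases q0 : Pool.Agent.Y903.TX.EE c H v 0 0 / n ^ 2 ≤ tau0 ^ 2
    · by_cases q1 : Pool.Agent.Y903.TX.EE c H v 1 1 / n ^ 2 ≤ tau0 ^ 2
      · exact ⟨2, q0, q1⟩
      · exact ⟨1, (k1.resolve_left q1), q0⟩
    · exact ⟨0, k0.resolve_left q0, k2.resolve_right q0⟩
  obtain ⟨j, hj1, hj2⟩ := h2
  refine ⟨j + 1, close_of A v j ?_⟩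
  have b0 := quot_bounds A j
  have b1 := quot_bounds A (j + 1)
  have b2 := quot_bounds A (j + 2)
  have f0 := EE_quot A v j (j + 1)
  have f1 := EE_quot A v (j + 1) (j + 2)
  have f2 := EE_quot A v (j + 2) j
  have hε2 : eps0 ≤ tau0 ^ 2 := by
    have h1 := eps_tau
    have h2 : tau0 ^ 24 ≤ tau0 ^ 2 :=
      pow_le_pow_of_le_one tau0_pos.le (by unfold tau0; norm_num) (by norm_num)
    have h3 : eps0 ≤ 10 ^ 40 * eps0 := by linarith
    linarith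
  exact num54 tau0_pos (by unfold tau0; norm_num) he0.le hε2 b0.1 b0.2 b1.1 b1.2 b2.1 b2.2 f0.1
    f1.1 f2.1 f0.2 f1.2 f2.2 hj1 hj2 (inner_quot A v j) (trans_quot A v j) (deg_quot A v j hdeg)

end

end Pool.Agent.R105.TP
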