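import Pool.Agent.R105.TP.Emb

/-! Pairs of vertices in many edges of a wrong type, and links. -/

set_option autoImplicit false
set_option linter.unusedVariables false
set_option linter.unusedSectionVars false

open Finset
open scoped Classical

namespace Pool.Agent.R105.TP
open Pool.Agent.Y439.Loc hiding sum_nonneg'
open Pool.Agent.Y903.TX

variable {V : Type} [Fintype V] {c : V → Fin 3} {H : V → V → V → Prop} {n σ ε : ℝ}

theorem sz_card (k : Fin 3) : sz c k = ((univ.filter fun x => c x = k).card : ℝ) := by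
  unfold sz
  rw [ind_sum_card]

theorem WD_le (A : Vx c H n σ) : WD c H ≤ σ ^ 2 * n ^ 3 := by
  rw [WD_wr]
  have h1 : ∑ v, wr c H v ≤ ∑ _v : V, σ ^ 2 * n ^ 2 := sum_le_sum fun v _ => A.hw v
  rw [csum A.hn] at h1
  calc ∑ v, wr c H v ≤ n * (σ ^ 2 * n ^ 2) := h1
    _ = σ ^ 2 * n ^ 3 := by ring

/-- a lower bound for a product over the places -/
theorem prod_low (t : Fin 6 → Finset V) (R : Finset (Fin 6)) {a : ℝ} (ha : 0 ≤ a)
    (h : ∀ i ∈ R, a ≤ ((t i).card : ℝ)) :
    (∏ i ∈ univ \ R, ((t i).card : ℝ)) * a ^ R.card ≤ ((Fintype.piFinset t).card : ℝ) := by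
  rw [Fintype.card_piFinset]
  push_cast
  rw [← prod_sdiff (subset_univ R)]
  refine mul_le_mul_of_nonneg_left ?_ (prod_nonneg fun i _ => Nat.cast_nonneg _)
  rw [← prod_const]
  exact prod_le_prod (fun i _ => ha) h

/-- **The star lemma.** -/
theorem star_le (A : Vx c H n σ) (hσ : σ ≤ 1 / 100) {x y : V} (hxy : x ≠ y) {p q s : Fin 6}
    (hpq : p ≠ q) (hps : p ≠ s) (hqs : q ≠ s) (g : Fin 6 → Fin 3) (hx : c x = g p) (hy : c y = g q)
    (L : List (Fin 6 × Fin 6 × Fin 6)) (hlen : L.length ≤ 10)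
    (hL : ∀ e ∈ L, (e.1 ≠ e.2.1 ∧ e.1 ≠ e.2.2 ∧ e.2.1 ≠ e.2.2) ∧
      (e.2.1 ≠ p ∧ e.2.1 ≠ q ∧ e.2.2 ≠ p ∧ e.2.2 ≠ q) ∧ tb (g e.1) (g e.2.1) (g e.2.2) = true)
    (hfree : ∀ f : Fin 6 → V, Function.Injective f → H (f p) (f q) (f s) →
      (∀ e ∈ L, H (f e.1) (f e.2.1) (f e.2.2)) → False) :
    (∑ z, ind (c z = g s ∧ H x y z)) * (n / 4) ^ 3 ≤ 25 * (σ ^ 2 * n ^ 4) := by
  have hn0 := A.pos
  set A0 : Finset (Fin 6 → V) := univ.filter fun f => (f p = x ∧ f q = y) ∧ H x y (f s) ∧
    ∀ i, i ≠ p → i ≠ q → c (f i) = g i with hA0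
  have hcl : ∀ f ∈ A0, ∀ i, c (f i) = g i := by
    intro f hf i
    obtain ⟨⟨h1, h2⟩, h3, h4⟩ := (mem_filter.1 hf).2
    by_cases hip : i = p
    · rw [hip, h1, hx]
    by_cases hiq : i = q
    · rw [hiq, h2, hy]
    exact h4 i hip hiq
  set ρ : Fin 6 → V := fun i => if i = p then x else y with hρ
  have hT : ∀ f ∈ A0, ∀ i ∈ ({p, q} : Finset (Fin 6)), f i = ρ i := by
    intro f hf i hi
    obtain ⟨⟨h1, h2⟩, -, -⟩ := (mem_filter.1 hf).2
    rw [mem_insert, mem_singleton] at hi
    rcases hi with rfl | rfl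
    · rw [h1, hρ]; simp
    · rw [h2, hρ]; simp [hpq.symm]
  have hTc : ({p, q} : Finset (Fin 6)).card = 2 := card_pair hpq
  have hρi : ∀ i ∈ ({p, q} : Finset (Fin 6)), ∀ j ∈ ({p, q} : Finset (Fin 6)), i ≠ j →
      ρ i ≠ ρ j := by
    intro i hi j hj hij
    rw [mem_insert, mem_singleton] at hi hj
    rcases hi with rfl | rfl <;> rcases hj with rfl | rfl
    · exact absurd rfl hij
    · rw [hρ]; simp only [if_true, if_neg hij.symm]; exact hxy
    · rw [hρ]; simp only [if_true, if_neg hij]; exact hxy.symm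
    · exact absurd rfl hij
  have hup : (A0.card : ℝ) ≤ (L.length + 15) * (σ ^ 2 * n ^ 4) := by
    refine gl (c := c) (H := H) L A0 ?_ (fun e he => (hL e he).1) ?_ ?_ ?_
    · intro f hf hinj he
      obtain ⟨⟨h1, h2⟩, h3, -⟩ := (mem_filter.1 hf).2
      exact hfree f hinj (by rw [h1, h2]; exact h3) he
    · intro f hf e he
      rw [hcl f hf, hcl f hf, hcl f hf]
      exact (hL e he).2.2
    · intro e he
      obtain ⟨⟨d1, d2, d3⟩, ⟨e1, e2, e3, e4⟩, -⟩ := hL e he
      by_cases h : e.1 ∈ ({p, q} : Finset (Fin 6))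
      · have h1 := bad1 (c := c) (H := H) A.hn A0 {p, q} ρ hT h (by simp [e1, e2])
          (by simp [e3, e4]) d3 (m := 2) (by rw [hTc])
        refine h1.trans ?_
        have h2 := mul_le_mul_of_nonneg_right (A.hw (ρ e.1)) (show 0 ≤ n ^ 2 by positivity)
        calc wr c H (ρ e.1) * n ^ 2 ≤ σ ^ 2 * n ^ 2 * n ^ 2 := h2
          _ = σ ^ 2 * n ^ 4 := by ring
      · have h1 := bad0 (c := c) (H := H) A.hn A0 {p, q} ρ hT h (by simp [e1, e2])
          (by simp [e3, e4]) d1 d2 d3 (m := 1) (by rw [hTc])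
        refine h1.trans ?_
        have h2 := mul_le_mul_of_nonneg_right (WD_le A) hn0.le
        calc WD c H * n ^ 1 ≤ σ ^ 2 * n ^ 3 * n := by rw [pow_one]; exact h2
          _ = σ ^ 2 * n ^ 4 := by ring
    · intro i j hij
      have h1 := badE A.hn A0 {p, q} ρ hT hρi hij.ne (m := 3) (by rw [hTc])
      refine h1.trans ?_
      have h2 := mul_le_mul_of_nonneg_right A.big (show 0 ≤ n ^ 3 by positivity)
      calc n ^ 3 = 1 * n ^ 3 := by ring
        _ ≤ σ ^ 2 * n * n ^ 3 := h2
        _ = σ ^ 2 * n ^ 4 := by ring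
  have h25 : (L.length + 15) * (σ ^ 2 * n ^ 4) ≤ 25 * (σ ^ 2 * n ^ 4) := by
    refine mul_le_mul_of_nonneg_right ?_ (by positivity)
    have : (L.length : ℝ) ≤ 10 := by exact_mod_cast hlen
    linarith
  refine le_trans ?_ (hup.trans h25)
  -- the lower bound
  set Z : Finset V := univ.filter fun z => c z = g s ∧ H x y z with hZ
  have hZc : ∑ z, ind (c z = g s ∧ H x y z) = (Z.card : ℝ) := ind_sum_card _
  set t : Fin 6 → Finset V := fun i => if i = p then {x} else if i = q then {y} else
    if i = s then Z else univ.filter fun z => c z = g i with ht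
  have hsub : Fintype.piFinset t ⊆ A0 := by
    intro f hf
    rw [Fintype.mem_piFinset] at hf
    have f1 := hf p
    have f2 := hf q
    have f3 := hf s
    simp only [ht, if_true, if_neg hpq.symm, if_neg hps.symm, if_neg hqs.symm, mem_singleton]
      at f1 f2 f3
    rw [hZ, mem_filter] at f3
    refine mem_filter.2 ⟨mem_univ _, ⟨f1, f2⟩, f3.2.2, fun i hip hiq => ?_⟩
    by_cases his : i = s
    · rw [his]; exact f3.2.1
    have f4 := hf i
    simp only [ht, if_neg hip, if_neg hiq, if_neg his, mem_filter] at f4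
    exact f4.2
  have hlow := prod_low t (univ \ {p, q, s}) (a := n / 4) (by positivity) (by
    intro i hi
    rw [mem_sdiff] at hi
    have hi2 := hi.2
    simp only [mem_insert, mem_singleton, not_or] at hi2
    simp only [ht, if_neg hi2.1, if_neg hi2.2.1, if_neg hi2.2.2]
    rw [← sz_card]
    exact size_prev A hσ (g i))
  have hc3 : ({p, q, s} : Finset (Fin 6)).card = 3 := card_eq_three.2 ⟨p, q, s, hpq, hps, hqs, rfl⟩
  have hR : (univ \ {p, q, s} : Finset (Fin 6)).card = 3 := by
    have e2 := card_sdiff_add_card_eq_card (subset_univ ({p, q, s} : Finset (Fin 6)))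
    rw [card_univ, Fintype.card_fin] at e2
    omega
  have hP : ∏ i ∈ univ \ (univ \ {p, q, s}), ((t i).card : ℝ) = Z.card := by
    have e : (univ \ (univ \ {p, q, s}) : Finset (Fin 6)) = {p, q, s} := by
      rw [sdiff_sdiff_right_self]
      simp
    rw [e, prod_insert (by simp [hpq, hps]), prod_insert (by simp [hqs]), prod_singleton]
    simp only [ht, if_true, if_neg hpq.symm, if_neg hps.symm, if_neg hqs.symm, card_singleton]
    push_cast
    ring
  rw [hP, hR] at hlow
  rw [hZc]
  exact hlow.trans (by exact_mod_cast card_le_card hsub)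

/-- the upper bound for sets of placements with a vertex as root -/
theorem link_upper (A : Near c H n ε) (h1n : 1 ≤ ε * n) (v : V) (u : Fin 6) (g : Fin 6 → Fin 3)
    (L : List (Fin 6 × Fin 6 × Fin 6)) (hlen : L.length ≤ 10)
    (hL : ∀ e ∈ L, (e.1 ≠ e.2.1 ∧ e.1 ≠ e.2.2 ∧ e.2.1 ≠ e.2.2) ∧
      (e.1 ≠ u ∧ e.2.1 ≠ u ∧ e.2.2 ≠ u) ∧ tb (g e.1) (g e.2.1) (g e.2.2) = true)
    (A0 : Finset (Fin 6 → V)) (hA : ∀ f ∈ A0, f u = v ∧ ∀ i, i ≠ u → c (f i) = g i)
    (hno : ∀ f ∈ A0, Function.Injective f → (∀ e ∈ L, H (f e.1) (f e.2.1) (f e.2.2)) → False) :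
    (A0.card : ℝ) ≤ 25 * (ε * n ^ 5) := by
  have hn0 := A.pos
  have he0 := A.e0
  have hT : ∀ f ∈ A0, ∀ i ∈ ({u} : Finset (Fin 6)), f i = (fun _ => v : Fin 6 → V) i := by
    intro f hf i hi
    rw [mem_singleton] at hi
    rw [hi]
    exact (hA f hf).1
  have hρ : ∀ i ∈ ({u} : Finset (Fin 6)), ∀ j ∈ ({u} : Finset (Fin 6)), i ≠ j →
      (fun _ => v : Fin 6 → V) i ≠ (fun _ => v : Fin 6 → V) j := by
    intro i hi j hj hij
    rw [mem_singleton] at hi hj
    exact absurd (hi.trans hj.symm) hij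
  have hup : (A0.card : ℝ) ≤ (L.length + 15) * (ε * n ^ 5) := by
    refine gl (c := c) (H := H) L A0 hno (fun e he => (hL e he).1) ?_ ?_ ?_
    · intro f hf e he
      obtain ⟨-, ⟨e1, e2, e3⟩, e4⟩ := hL e he
      rw [(hA f hf).2 _ e1, (hA f hf).2 _ e2, (hA f hf).2 _ e3]
      exact e4
    · intro e he
      obtain ⟨⟨d1, d2, d3⟩, ⟨e1, e2, e3⟩, -⟩ := hL e he
      have h1 := bad0 (c := c) (H := H) A.hn A0 {u} (fun _ => v) hT (by simpa using e1)
        (by simpa using e2) (by simpa using e3) d1 d2 d3 (m := 2) (by simp)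
      refine h1.trans ?_
      have h2 := mul_le_mul_of_nonneg_right A.hD (show 0 ≤ n ^ 2 by positivity)
      calc WD c H * n ^ 2 ≤ ε * n ^ 3 * n ^ 2 := h2
        _ = ε * n ^ 5 := by ring
    · intro i j hij
      have h1 := badE A.hn A0 {u} (fun _ => v) hT hρ hij.ne (m := 4) (by simp)
      refine h1.trans ?_
      have h2 := mul_le_mul_of_nonneg_right h1n (show 0 ≤ n ^ 4 by positivity)
      calc n ^ 4 = 1 * n ^ 4 := by ring
        _ ≤ ε * n * n ^ 4 := h2
        _ = ε * n ^ 5 := by ring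
  refine hup.trans (mul_le_mul_of_nonneg_right ?_ (by positivity))
  have : (L.length : ℝ) ≤ 10 := by exact_mod_cast hlen
  linarith

theorem dg_card (v : V) (k : Fin 3) (b : V) : dg c H v k b =
    ((univ.filter fun y => c y = k ∧ H v y b).card : ℝ) := by
  unfold dg
  rw [ind_sum_card]

/-- **Two link edges at a vertex.** -/
theorem link_star (A : Near c H n ε) (hε : ε ≤ 1 / 100) (h1n : 1 ≤ ε * n) (v : V)
    {u a b d : Fin 6} (hua : u ≠ a) (hub : u ≠ b) (hud : u ≠ d) (hab : a ≠ b) (had : a ≠ d)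
    (hbd : b ≠ d) (g : Fin 6 → Fin 3)
    (L : List (Fin 6 × Fin 6 × Fin 6)) (hlen : L.length ≤ 10)
    (hL : ∀ e ∈ L, (e.1 ≠ e.2.1 ∧ e.1 ≠ e.2.2 ∧ e.2.1 ≠ e.2.2) ∧
      (e.1 ≠ u ∧ e.2.1 ≠ u ∧ e.2.2 ≠ u) ∧ tb (g e.1) (g e.2.1) (g e.2.2) = true)
    (hfree : ∀ f : Fin 6 → V, Function.Injective f → H (f u) (f b) (f a) →
      H (f u) (f d) (f a) → (∀ e ∈ L, H (f e.1) (f e.2.1) (f e.2.2)) → False) :
    (∑ x, ind (c x = g a) * (dg c H v (g b) x * dg c H v (g d) x)) * (n / 4) ^ 2 ≤
      25 * (ε * n ^ 5) := by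
  have hn0 := A.pos
  set A0 : Finset (Fin 6 → V) := univ.filter fun f => (f u = v ∧ ∀ i, i ≠ u → c (f i) = g i) ∧
    H v (f b) (f a) ∧ H v (f d) (f a) with hA0
  have hup := link_upper A h1n v u g L hlen hL A0 (fun f hf => (mem_filter.1 hf).2.1) (by
    intro f hf hinj he
    obtain ⟨⟨h1, -⟩, h2, h3⟩ := (mem_filter.1 hf).2
    exact hfree f hinj (by rw [h1]; exact h2) (by rw [h1]; exact h3) he)
  refine le_trans ?_ hup
  have h1 : (A0.card : ℝ) = ∑ x, ((A0.filter fun f => f a = x).card : ℝ) := by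
    exact_mod_cast card_eq_sum_card_fiberwise (s := A0) (t := univ)
      (f := fun f : Fin 6 → V => f a) (fun f _ => mem_coe.2 (mem_univ _))
  rw [h1, sum_mul]
  refine sum_le_sum fun x _ => ?_
  by_cases hx : c x = g a
  · rw [ind_t hx, one_mul]
    set t : Fin 6 → Finset V := fun i => if i = u then {v} else if i = a then {x} else
      if i = b then univ.filter (fun y => c y = g b ∧ H v y x) else
      if i = d then univ.filter (fun y => c y = g d ∧ H v y x) else
      univ.filter fun z => c z = g i with ht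
    have hsub : Fintype.piFinset t ⊆ A0.filter fun f => f a = x := by
      intro f hf
      rw [Fintype.mem_piFinset] at hf
      have f1 := hf u
      have f2 := hf a
      have f3 := hf b
      have f4 := hf d
      simp only [ht, if_true, if_neg hua.symm, if_neg hub.symm, if_neg hud.symm, if_neg hab.symm,
        if_neg had.symm, if_neg hbd.symm, mem_singleton, mem_filter, mem_univ, true_and]
        at f1 f2 f3 f4
      refine mem_filter.2 ⟨mem_filter.2 ⟨mem_univ _, ⟨f1, fun i hi => ?_⟩, ?_, ?_⟩, f2⟩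
      · by_cases hia : i = a
        · rw [hia, f2, hx]
        by_cases hib : i = b
        · rw [hib]; exact f3.1
        by_cases hid : i = d
        · rw [hid]; exact f4.1
        have f5 := hf i
        simp only [ht, if_neg hi, if_neg hia, if_neg hib, if_neg hid, mem_filter] at f5
        exact f5.2
      · rw [f2]; exact f3.2
      · rw [f2]; exact f4.2
    have hlow := prod_low t (univ \ {u, a, b, d}) (a := n / 4) (by positivity) (by
      intro i hi
      rw [mem_sdiff] at hi
      have hi2 := hi.2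
      simp only [mem_insert, mem_singleton, not_or] at hi2
      simp only [ht, if_neg hi2.1, if_neg hi2.2.1, if_neg hi2.2.2.1, if_neg hi2.2.2.2]
      rw [← sz_card]
      have h2 := A.lo (g i)
      have h3 : 1 / 4 * n ≤ (1 / 3 - ε) * n :=
        mul_le_mul_of_nonneg_right (by linarith) hn0.le
      linarith)
    have hc4 : ({u, a, b, d} : Finset (Fin 6)).card = 4 := by
      rw [card_insert_of_notMem (by simp [hua, hub, hud]),
        card_eq_three.2 ⟨a, b, d, hab, had, hbd, rfl⟩]
    have hR : (univ \ {u, a, b, d} : Finset (Fin 6)).card = 2 := by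
      have e2 := card_sdiff_add_card_eq_card (subset_univ ({u, a, b, d} : Finset (Fin 6)))
      rw [card_univ, Fintype.card_fin] at e2
      omega
    have hP : ∏ i ∈ univ \ (univ \ {u, a, b, d}), ((t i).card : ℝ) =
        dg c H v (g b) x * dg c H v (g d) x := by
      have e : (univ \ (univ \ {u, a, b, d}) : Finset (Fin 6)) = {u, a, b, d} := by
        rw [sdiff_sdiff_right_self]
        simp
      rw [e, prod_insert (by simp [hua, hub, hud]), prod_insert (by simp [hab, had]),
        prod_insert (by simp [hbd]), prod_singleton]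
      simp only [ht, if_true, if_neg hua.symm, if_neg hub.symm, if_neg hud.symm, if_neg hab.symm,
        if_neg had.symm, if_neg hbd.symm, card_singleton]
      rw [dg_card, dg_card]
      push_cast
      ring
    rw [hP, hR] at hlow
    exact hlow.trans (by exact_mod_cast card_le_card hsub)
  · rw [ind_f hx, zero_mul, zero_mul]
    exact Nat.cast_nonneg _

/-- **Two disjoint link edges.** -/
theorem link_two (A : Near c H n ε) (hε : ε ≤ 1 / 100) (h1n : 1 ≤ ε * n) (v : V)
    {u a b d e : Fin 6} (hne : [u, a, b, d, e].Nodup) (g : Fin 6 → Fin 3)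
    (L : List (Fin 6 × Fin 6 × Fin 6)) (hlen : L.length ≤ 10)
    (hL : ∀ e ∈ L, (e.1 ≠ e.2.1 ∧ e.1 ≠ e.2.2 ∧ e.2.1 ≠ e.2.2) ∧
      (e.1 ≠ u ∧ e.2.1 ≠ u ∧ e.2.2 ≠ u) ∧ tb (g e.1) (g e.2.1) (g e.2.2) = true)
    (hfree : ∀ f : Fin 6 → V, Function.Injective f → H (f u) (f b) (f a) →
      H (f u) (f e) (f d) → (∀ e ∈ L, H (f e.1) (f e.2.1) (f e.2.2)) → False) :
    EE c H v (g b) (g a) * EE c H v (g e) (g d) * (n / 4) ≤ 25 * (ε * n ^ 5) := by
  have hn0 := A.pos
  simp only [List.nodup_cons, List.mem_cons, List.not_mem_nil, or_false, not_or,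
      not_false_eq_true, List.nodup_nil, and_true] at hne
  obtain ⟨⟨hua, hub, hud, hue⟩, ⟨hab, had, hae⟩, ⟨hbd, hbe⟩, hde⟩ := hne
  set A0 : Finset (Fin 6 → V) := univ.filter fun f => (f u = v ∧ ∀ i, i ≠ u → c (f i) = g i) ∧
    H v (f b) (f a) ∧ H v (f e) (f d) with hA0
  have hup := link_upper A h1n v u g L hlen hL A0 (fun f hf => (mem_filter.1 hf).2.1) (by
    intro f hf hinj he
    obtain ⟨⟨h1, -⟩, h2, h3⟩ := (mem_filter.1 hf).2
    exact hfree f hinj (by rw [h1]; exact h2) (by rw [h1]; exact h3) he)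
  refine le_trans ?_ hup
  have h1 : (A0.card : ℝ) = ∑ p : V × V, ((A0.filter fun f => (f a, f d) = p).card : ℝ) := by
    exact_mod_cast card_eq_sum_card_fiberwise (s := A0) (t := univ)
      (f := fun f : Fin 6 → V => (f a, f d)) (fun f _ => mem_coe.2 (mem_univ _))
  rw [h1, Fintype.sum_prod_type, EE_dg, EE_dg, sum_mul_sum, sum_mul]
  refine sum_le_sum fun x _ => ?_
  rw [sum_mul]
  refine sum_le_sum fun z _ => ?_
  by_cases hx : c x = g a
  · by_cases hz : c z = g d
    · rw [ind_t hx, one_mul, ind_t hz, one_mul]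
      set t : Fin 6 → Finset V := fun i => if i = u then {v} else if i = a then {x} else
        if i = b then univ.filter (fun y => c y = g b ∧ H v y x) else
        if i = d then {z} else if i = e then univ.filter (fun y => c y = g e ∧ H v y z) else
        univ.filter fun z => c z = g i with ht
      have hsub : Fintype.piFinset t ⊆ A0.filter fun f => (f a, f d) = (x, z) := by
        intro f hf
        rw [Fintype.mem_piFinset] at hf
        have f1 := hf u
        have f2 := hf a
        have f3 := hf b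
        have f4 := hf d
        have f6 := hf e
        simp only [ht, if_true, if_neg (Ne.symm hua), if_neg (Ne.symm hub), if_neg (Ne.symm hud),
          if_neg (Ne.symm hab), if_neg (Ne.symm had), if_neg (Ne.symm hbd), if_neg (Ne.symm hue),
          if_neg (Ne.symm hae), if_neg (Ne.symm hbe), if_neg (Ne.symm hde),
          mem_singleton, mem_filter, mem_univ, true_and] at f1 f2 f3 f4 f6
        refine mem_filter.2 ⟨mem_filter.2 ⟨mem_univ _, ⟨f1, fun i hi => ?_⟩, ?_, ?_⟩, ?_⟩
        · by_cases hia : i = a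
          · rw [hia, f2, hx]
          by_cases hib : i = b
          · rw [hib]; exact f3.1
          by_cases hid : i = d
          · rw [hid, f4, hz]
          by_cases hie : i = e
          · rw [hie]; exact f6.1
          have f5 := hf i
          simp only [ht, if_neg hi, if_neg hia, if_neg hib, if_neg hid, if_neg hie, mem_filter]
            at f5
          exact f5.2
        · rw [f2]; exact f3.2
        · rw [f4]; exact f6.2
        · rw [f2, f4]
      have hlow := prod_low t (univ \ {u, a, b, d, e}) (a := n / 4) (by positivity) (by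
        intro i hi
        rw [mem_sdiff] at hi
        have hi2 := hi.2
        simp only [mem_insert, mem_singleton, not_or] at hi2
        simp only [ht, if_neg hi2.1, if_neg hi2.2.1, if_neg hi2.2.2.1, if_neg hi2.2.2.2.1,
          if_neg hi2.2.2.2.2]
        rw [← sz_card]
        have h2 := A.lo (g i)
        have h3 : 1 / 4 * n ≤ (1 / 3 - ε) * n :=
          mul_le_mul_of_nonneg_right (by linarith) hn0.le
        linarith)
      have hc4 : ({u, a, b, d, e} : Finset (Fin 6)).card = 5 := by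
        rw [card_insert_of_notMem (by simp [hua, hub, hud, hue]),
          card_insert_of_notMem (by simp [hab, had, hae]),
          card_eq_three.2 ⟨b, d, e, hbd, hbe, hde, rfl⟩]
      have hR : (univ \ {u, a, b, d, e} : Finset (Fin 6)).card = 1 := by
        have e2 := card_sdiff_add_card_eq_card (subset_univ ({u, a, b, d, e} : Finset (Fin 6)))
        rw [card_univ, Fintype.card_fin] at e2
        omega
      have hP : ∏ i ∈ univ \ (univ \ {u, a, b, d, e}), ((t i).card : ℝ) =
          dg c H v (g b) x * dg c H v (g e) z := by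
        have e : (univ \ (univ \ {u, a, b, d, e}) : Finset (Fin 6)) = {u, a, b, d, e} := by
          rw [sdiff_sdiff_right_self]
          simp
        rw [e, prod_insert (by simp [hua, hub, hud, hue]), prod_insert (by simp [hab, had, hae]),
          prod_insert (by simp [hbd, hbe]), prod_insert (by simp [hde]), prod_singleton]
        simp only [ht, if_true, if_neg (Ne.symm hua), if_neg (Ne.symm hub), if_neg (Ne.symm hud),
          if_neg (Ne.symm hab), if_neg (Ne.symm had), if_neg (Ne.symm hbd), if_neg (Ne.symm hue),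
          if_neg (Ne.symm hae), if_neg (Ne.symm hbe), if_neg (Ne.symm hde), card_singleton]
        rw [dg_card, dg_card]
        push_cast
        ring
      rw [hP, hR, pow_one] at hlow
      exact hlow.trans (by exact_mod_cast card_le_card hsub)
    · rw [ind_f hz, zero_mul, mul_zero, zero_mul]
      exact Nat.cast_nonneg _
  · rw [ind_f hx, zero_mul, zero_mul, zero_mul]
    exact Nat.cast_nonneg _

end Pool.Agent.R105.TP
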