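import Pool.Agent.R105.TP.M33
import Pool.Agent.R105.TP.Cls

/-! Exact numbers for `F_{3,3}`. -/

set_option autoImplicit false
set_option linter.unusedVariables false
set_option linter.unusedSectionVars false
set_option maxRecDepth 100000

open Finset
open scoped Classical

namespace Pool.Agent.R105.TP
open Pool.Agent.Y439.Loc hiding sum_nonneg'
open Pool.Agent.Y903.TX
open Pool.Agent.TH773
open Pool.Agent.Y439

section
variable {V : Type} [Fintype V] {c : V → Fin 3} {H : V → V → V → Prop} {n : ℝ}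

/-- few reversed arcs at a vertex -/
theorem few_rev (A : Vx c H n sig0) {rev : V → V → Bool}
    (hF : ∀ x y z, H x y z ↔ FD c rev x y z) (x : V) :
    ∑ w, ind (c x = c w + 1 ∧ rev w x = true) ≤ n / 100 := by
  have hp := A.pos
  have h2 : (∑ w, ind (c x = c w + 1 ∧ rev w x = true)) * (sz c (c x) - 1) ≤ wr c H x := by
    rw [sum_mul]
    unfold wr
    refine sum_le_sum fun w _ => ?_
    by_cases h : c x = c w + 1 ∧ rev w x = true
    · rw [ind_t h, one_mul]
      have h3 : sz c (c x) ≤ ∑ a, (ind (¬ (H x w a ↔ Tu c x w a)) + ind (a = x)) := by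
        refine sum_le_sum fun a _ => ind_or fun ha => ?_
        by_cases hax : a = x
        · right; exact hax
        · left
          have h4 := revA A hF w x h.1 h.2 a ha hax
          intro h5
          apply h4
          constructor
          · intro h6
            exact FD_s1 (h5.1 (A.S.s1 _ _ _ h6))
          · intro h6
            exact A.S.s1 _ _ _ (h5.2 (FD_s1 h6))
      rw [sum_add_distrib, sum_ind_eq] at h3
      linarith
    · rw [ind_f h, zero_mul]
      exact sum_nonneg' fun _ => ind_nonneg _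
  have h3 := A.hw x
  have h4 := A.lo (c x)
  have h5 := A.big
  have hs1 : sig0 ^ 2 ≤ 1 / 100000 := by unfold sig0; norm_num
  have hs2 : sig0 ≤ 1 / 100 := by unfold sig0; norm_num
  have h6 : 1 ≤ 1 / 100000 * n := h5.trans (mul_le_mul_of_nonneg_right hs1 hp.le)
  have h7 : sig0 * n ≤ 1 / 100 * n := mul_le_mul_of_nonneg_right hs2 hp.le
  have h8 : n / 4 ≤ sz c (c x) - 1 := by nlinarith
  have h9 : 0 ≤ ∑ w, ind (c x = c w + 1 ∧ rev w x = true) := sum_nonneg' fun _ => ind_nonneg _
  have h10 : (∑ w, ind (c x = c w + 1 ∧ rev w x = true)) * (n / 4) ≤ n / 100 * (n / 4) := by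
    have e1 := mul_le_mul_of_nonneg_left h8 h9
    have e2 : sig0 ^ 2 * n ^ 2 ≤ 1 / 100000 * n ^ 2 :=
      mul_le_mul_of_nonneg_right hs1 (by positivity)
    nlinarith
  exact le_of_mul_le_mul_right h10 (by positivity)

theorem fd33a : ∀ (k : Fin 3) (r2 r3 r4 r5 : Bool),
    fdB k (k + 1) k false r2 r3 r4 r5 true = true := by decide
theorem fd33b : ∀ (k : Fin 3) (r1 r2 r3 r4 r5 : Bool),
    fdB (k + 1) (k + 1) k r1 r2 r3 r4 r5 true = true := by decide
theorem tb33 : ∀ k : Fin 3, tb k (k + 2) (k + 2) = true ∧ tb k (k + 1) (k + 2) = true ∧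
    tb (k + 1) k (k + 2) = true ∧ tb (k + 1) (k + 1) (k + 2) = true ∧
    tb k k (k + 1) = true := by decide

/-- no reversed arcs -/
theorem unique_33 (A : Vx c H n sig0) (hF : FreeR E33 H) {rev : V → V → Bool}
    (hR : ∀ x y z, H x y z ↔ FD c rev x y z) (x y z : V) : H x y z ↔ Tu c x y z := by
  have hp := A.pos
  have h2 : ∀ x y : V, c y = c x + 1 → rev x y = false := by
    intro x y hxy
    by_contra hr
    have hr' : rev x y = true := by simpa using hr
    have hne : x ≠ y := fun e => fin3_ne1 (c x) (by rw [← hxy, e])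
    set k := c x with hk
    set g : Fin 6 → Fin 3 := ![k, k + 1, k + 1, k + 2, k + 2, k] with hg
    set A0 : Finset (Fin 6 → V) := univ.filter fun f => (f 2 = y ∧ f 5 = x) ∧
      rev (f 0) y = false ∧ ∀ i, i ≠ 2 → i ≠ 5 → c (f i) = g i with hA0
    have hcl : ∀ f ∈ A0, ∀ i, c (f i) = g i := by
      intro f hf i
      obtain ⟨⟨h1, h2⟩, h3, h4⟩ := (mem_filter.1 hf).2
      by_cases hi2 : i = 2
      · rw [hi2, h1, hxy]; rfl
      by_cases hi5 : i = 5
      · rw [hi5, h2]; rfl
      exact h4 i hi2 hi5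
    set ρ : Fin 6 → V := fun i => if i = 2 then y else x with hρ
    have hT : ∀ f ∈ A0, ∀ i ∈ ({2, 5} : Finset (Fin 6)), f i = ρ i := by
      intro f hf i hi
      obtain ⟨⟨h1, h2⟩, -, -⟩ := (mem_filter.1 hf).2
      rw [mem_insert, mem_singleton] at hi
      rcases hi with rfl | rfl
      · rw [h1]; rfl
      · rw [h2]; rfl
    have hρi : ∀ i ∈ ({2, 5} : Finset (Fin 6)), ∀ j ∈ ({2, 5} : Finset (Fin 6)), i ≠ j →
        ρ i ≠ ρ j := by
      intro i hi j hj hij
      rw [mem_insert, mem_singleton] at hi hj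
      rcases hi with rfl | rfl <;> rcases hj with rfl | rfl
      · exact absurd rfl hij
      · show y ≠ x
        exact hne.symm
      · show x ≠ y
        exact hne
      · exact absurd rfl hij
    have hWDle := WD_le A
    have hB0 : 0 ≤ sig0 ^ 2 * n ^ 4 := by positivity
    obtain ⟨b1, b2, b3, b4, b5⟩ := tb33 k
    have hroot : ∀ a b d : Fin 6, a ∈ ({2, 5} : Finset (Fin 6)) → b ∉ ({2, 5} : Finset (Fin 6)) →
        d ∉ ({2, 5} : Finset (Fin 6)) → b ≠ d →
        ((A0.filter fun f => Df c H (f a) (f b) (f d)).card : ℝ) ≤ sig0 ^ 2 * n ^ 4 := by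
      intro a b d ha hb hd hbd
      have h1 := bad1 (c := c) (H := H) A.hn A0 {2, 5} ρ hT ha hb hd hbd (m := 2) (by decide)
      refine h1.trans ?_
      have h2 := mul_le_mul_of_nonneg_right (A.hw (ρ a)) (show 0 ≤ n ^ 2 by positivity)
      calc wr c H (ρ a) * n ^ 2 ≤ sig0 ^ 2 * n ^ 2 * n ^ 2 := h2
        _ = sig0 ^ 2 * n ^ 4 := by ring
    have hnor : ∀ a b d : Fin 6, a ∉ ({2, 5} : Finset (Fin 6)) → b ∉ ({2, 5} : Finset (Fin 6)) →
        d ∉ ({2, 5} : Finset (Fin 6)) → a ≠ b → a ≠ d → b ≠ d →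
        ((A0.filter fun f => Df c H (f a) (f b) (f d)).card : ℝ) ≤ sig0 ^ 2 * n ^ 4 := by
      intro a b d ha hb hd hab had hbd
      have h1 := bad0 (c := c) (H := H) A.hn A0 {2, 5} ρ hT ha hb hd hab had hbd (m := 1)
        (by decide)
      refine h1.trans ?_
      have h2 := mul_le_mul_of_nonneg_right hWDle hp.le
      calc WD c H * n ^ 1 ≤ sig0 ^ 2 * n ^ 3 * n := by rw [pow_one]; exact h2
        _ = sig0 ^ 2 * n ^ 4 := by ring
    have hup : (A0.card : ℝ) ≤ (([(5, 3, 4), (0, 1, 3), (2, 0, 3), (2, 1, 3), (0, 1, 4),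
        (2, 0, 4), (2, 1, 4), (5, 0, 1)] : List Ed).length + 15) * (sig0 ^ 2 * n ^ 4) := by
      refine gl (c := c) (H := H) _ A0 ?_ ?_ ?_ ?_ ?_
      · intro f hf hinj he
        obtain ⟨⟨e1, e2⟩, e3, e4⟩ := (mem_filter.1 hf).2
        have hc := hcl f hf
        simp only [List.mem_cons, List.not_mem_nil, or_false, forall_eq_or_imp, forall_eq] at he
        obtain ⟨l1, l2, l3, l4, l5, l6, l7, l8⟩ := he
        have S := A.S
        have n02 : f 0 ≠ f 2 := fun h => absurd (hinj h) (by decide)
        have n05 : f 0 ≠ f 5 := fun h => absurd (hinj h) (by decide)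
        have n12 : f 1 ≠ f 2 := fun h => absurd (hinj h) (by decide)
        have n15 : f 1 ≠ f 5 := fun h => absurd (hinj h) (by decide)
        have n25 : f 2 ≠ f 5 := fun h => absurd (hinj h) (by decide)
        refine hF f hinj fun e he => ?_
        unfold E33 at he
        simp only [List.mem_cons, List.not_mem_nil, or_false] at he
        rcases he with rfl | rfl | rfl | rfl | rfl | rfl | rfl | rfl | rfl | rfl
        · exact S.s2 _ _ _ (S.s1 _ _ _ l1)
        · exact l2
        · exact S.s1 _ _ _ l3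
        · exact S.s1 _ _ _ l4
        · exact l5
        · exact S.s1 _ _ _ l6
        · exact S.s1 _ _ _ l7
        · exact S.s2 _ _ _ (S.s1 _ _ _ l8)
        · show H (f 0) (f 2) (f 5)
          rw [hR]
          refine ⟨n02, n25, n05, ?_⟩
          rw [hc 0, hc 2, hc 5, e1, e2, hr', e3]
          exact fd33a _ _ _ _ _
        · show H (f 1) (f 2) (f 5)
          rw [hR]
          refine ⟨n12, n25, n15, ?_⟩
          rw [hc 1, hc 2, hc 5, e1, e2, hr']
          exact fd33b _ _ _ _ _ _
      · intro e he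
        simp only [List.mem_cons, List.not_mem_nil, or_false] at he
        rcases he with rfl | rfl | rfl | rfl | rfl | rfl | rfl | rfl <;> decide
      · intro f hf e he
        have hc := hcl f hf
        simp only [List.mem_cons, List.not_mem_nil, or_false] at he
        rcases he with rfl | rfl | rfl | rfl | rfl | rfl | rfl | rfl
        · show tb (c (f 5)) (c (f 3)) (c (f 4)) = true
          rw [hc, hc, hc]; exact b1
        · show tb (c (f 0)) (c (f 1)) (c (f 3)) = true
          rw [hc, hc, hc]; exact b2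
        · show tb (c (f 2)) (c (f 0)) (c (f 3)) = true
          rw [hc, hc, hc]; exact b3
        · show tb (c (f 2)) (c (f 1)) (c (f 3)) = true
          rw [hc, hc, hc]; exact b4
        · show tb (c (f 0)) (c (f 1)) (c (f 4)) = true
          rw [hc, hc, hc]; exact b2
        · show tb (c (f 2)) (c (f 0)) (c (f 4)) = true
          rw [hc, hc, hc]; exact b3
        · show tb (c (f 2)) (c (f 1)) (c (f 4)) = true
          rw [hc, hc, hc]; exact b4
        · show tb (c (f 5)) (c (f 0)) (c (f 1)) = true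
          rw [hc, hc, hc]; exact b5
      · intro e he
        simp only [List.mem_cons, List.not_mem_nil, or_false] at he
        rcases he with rfl | rfl | rfl | rfl | rfl | rfl | rfl | rfl
        · exact hroot 5 3 4 (by decide) (by decide) (by decide) (by decide)
        · exact hnor 0 1 3 (by decide) (by decide) (by decide) (by decide) (by decide) (by decide)
        · exact hroot 2 0 3 (by decide) (by decide) (by decide) (by decide)
        · exact hroot 2 1 3 (by decide) (by decide) (by decide) (by decide)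
        · exact hnor 0 1 4 (by decide) (by decide) (by decide) (by decide) (by decide) (by decide)
        · exact hroot 2 0 4 (by decide) (by decide) (by decide) (by decide)
        · exact hroot 2 1 4 (by decide) (by decide) (by decide) (by decide)
        · exact hroot 5 0 1 (by decide) (by decide) (by decide) (by decide)
      · intro i j hij
        have h1 := badE A.hn A0 {2, 5} ρ hT hρi hij.ne (m := 3) (by decide)
        refine h1.trans ?_
        have h2 := mul_le_mul_of_nonneg_right A.big (show 0 ≤ n ^ 3 by positivity)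
        calc n ^ 3 = 1 * n ^ 3 := by ring
          _ ≤ sig0 ^ 2 * n * n ^ 3 := h2
          _ = sig0 ^ 2 * n ^ 4 := by ring
    -- the lower bound
    set W : Finset V := univ.filter fun w => c w = k ∧ rev w y = false with hW
    have hWc : n / 5 ≤ (W.card : ℝ) := by
      have h1 := few_rev A hR y
      have h3 := size_prev A (by unfold sig0; norm_num) k
      have h4 : sz c k ≤ (W.card : ℝ) + ∑ w, ind (c y = c w + 1 ∧ rev w y = true) := by
        rw [hW, ← ind_sum_card]
        unfold sz
        rw [← sum_add_distrib]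
        refine sum_le_sum fun w _ => ind_or fun hw => ?_
        by_cases hb : rev w y = true
        · right; exact ⟨by rw [hxy, hw], hb⟩
        · left; exact ⟨hw, by simpa using hb⟩
      linarith
    set t : Fin 6 → Finset V := fun i => if i = 2 then {y} else if i = 5 then {x} else
      if i = 0 then W else univ.filter fun z => c z = g i with ht
    have hsub : Fintype.piFinset t ⊆ A0 := by
      intro f hf
      rw [Fintype.mem_piFinset] at hf
      have f1 : f 2 ∈ ({y} : Finset V) := hf 2
      have f2 : f 5 ∈ ({x} : Finset V) := hf 5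
      have f3 : f 0 ∈ W := hf 0
      rw [mem_singleton] at f1 f2
      rw [hW, mem_filter] at f3
      refine mem_filter.2 ⟨mem_univ _, ⟨f1, f2⟩, f3.2.2, fun i hi2 hi5 => ?_⟩
      by_cases hi0 : i = 0
      · rw [hi0]; exact f3.2.1
      have f4 := hf i
      simp only [ht, if_neg hi2, if_neg hi5, if_neg hi0, mem_filter] at f4
      exact f4.2
    have hlow := prod_low t {1, 3, 4} (a := n / 4) (by positivity) (by
      intro i hi
      have : i ≠ 2 ∧ i ≠ 5 ∧ i ≠ 0 := by
        revert i; decide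
      simp only [ht, if_neg this.1, if_neg this.2.1, if_neg this.2.2]
      rw [← sz_card]
      exact size_prev A (by unfold sig0; norm_num) (g i))
    have hP : ∏ i ∈ univ \ ({1, 3, 4} : Finset (Fin 6)), ((t i).card : ℝ) = W.card := by
      have e : (univ \ {1, 3, 4} : Finset (Fin 6)) = {2, 5, 0} := by decide
      rw [e, prod_insert (by decide), prod_insert (by decide), prod_singleton]
      have t2 : t 2 = {y} := rfl
      have t5 : t 5 = {x} := rfl
      have t0 : t 0 = W := rfl
      rw [t2, t5, t0, card_singleton, card_singleton]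
      push_cast
      ring
    have hc3 : ({1, 3, 4} : Finset (Fin 6)).card = 3 := by decide
    rw [hP, hc3] at hlow
    have h3 : (W.card : ℝ) * (n / 4) ^ 3 ≤ (A0.card : ℝ) :=
      hlow.trans (by exact_mod_cast card_le_card hsub)
    have h4 : n / 5 * (n / 4) ^ 3 ≤ (W.card : ℝ) * (n / 4) ^ 3 :=
      mul_le_mul_of_nonneg_right hWc (by positivity)
    have h5 : (([(5, 3, 4), (0, 1, 3), (2, 0, 3), (2, 1, 3), (0, 1, 4),
        (2, 0, 4), (2, 1, 4), (5, 0, 1)] : List Ed).length + 15 : ℝ) = 23 := by norm_num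
    rw [h5] at hup
    have h6 : n / 5 * (n / 4) ^ 3 ≤ 23 * (sig0 ^ 2 * n ^ 4) := h4.trans (h3.trans hup)
    have h7 : 23 * (sig0 ^ 2 * n ^ 4) < n / 5 * (n / 4) ^ 3 := by
      have e1 : n / 5 * (n / 4) ^ 3 = 1 / 320 * n ^ 4 := by ring
      have e2 : 23 * (sig0 ^ 2 * n ^ 4) = 23 * sig0 ^ 2 * n ^ 4 := by ring
      rw [e1, e2]
      exact mul_lt_mul_of_pos_right (by unfold sig0; norm_num) (by positivity)
    linarith
  rw [hR]
  unfold Tu FD
  have key : ∀ (a b d : Fin 3) (r1 r2 r3 r4 r5 r6 : Bool),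
      (b = a + 1 → r1 = false) → (a = b + 1 → r2 = false) → (d = a + 1 → r3 = false) →
      (a = d + 1 → r4 = false) → (d = b + 1 → r5 = false) → (b = d + 1 → r6 = false) →
      fdB a b d r1 r2 r3 r4 r5 r6 = fdB a b d false false false false false false := by
    decide +kernel
  rw [key _ _ _ _ _ _ _ _ _ (h2 x y) (h2 y x) (h2 x z) (h2 z x) (h2 y z) (h2 z y)]

instance (g : Fin 6 → Fin 3) (L : List Ed) : Decidable (Typ g L) := by
  unfold Typ; infer_instance

theorem star33 : StarOK E33 0 3 4 5 ![2, 2, 2, 0, 0, 0]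
    [(3, 0, 1), (3, 0, 2), (3, 1, 2), (4, 0, 1), (4, 0, 2), (4, 1, 2), (0, 1, 5), (0, 2, 5),
      (1, 2, 5)] :=
  ⟨by decide, by decide, by decide, by decide, by decide, by decide, by decide⟩

end

/-- the bound for large minimum degree -/
theorem mid_33 {n : ℕ} {H : Finset (Finset (Fin n))} {δ : ℝ}
    (hH : ∀ e ∈ H, e.card = 3) (hK : Turan34.K43Free H) (hF : FreeR E33 (Loc.Rel H))
    (g : Fin n → Fin 3) (hn : 1 ≤ eps0 * n) (hδ0 : 0 < δ) (hδ : δ ≤ eps0 / 6)
    (h1 : ((symmDiff H (Turan34.turan g)).card : ℝ) ≤ δ ^ 2 * (n : ℝ) ^ 3)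
    (h2 : (5 / 54 - δ ^ 2) * (n : ℝ) ^ 3 ≤ (H.card : ℝ))
    (hdeg : ∀ v, (5 / 18 - eps0 / 2) * (n : ℝ) ^ 2 ≤ ((H.filter fun e => v ∈ e).card : ℝ)) :
    H.card ≤ tnum n ∧ (H.card = tnum n → TurG n H) := by
  have hnpos : 0 < n := by
    rcases Nat.eq_zero_or_pos n with h | h
    · rw [h] at hn; norm_num at hn
    · exact h
  have A := near_of hH hK g hnpos hδ0 hδ h1 h2
  have he := eps_small
  have hd : ∀ v, (5 / 9 - eps0) * (n : ℝ) ^ 2 ≤ deg (Loc.Rel H) v := by
    intro v
    rw [deg_card hH v]; linarith [hdeg v]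
  obtain ⟨c, B⟩ := exists_vx A (he.trans (by norm_num)) hn sig0_pos (by unfold sig0; norm_num)
    (τ := tau0) (by
      unfold tau0 sig0
      norm_num at he ⊢
      linarith) tau0_pos (fun v => link_33 A hn hF v (hd v))
  have h := near_apply B (n / 3) (n % 3) (n_div n) (by omega) (fun x y => by
    by_cases hxy : x = y
    · rw [← hxy, io_self B.S]; positivity
    by_cases hc : c y = c x
    · have h3 := star_use B hF star33 hxy (by rw [hc, add_zero])
      refine le_trans ?_ h3
      unfold io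
      exact sum_le_sum fun z _ => ind_mono fun h => ⟨by rw [hc]; exact h.1.2, h.2⟩
    · have : io c (Loc.Rel H) x y = 0 := sum_eq_zero fun z _ => ind_f fun h => hc h.1.1
      rw [this]; positivity)
  rw [total_count H hH, ← tnum_TT n] at h
  refine ⟨?_, fun heq => ?_⟩
  · have h1 : (H.card : ℝ) ≤ (tnum n : ℝ) := by linarith [h.1]
    exact_mod_cast h1
  · have h1 : 6 * (H.card : ℝ) = 6 * (tnum n : ℝ) := by rw [heq]
    obtain ⟨rev, hrel⟩ := h.2 h1
    have hT := unique_33 B hF hrel
    refine ⟨c, ?_⟩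
    ext e
    constructor
    · intro he
      obtain ⟨x, y, z, n1, n2, n3, rfl⟩ := card_eq_three.1 (hH e he)
      exact ((rel_tgraph c x y z).2 ((hT x y z).1 ⟨n1, n3, n2, he⟩)).2.2.2
    · intro he
      have h3 : e.card = 3 := by
        unfold tgraph at he
        exact (mem_filter.mp he).2.1
      obtain ⟨x, y, z, n1, n2, n3, rfl⟩ := card_eq_three.1 h3
      exact ((hT x y z).2 ((rel_tgraph c x y z).1 ⟨n1, n3, n2, he⟩)).2.2.2

theorem prp33 : Prp E33 := by unfold Prp; decide

theorem cls_33 (i : Fin 5) (hF : ∀ X ∈ Turan34.fam i, HomTo (gr E33) X) :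
    ClsP (fun _ H => FreeR E33 (Loc.Rel H)) KK TurG where
  K0 := by unfold KK; norm_num
  her := her_F
  stab ε hε := by
    obtain ⟨n0, h⟩ := stab_free i (gr_card prp33) hF hε
    refine ⟨n0, fun n hn H h3 hK hP => ?_⟩
    obtain ⟨h1, g, h2⟩ := h n hn H h3 hK ((free_iff prp33 H).1 hP)
    exact ⟨stab_up hε h1, g, h2⟩
  core n H g hH hK hP hn h1 h2 hdeg := mid_33 hH hK hP g hn
    (by have := eps0_pos; positivity) le_rfl h1 h2 hdeg

/-- Exact numbers. -/
theorem exact_33 (i : Fin 5) (hF : ∀ X ∈ Turan34.fam i, HomTo (gr E33) X) :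
    ∃ n0 : ℕ, ∀ n, n0 ≤ n →
    ∀ H : Finset (Finset (Fin n)), (∀ e ∈ H, e.card = 3) → Turan34.K43Free H →
      ¬ Contains (gr E33) H → H.card ≤ tnum n ∧ (H.card = tnum n → TurG n H) := by
  obtain ⟨n0, h⟩ := exact_of_clsP (cls_33 i hF)
  refine ⟨n0, fun n hn H h3 hK hC => ?_⟩
  have hP := (free_iff prp33 H).2 hC
  by_cases hc : tnum n ≤ H.card
  · have h1 := h n hn H h3 hK hP hc
    exact ⟨h1.1.le, fun _ => h1.2⟩
  · have h1 := not_le.1 hc
    exact ⟨h1.le, fun h => absurd h h1.ne⟩

end Pool.Agent.R105.TP
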